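import Pool.Agent.S5.E.T.Start

/-!
# Mixed chains, block E: the tables of boxes, in terms of the chain
-/

set_option autoImplicit false

namespace Pool.Agent.S5.E

open Complex
open Pool.Agent.S5.E.B2

/-- The vertex `i` seen from the edge on its right. -/
def vR (a : ℕ → ℕ) (S : ℕ → Bool) (i : ℕ) : Vt :=
  ⟨min (a i) 8, S i, if i = 0 then none else some (S (i - 1))⟩

/-- The vertex `i` seen from the edge on its left. -/
def vL (R : ℕ) (a : ℕ → ℕ) (S : ℕ → Bool) (i : ℕ) : Vt :=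
  ⟨min (a i) 8, S (i - 1), if i = R then none else some (S i)⟩

variable {R : ℕ} {a : ℕ → ℕ} {S : ℕ → Bool}

theorem vR_eq {i : Fin (R + 1)} : (⟨nF R a i, S i, kd (nlF R S i)⟩ : Vt) = vR a S i := by
  unfold vR nF
  by_cases h : (i : ℕ) = 0
  · rw [nlF_none.2 h, if_pos h]; rfl
  · rw [kd_nlF h, if_neg h]

theorem vL_eq {i : Fin (R + 1)} : (⟨nF R a i, S (i - 1), kd (nrF R S i)⟩ : Vt) = vL R a S i := by
  unfold vL nF
  by_cases h : (i : ℕ) = R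
  · rw [nrF_none.2 h, if_pos h]; rfl
  · rw [kd_nrF h, if_neg h]

/-- The table in terms of the chain. -/
theorem Tab.chain {T : Vt → Vt → Rg} {z : Fin (R + 1) → ℂ}
    (h : Tab T (nF R a) (nlF R S) (nrF R S) z) {i : ℕ} (hi : i < R) :
    InR (T (vR a S i) (vL R a S (i + 1))) (cos (z ⟨i, by omega⟩)).re
        (-(cos (z ⟨i, by omega⟩)).im) ∧
      InR (T (vL R a S (i + 1)) (vR a S i)) (cos (z ⟨i + 1, by omega⟩)).re
        (-(cos (z ⟨i + 1, by omega⟩)).im) := by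
  have h1 : nrF R S ⟨i, by omega⟩ = some (⟨i + 1, by omega⟩, S i) := by
    rw [nrF_iff]
    exact ⟨rfl, rfl⟩
  have h2 : nlF R S ⟨i + 1, by omega⟩ = some (⟨i, by omega⟩, S i) := by
    rw [nlF_iff]
    exact ⟨rfl, rfl⟩
  have e1 : (⟨nF R a ⟨i, by omega⟩, S i, kd (nlF R S ⟨i, by omega⟩)⟩ : Vt) = vR a S i :=
    vR_eq (i := ⟨i, by omega⟩)
  have e2 : (⟨nF R a ⟨i + 1, by omega⟩, S i, kd (nrF R S ⟨i + 1, by omega⟩)⟩ : Vt) =
      vL R a S (i + 1) := vL_eq (i := ⟨i + 1, by omega⟩)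
  have a1 : At (nlF R S) (nrF R S) ⟨i, by omega⟩ (some (⟨i + 1, by omega⟩, S i))
      (nlF R S ⟨i, by omega⟩) := Or.inr ⟨rfl, h1⟩
  have a2 : At (nlF R S) (nrF R S) ⟨i + 1, by omega⟩ (some (⟨i, by omega⟩, S i))
      (nrF R S ⟨i + 1, by omega⟩) := Or.inl ⟨h2, rfl⟩
  have b1 := h _ _ _ _ _ a1 a2
  have b2 := h _ _ _ _ _ a2 a1
  rw [e1, e2] at b1 b2
  exact ⟨b1, b2⟩

end Pool.Agent.S5.E
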