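import Pool.Agent.S5.E.T.Defs
import Pool.Agent.S5.E.Crt

/-!
# Mixed chains, block E: the tables of boxes, application of an instance at a vertex
-/

set_option autoImplicit false

namespace Pool.Agent.S5.E

open Complex
open Pool.Agent.S5.E.B2
open Pool.Agent.S3.E (al ph tt k2 s2)
open Pool.Agent.S5.G (kp kp_true kp_false)
open scoped ComplexConjugate

/-- The statement of an instance. -/
def Inst.Ok (x : Inst) : Prop :=
  if x.a = 2 then
    match x.s₂ with
    | none => x.s₁ = false ∧ Zr.EB x.r₁ x.out = true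
    | some s => x.s₁ = false ∧ x.Ok2 s
  else 3 ≤ x.a ∧ x.Ok3

theorem cos_parts (w : ℂ) : (cos w).re = Real.cos w.re * Real.cosh w.im ∧
    -(cos w).im = Real.sin w.re * Real.sinh w.im := by
  rw [Complex.cos_eq w]
  constructor
  · simp only [sub_re, mul_re, mul_im, I_re, I_im, cos_ofReal_re, cosh_ofReal_re, sin_ofReal_re,
      sinh_ofReal_re, cos_ofReal_im, cosh_ofReal_im, sin_ofReal_im, sinh_ofReal_im]
    ring
  · simp only [sub_im, mul_re, mul_im, I_re, I_im, cos_ofReal_re, cosh_ofReal_re, sin_ofReal_re,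
      sinh_ofReal_re, cos_ofReal_im, cosh_ofReal_im, sin_ofReal_im, sinh_ofReal_im]
    ring

variable {ι : Type*}

/-- The two slots of a vertex, in any order. -/
def At (nl nr : ι → Option (ι × Bool)) (i : ι) (o o' : Option (ι × Bool)) : Prop :=
  (nl i = o ∧ nr i = o') ∨ (nl i = o' ∧ nr i = o)

theorem At.sw {nl nr : ι → Option (ι × Bool)} {i : ι} {o o' : Option (ι × Bool)}
    (h : At nl nr i o o') : At nl nr i o' o := Or.symm h

/-- The kind of a slot. -/
def kd (o : Option (ι × Bool)) : Option Bool := o.map Prod.snd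

/-- The neighbour is in the region. -/
def InN (r : Rg) (z : ι → ℂ) (o : Option (ι × Bool)) : Prop :=
  ∀ j s, o = some (j, s) → InR r (cos (z j)).re (-(cos (z j)).im)

namespace Zr

variable {a : ι → ℝ} {nl nr : ι → Option (ι × Bool)} {z : ι → ℂ}

theorem bo_re1 {κ : Type*} {g : ι → κ → ℂ → ℝ} (h : Zr true a nl nr g 1 z) (j : ι) (s : Bool) :
    bo true 1 z (some (j, s)) = ((cos (z j)).re : ℂ) + (sgy s (-(cos (z j)).im) : ℝ) * I := by
  rw [bo_one z (h.cos_ne j)]
  cases s
  · rw [kp_false]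
    apply Complex.ext <;> simp [sgy]
  · rw [kp_true]
    apply Complex.ext <;> simp [sgy]

theorem eq_xy {x y u v : ℝ} {s : Bool}
    (h : (x : ℂ) + (sgy s y : ℝ) * I = (u : ℂ) + (sgy s v : ℝ) * I) : x = u ∧ y = v := by
  have h1 := congrArg Complex.re h
  have h2 := congrArg Complex.im h
  simp only [add_re, ofReal_re, mul_re, I_re, I_im, ofReal_im, mul_zero, mul_one, sub_zero,
    add_zero, add_im, mul_im, zero_add] at h1 h2
  refine ⟨h1, ?_⟩
  cases s <;> simp [sgy] at h2 <;> linarith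

/-- Special vertex. -/
theorem v2S (h : Zr true a nl nr (gC a nl nr) 1 z) (hC : Ch a nl nr) (h3 : In3 a nl nr z)
    {i j l : ι} (hi : a i = 2) (hs : Sp nl nr i j l) :
    V2 true (cos (z j)).re (-(cos (z j)).im) (cos (z l)).re (-(cos (z l)).im)
      (cos (z i)).re (-(cos (z i)).im) := by
  obtain ⟨x₁, y₁, x₂, y₂, v, e1, e2⟩ := h.v2_of hC h3 hi hs
  rw [h.bo_re1] at e1 e2
  have e1' : ((x₁ : ℂ) + (sgy false y₁ : ℝ) * I) =
      ((cos (z j)).re : ℂ) + (sgy false (-(cos (z j)).im) : ℝ) * I := by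
    rw [e1]; simp [sgy]
  obtain ⟨rfl, rfl⟩ := eq_xy e1'
  obtain ⟨rfl, rfl⟩ := eq_xy e2.symm
  exact v

/-- Vertex with two `A` edges. -/
theorem v2T (h : Zr true a nl nr (gC a nl nr) 1 z) (hC : Ch a nl nr) (h3 : In3 a nl nr z)
    {i j k : ι} (hi : a i = 2) (ht : IsT nl nr i j k) :
    V2 false (cos (z j)).re (-(cos (z j)).im) (cos (z k)).re (-(cos (z k)).im)
      (cos (z i)).re (-(cos (z i)).im) := by
  obtain ⟨r₁, r₂, -, -, hv, -⟩ := h.dT hC h3 hi ht
  obtain ⟨x₁, y₁, x₂, y₂, v, e1, e2⟩ := VD_v2 hv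
  rw [h.bo_re1] at e1 e2
  have e1' : ((x₁ : ℂ) + (sgy false y₁ : ℝ) * I) =
      ((cos (z j)).re : ℂ) + (sgy false (-(cos (z j)).im) : ℝ) * I := by
    rw [e1]; simp [sgy]
  obtain ⟨rfl, rfl⟩ := eq_xy e1'
  obtain ⟨rfl, rfl⟩ := eq_xy e2.symm
  exact v

theorem inP (h : Zr true a nl nr (gC a nl nr) 1 z) {r : Rg} {o : Option (ι × Bool)}
    (hr : InN r z o) : ∃ φ, be true 1 z o = sgO (kd o) * φ ∧ InP (kd o) r (ro true 1 z o) φ := by
  cases o with
  | none => exact ⟨0, by simp [be], rfl, rfl⟩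
  | some js =>
    obtain ⟨j, s⟩ := js
    have e : ex true s 1 = 1 := by cases s <;> simp [ex]
    have hro : ro true 1 z (some (j, s)) = ‖cos (z j)‖ := by
      show ‖cos (z j)‖ ^ (ex true s 1) = _
      rw [e, Real.rpow_one]
    refine ⟨ph (z j).re (z j).im, ?_, ?_⟩
    · show sg s * (ex true s 1 * ph (z j).re (z j).im) = sg s * ph (z j).re (z j).im
      rw [e, one_mul]
    · rw [hro]
      refine ⟨h.norm_pos j, h.phpos j, h.phlt j, ?_⟩
      rw [← h.cos_re, ← h.cos_im]
      exact hr j s rfl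

/-- The crude region. -/
theorem own (h : Zr true a nl nr (gC a nl nr) 1 z) (i : ι) :
    InR rOwn (cos (z i)).re (-(cos (z i)).im) := by
  have hT := (h.K.1.2 i).2
  have hk := h.norm_pos i
  have e : (cos (z i)).re ^ 2 + (-(cos (z i)).im) ^ 2 = ‖cos (z i)‖ ^ 2 := by
    rw [← Complex.normSq_eq_norm_sq, Complex.normSq_apply]
    ring
  refine ⟨(h.re_pos i).le, (h.v0 i).le, ?_, ?_, ?_, ?_, ?_⟩
  · rw [e]
    norm_num [rOwn]
    have := hT.1
    nlinarith
  · rw [e]
    norm_num [rOwn]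
    have := hT.2.1
    nlinarith
  · have := (h.v0 i).le
    norm_num [rOwn]
    linarith
  · have := hT.2.2
    norm_num [rOwn]
    linarith
  · have := mul_nonneg (h.re_pos i).le (h.v0 i).le
    norm_num [rOwn]
    linarith

/-- Application of an instance. -/
theorem app (h : Zr true a nl nr (gC a nl nr) 1 z) (hC : Ch a nl nr) (h3 : In3 a nl nr z)
    {x : Inst} (hx : x.Ok) {i j : ι} (ha : HasA x.a (a i)) {o : Option (ι × Bool)}
    (ho : At nl nr i (some (j, x.s₁)) o) (ho' : x.s₂ = kd o)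
    (h₀ : InR x.own (cos (z i)).re (-(cos (z i)).im))
    (h₁ : InR x.r₁ (cos (z j)).re (-(cos (z j)).im)) (h₂ : InN x.r₂ z o) :
    InR x.out (cos (z i)).re (-(cos (z i)).im) := by
  obtain ⟨xa, s₁, s₂, r₁, r₂, own, out⟩ := x
  dsimp only at ha ho ho' h₀ h₁ h₂ ⊢
  unfold Inst.Ok at hx
  dsimp only at hx
  split_ifs at hx with h2
  · subst h2
    have hi : a i = 2 := by
      unfold HasA at ha
      norm_num at ha
      exact ha
    cases o with
    | none =>
      rw [ho'] at hx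
      simp only [kd, Option.map_none] at hx
      obtain ⟨rfl, hE⟩ := hx
      have he : IsE nl nr i j := ho
      exact h.slotE1 rfl hi he h₁ hE
    | some ks =>
      obtain ⟨k, s⟩ := ks
      rw [ho'] at hx
      simp only [kd, Option.map_some] at hx
      obtain ⟨rfl, hE⟩ := hx
      have hk := h₂ k s rfl
      cases s
      · rcases ho with ho | ho
        · exact hE _ _ _ _ _ _ h₁ hk (h.v2T hC h3 hi ho) h₀
        · exact hE _ _ _ _ _ _ h₁ hk (h.v2T hC h3 hi ho).swap h₀
      · have hs : Sp nl nr i j k := ho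
        exact hE _ _ _ _ _ _ h₁ hk (h.v2S hC h3 hi hs) h₀
  · obtain ⟨hx3, hx⟩ := hx
    have hi : 3 ≤ a i := by
      unfold HasA at ha
      split_ifs at ha with h6
      · obtain ⟨k, hk, hk'⟩ := ha
        have : (8 : ℝ) ≤ k := by exact_mod_cast hk
        linarith
      · rw [ha]
        exact_mod_cast hx3
    have hvx := h.vx i
    have hself : InR own (Real.cos (z i).re * Real.cosh (z i).im)
        (Real.sin (z i).re * Real.sinh (z i).im) := by
      rw [← (cos_parts (z i)).1, ← (cos_parts (z i)).2]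
      exact h₀
    have hres : InR out (Real.cos (z i).re * Real.cosh (z i).im)
        (Real.sin (z i).re * Real.sinh (z i).im) := by
      have n1 : InN r₁ z (some (j, s₁)) := by
        intro j' s' e
        rw [Option.some.injEq, Prod.mk.injEq] at e
        rw [← e.1]
        exact h₁
      obtain ⟨φ₁, b1, q1⟩ := h.inP n1
      obtain ⟨φ₂, b2, q2⟩ := h.inP h₂
      rcases ho with ⟨ho1, ho2⟩ | ⟨ho1, ho2⟩
      · rw [ho1, ho2, b1, b2] at hvx
        rw [← ho'] at hvx q2
        exact hx _ _ _ _ _ _ _ _ _ _ _ hvx ha q1 q2 hself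
      · rw [ho1, ho2, b1, b2] at hvx
        rw [← ho'] at hvx q2
        exact hx _ _ _ _ _ _ _ _ _ _ _ hvx.swap ha q1 q2 hself
    rw [(cos_parts (z i)).1, (cos_parts (z i)).2]
    exact hres

end Zr

end Pool.Agent.S5.E
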