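import Pool.Agent.S5.E.T.Tab0
import Pool.Agent.S5.E.T.Chain

/-!
# Mixed chains, block E: the tables of boxes, the arguments at the vertices with two half twists
-/

set_option autoImplicit false

namespace Pool.Agent.S5.E

open Complex
open Pool.Agent.S5.E.B2
open Pool.Agent.S3.E (al ph tt k2 s2)

/-- `tan φ < 1` at the vertices with two half twists and two neighbours. -/
def argC (T : Vt → Vt → Rg) : Bool :=
  [(⟨2, false, some false⟩ : Vt), ⟨2, false, some true⟩].all fun J => (types false).all fun I =>
    !I.ok || Nat.ble (T J I).t1 999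

namespace Zr

variable {ι : Type*} {a : ι → ℝ} {n : ι → ℕ} {nl nr : ι → Option (ι × Bool)} {z : ι → ℂ}

theorem arg_of (h : Zr true a nl nr (gC a nl nr) 1 z) (hC : Ch a nl nr) (hn : ChT a n nl nr)
    {T : Vt → Vt → Rg} (hT : Tab T n nl nr z) (hc : argC T = true) (i : ι) (hi : a i = 2) :
    -(cos (z i)).im < (cos (z i)).re := by
  have hni : n i = 2 := by
    have := hn.hA i
    unfold HasA at this
    split_ifs at this with h6
    · obtain ⟨k, hk, hk'⟩ := this
      have : (8 : ℝ) ≤ k := by exact_mod_cast hk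
      linarith
    · rw [hi] at this; exact_mod_cast this.symm
  -- a vertex with two neighbours, seen from an `A` edge
  have key : ∀ (j : ι) (o : Option (ι × Bool)), At nl nr i (some (j, false)) o →
      (kd o = some false ∨ kd o = some true) → -(cos (z i)).im < (cos (z i)).re := by
    intro j o hij ho
    have hj : ∃ o', At nl nr j (some (i, false)) o' := by
      have h1 : nl i = some (j, false) ∨ nr i = some (j, false) := by
        rcases hij with ⟨h2, -⟩ | ⟨-, h2⟩
        · exact Or.inl h2
        · exact Or.inr h2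
      rcases hC.N.symm i j false h1 with h2 | h2
      · exact ⟨_, Or.inl ⟨h2, rfl⟩⟩
      · exact ⟨_, Or.inr ⟨rfl, h2⟩⟩
    obtain ⟨o', hj⟩ := hj
    have hI := hn.v j i false o' hj
    have hr := hT i j false o o' hij hj
    have ht : (T ⟨n i, false, kd o⟩ ⟨n j, false, kd o'⟩).t1 ≤ 999 := by
      unfold argC at hc
      rw [List.all_eq_true] at hc
      have h1 := hc ⟨n i, false, kd o⟩ (by
        rw [hni]
        rcases ho with e | e <;> rw [e] <;> simp)
      rw [List.all_eq_true] at h1
      have h2 := h1 ⟨n j, false, kd o'⟩ (mem_types hI)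
      rw [hI, Bool.not_true, Bool.false_or, Nat.ble_eq] at h2
      exact h2
    have h1 := hr.a1
    have h2 := h.re_pos i
    have h3 : ((T ⟨n i, false, kd o⟩ ⟨n j, false, kd o'⟩).t1 : ℝ) ≤ 999 := by exact_mod_cast ht
    have h4 : ((T ⟨n i, false, kd o⟩ ⟨n j, false, kd o'⟩).t1 : ℝ) / 1000 * (cos (z i)).re ≤
        999 / 1000 * (cos (z i)).re :=
      mul_le_mul_of_nonneg_right (by linarith) h2.le
    linarith
  rcases hC.two i hi with ⟨j, k, h1⟩ | ⟨j, l, h1⟩ | ⟨j, h1⟩
  · exact key j (some (k, false)) (Or.inl h1) (Or.inl rfl)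
  · exact key j (some (l, true)) h1 (Or.inr rfl)
  · obtain ⟨-, e2⟩ := h.k_end hi h1
    have hbe : 0 < be true 1 z (some (j, false)) := by
      rw [h.be_A]
      have e : ex true false 1 = 1 := by simp [ex]
      rw [e, one_mul]
      exact h.phpos j
    have hph : ph (z i).re (z i).im < Real.pi / 4 := by rw [e2]; linarith
    have h0 := (h.phpos i).le
    have hsc : Real.sin (ph (z i).re (z i).im) < Real.cos (ph (z i).re (z i).im) := by
      rw [← Real.cos_pi_div_two_sub]
      apply Real.cos_lt_cos_of_nonneg_of_le_pi h0 <;> linarith [Real.pi_pos]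
    rw [h.cos_re, h.cos_im]
    exact mul_lt_mul_of_pos_left hsc (h.norm_pos i)

end Zr

end Pool.Agent.S5.E
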