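import Pool.Agent.S5.E.T.W
import Pool.Agent.S5.E.X3.IL3
import Pool.Agent.S5.E.VX.NL3

/-!
# Mixed chains, block E: the tables of boxes, the half round 3
-/

set_option autoImplicit false

namespace Pool.Agent.S5.E

open Pool.Agent.S5.E.B2

set_option maxRecDepth 100000 in
theorem cov3 : covF wA3 wS3 wA4 wS4 (X3.L3.I ++ VX.NL3) = true := by decide +kernel

end Pool.Agent.S5.E
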