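import Pool.Agent.S5.E.T.W
import Pool.Agent.S5.E.X3.IL6

/-!
# Mixed chains, block E: the tables of boxes, the half round 6
-/

set_option autoImplicit false

namespace Pool.Agent.S5.E

open Pool.Agent.S5.E.B2

set_option maxRecDepth 100000 in
theorem cov6 : covF wA6 wS6 wA7 wS7 X3.L6.I = true := by decide +kernel

end Pool.Agent.S5.E
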