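import Pool.Agent.S5.E.T.W
import Pool.Agent.S5.E.T.D1
import Pool.Agent.S5.E.T.D2
import Pool.Agent.S5.E.T.D4

/-!
# Mixed chains, block E: the tables of boxes, the half rounds 1, 2, 4
-/

set_option autoImplicit false

namespace Pool.Agent.S5.E

open Pool.Agent.S5.E.B2

set_option maxRecDepth 100000 in
theorem cov1 : covF wA1 wS1 wA2 wS2 L1 = true := by decide +kernel

set_option maxRecDepth 100000 in
theorem cov2 : covF wA2 wS2 wA3 wS3 L2 = true := by decide +kernel

set_option maxRecDepth 100000 in
theorem cov4 : covF wA4 wS4 wA5 wS5 L4 = true := by decide +kernel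

end Pool.Agent.S5.E
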