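import Pool.Agent.S5.E.T.W
import Pool.Agent.S5.E.T.D5
import Pool.Agent.S5.E.T.D7
import Pool.Agent.S5.E.T.D8

/-!
# Mixed chains, block E: the tables of boxes, the half rounds 5, 7, 8
-/

set_option autoImplicit false

namespace Pool.Agent.S5.E

open Pool.Agent.S5.E.B2

set_option maxRecDepth 100000 in
theorem cov5 : covF wA5 wS5 wA6 wS6 L5 = true := by decide +kernel

set_option maxRecDepth 100000 in
theorem cov7 : covF wA7 wS7 wA8 wS8 L7 = true := by decide +kernel

set_option maxRecDepth 100000 in
theorem cov8 : covF wA8 wS8 wA9 wS9 L8 = true := by decide +kernel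

end Pool.Agent.S5.E
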