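import Pool.Agent.S5.E.T.App
import Pool.Agent.S5.E.B2.PolC

/-!
# Mixed chains, block E: the tables of boxes, the polar checker at the vertices with two half twists
-/

set_option autoImplicit false

namespace Pool.Agent.S5.E

open Pool.Agent.S5.E.B2
open Pool.Agent.S3.NI


/-- The check of an instance with two half twists. -/
def chkP (n : ℕ) (s : Bool) (r₁ r₂ own out : Rg) (p : Tb) : Bool :=
  okt r₁ p.a₁ p.b₁ && (okt r₂ p.a₂ p.b₂ && (Nat.ble out.m 0 &&
    ((Nat.ble own.k1 out.k1 || (Nat.ble 1 out.k1 && runP (tKL4 s out.k1) n r₁ r₂ p)) &&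
    ((Nat.ble out.k0 own.k0 || runP (tKG4 s out.k0) n r₁ r₂ p) &&
    ((Nat.ble own.t1 out.t1 || (Nat.ble out.t1 1000 && runP (tPL4 s out.t1) n r₁ r₂ p)) &&
    (Nat.ble out.t0 own.t0 || (Nat.ble out.t0 1000 && runP (tPG4 s out.t0) n r₁ r₂ p)))))))

theorem chkP_sound {n : ℕ} {s : Bool} {r₁ r₂ own out : Rg} {p : Tb}
    (h : chkP n s r₁ r₂ own out p = true) (a : ℕ) :
    (⟨a, false, some s, r₁, r₂, own, out⟩ : Inst).Ok2 s := by
  unfold chkP at h
  simp only [Bool.and_eq_true, Bool.or_eq_true] at h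
  obtain ⟨c1, c2, c3, c4, c5, c6, c7⟩ := h
  have hm : (out.m : ℝ) = 0 := by
    rw [Nat.ble_eq] at c3
    have : out.m = 0 := by omega
    rw [this]; norm_num
  intro x₁ y₁ x₂ y₂ u v g1 g2 hv hown
  have hown : InR own u v := hown
  have hu := hv.u0
  have hv0 := hv.v0
  show InR out u v
  refine ⟨hu.le, hv0.le, ?_, ?_, ?_, ?_, ?_⟩
  · rcases c5 with c | c
    · rw [Nat.ble_eq] at c
      exact hown.k0' c
    · by_cases hK : 0 < out.k0
      · exact (imp_pol (F := fun u v => ((out.k0 : ℝ) / 1000) ^ 2 < u ^ 2 + v ^ 2)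
          (fun A B C D ht k₁ τ₁ k₂ τ₂ u v m1 m2 m3 m4 a0 a1 c0 c1 h =>
            tKG4_sound hK ht m1 m2 m3 m4 a0 a1 c0 c1 h) c1 c2 c _ _ _ _ _ _ g1 g2 hv).le
      · have h1 : out.k0 = 0 := by omega
        rw [h1]
        have : (0 : ℝ) < u ^ 2 + v ^ 2 := by positivity
        norm_num
        linarith
  · rcases c4 with c | ⟨c, c'⟩
    · rw [Nat.ble_eq] at c
      exact hown.k1' c
    · rw [Nat.ble_eq] at c
      exact (imp_pol (F := fun u v => u ^ 2 + v ^ 2 < ((out.k1 : ℝ) / 1000) ^ 2)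
          (fun A B C D ht k₁ τ₁ k₂ τ₂ u v m1 m2 m3 m4 a0 a1 c0 c1 h =>
            tKL4_sound (by omega) ht m1 m2 m3 m4 a0 a1 c0 c1 h) c1 c2 c' _ _ _ _ _ _ g1 g2 hv).le
  · rcases c7 with c | ⟨c, c'⟩
    · rw [Nat.ble_eq] at c
      exact hown.t0' c
    · rw [Nat.ble_eq] at c
      exact (imp_pol (F := fun u v => (out.t0 : ℝ) / 1000 * u < v)
          (fun A B C D ht k₁ τ₁ k₂ τ₂ u v m1 m2 m3 m4 a0 a1 c0 c1 h =>
            tPG4_sound c ht m1 m2 m3 m4 a0 a1 c0 c1 h) c1 c2 c' _ _ _ _ _ _ g1 g2 hv).le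
  · rcases c6 with c | ⟨c, c'⟩
    · rw [Nat.ble_eq] at c
      exact hown.t1' c
    · rw [Nat.ble_eq] at c
      exact (imp_pol (F := fun u v => v < (out.t1 : ℝ) / 1000 * u)
          (fun A B C D ht k₁ τ₁ k₂ τ₂ u v m1 m2 m3 m4 a0 a1 c0 c1 h =>
            tPL4_sound c ht m1 m2 m3 m4 a0 a1 c0 c1 h) c1 c2 c' _ _ _ _ _ _ g1 g2 hv).le
  · rw [hm]
    have : 0 < u * v := mul_pos hu hv0
    linarith

/-- Data of a run: the instance (with two half twists) and the intervals of `τ`. -/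
structure D2P where
  r₁ : Rg
  r₂ : Rg
  own : Rg
  out : Rg
  p : Tb

/-- The instance. -/
def D2P.I (s : Bool) (x : D2P) : Inst := ⟨2, false, some s, x.r₁, x.r₂, x.own, x.out⟩

/-- The check of a list of instances. -/
def chkLP (n : ℕ) (s : Bool) (L : List D2P) : Bool :=
  L.all fun x => chkP n s x.r₁ x.r₂ x.own x.out x.p

theorem chkLP_sound {n : ℕ} {s : Bool} {L : List D2P} (h : chkLP n s L = true) :
    ∀ x ∈ L.map (D2P.I s), x.Ok := by
  intro x hx
  rw [List.mem_map] at hx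
  obtain ⟨y, hy, rfl⟩ := hx
  unfold chkLP at h
  rw [List.all_eq_true] at h
  unfold Inst.Ok D2P.I
  rw [if_pos rfl]
  exact ⟨rfl, chkP_sound (h y hy) 2⟩

/-- End vertices: `r`, `out`. -/
def chkE (L : List (Rg × Rg)) : Bool := L.all fun x => Zr.EB x.1 x.2

/-- The instance; no prior region is needed. -/
def EI (x : Rg × Rg) : Inst := ⟨2, false, none, x.1, x.1, ⟨0, 2000, 0, 2000, 0⟩, x.2⟩

theorem chkE_sound {L : List (Rg × Rg)} (h : chkE L = true) : ∀ x ∈ L.map EI, x.Ok := by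
  intro x hx
  rw [List.mem_map] at hx
  obtain ⟨y, hy, rfl⟩ := hx
  unfold chkE at h
  rw [List.all_eq_true] at h
  unfold Inst.Ok EI
  rw [if_pos rfl]
  exact ⟨rfl, h y hy⟩

end Pool.Agent.S5.E
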