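import Pool.Agent.S5.E.T.Step

/-!
# Mixed chains, block E: the tables of boxes, packed tables
-/

set_option autoImplicit false

namespace Pool.Agent.S5.E

open Pool.Agent.S5.E.B2

/-- The index of a type among the types of its kind. -/
def Vt.ix (J : Vt) : ℕ :=
  Nat.add (Nat.mul 3 (Nat.sub J.a 2)) (match J.o with | some false => 0 | some true => 1 | none => 2)

/-- A region packed into a number. -/
def rgW (w : ℕ) : Rg :=
  ⟨Nat.land w 2047, Nat.land (Nat.shiftRight w 11) 2047, Nat.land (Nat.shiftRight w 22) 2047,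
    Nat.land (Nat.shiftRight w 33) 2047, 0⟩

/-- A table packed into two numbers. -/
def tabW (A S : ℕ) (J I : Vt) : Rg :=
  rgW (Nat.shiftRight (bif J.s then S else A) (Nat.mul 44 (Nat.add (Nat.mul 21 J.ix) I.ix)))

end Pool.Agent.S5.E
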