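import Pool.Agent.S5.E.T.CovP
import Pool.Agent.S5.E.T.PackT

/-!
# Mixed chains, block E: the tables of boxes, a fast check of one step

`covF` is a fast version of `cov` for packed tables (`tabP`); it is written with the recursors, and
numbers are evaluated before they are used (`fc`).
-/

set_option autoImplicit false

namespace Pool.Agent.S5.E

open Pool.Agent.S5.E.B2

/-! ### Loops -/

/-- The number is evaluated before use. -/
noncomputable def fc (n : ℕ) (k : ℕ → Bool) : Bool :=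
  @Nat.rec (fun _ => Bool) (k 0) (fun m _ => k (Nat.succ m)) n

theorem fc_eq (n : ℕ) (k : ℕ → Bool) : fc n k = k n := by cases n <;> rfl

/-- `if b then y else x` -/
noncomputable def sel (b x y : Bool) : Bool := @Bool.rec (fun _ => Bool) x y b
/-- `x && y` -/
noncomputable def an (x y : Bool) : Bool := @Bool.rec (fun _ => Bool) false y x
/-- `x || y` -/
noncomputable def oR (x y : Bool) : Bool := @Bool.rec (fun _ => Bool) y true x

theorem an_eq {x y : Bool} : an x y = true ↔ x = true ∧ y = true := by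
  cases x <;> cases y <;> simp [an]
theorem oR_eq {x y : Bool} : oR x y = true ↔ x = true ∨ y = true := by
  cases x <;> cases y <;> simp [oR]

noncomputable def allR {α : Type} (p : α → Bool) (l : List α) : Bool :=
  @List.rec α (fun _ => Bool) true (fun x _ ih => @Bool.rec (fun _ => Bool) false ih (p x)) l

noncomputable def anyR {α : Type} (p : α → Bool) (l : List α) : Bool :=
  @List.rec α (fun _ => Bool) false (fun x _ ih => @Bool.rec (fun _ => Bool) ih true (p x)) l

theorem allR_iff {α : Type} {p : α → Bool} {l : List α} :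
    allR p l = true ↔ ∀ x ∈ l, p x = true := by
  induction l with
  | nil => simp [allR]
  | cons x l ih =>
    have : allR p (x :: l) = @Bool.rec (fun _ => Bool) false (allR p l) (p x) := rfl
    rw [this, List.forall_mem_cons, ← ih]
    cases p x <;> simp

theorem anyR_iff {α : Type} {p : α → Bool} {l : List α} :
    anyR p l = true ↔ ∃ x ∈ l, p x = true := by
  induction l with
  | nil => simp [anyR]
  | cons x l ih =>
    have : anyR p (x :: l) = @Bool.rec (fun _ => Bool) (anyR p l) true (p x) := rfl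
    rw [this, List.exists_mem_cons_iff, ← ih]
    cases p x <;> simp

/-- A fold in continuation passing style. -/
noncomputable def foldC {α β : Type} (step : α → List β → (List β → Bool) → Bool) (l : List α) :
    List β → (List β → Bool) → Bool :=
  @List.rec α (fun _ => List β → (List β → Bool) → Bool) (fun acc k => k acc)
    (fun x _ ih acc k => step x acc fun acc' => ih acc' k) l

theorem foldC_sound {α β : Type} {step : α → List β → (List β → Bool) → Bool} {R : α → β → Prop}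
    (hs : ∀ x acc k, step x acc k = true →
      ∃ acc', (∀ q ∈ acc', q ∈ acc ∨ R x q) ∧ k acc' = true) (l : List α) :
    ∀ acc k, foldC step l acc k = true →
      ∃ acc', (∀ q ∈ acc', q ∈ acc ∨ ∃ x ∈ l, R x q) ∧ k acc' = true := by
  induction l with
  | nil => intro acc k h; exact ⟨acc, fun q hq => Or.inl hq, h⟩
  | cons x l ih =>
    intro acc k h
    have h' : step x acc (fun acc' => foldC step l acc' k) = true := h
    obtain ⟨acc', h1, h2⟩ := hs x acc _ h'
    obtain ⟨acc'', h3, h4⟩ := ih acc' k h2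
    refine ⟨acc'', fun q hq => ?_, h4⟩
    rcases h3 q hq with h5 | ⟨y, hy, hy'⟩
    · rcases h1 q h5 with h6 | h6
      · exact Or.inl h6
      · exact Or.inr ⟨x, List.mem_cons_self, h6⟩
    · exact Or.inr ⟨y, List.mem_cons_of_mem _ hy, hy'⟩

/-! ### Packed tables and instances -/

/-- The entry `i` of a packed table. -/
def ent (A i : ℕ) : ℕ := Nat.land (Nat.shiftRight A (Nat.mul 48 i)) 140703120226303

theorem wf_ent (A i : ℕ) : Wf (ent A i) := wf_land _

attribute [local irreducible] geB ge2 ge3 pk ent rgP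

/-- A table packed into two numbers. -/
def tabP (A S : ℕ) (J I : Vt) : Rg :=
  rgP (ent (bif J.s then S else A) (Nat.add (Nat.mul 21 J.ix) I.ix))

/-- The code of the kinds of an instance. -/
def oc (o : Option Bool) : ℕ := match o with | some false => 0 | some true => 1 | none => 2

def icode (x : Inst) : ℕ := Nat.add (Nat.mul 6 x.a) (Nat.add (bif x.s₁ then 3 else 0) (oc x.s₂))
def vcode (J : Vt) : ℕ := Nat.add (Nat.mul 6 J.a) (Nat.add (bif J.s then 3 else 0) (oc J.o))

theorem code_inj {a b : ℕ} {s t : Bool} {o p : Option Bool}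
    (h : Nat.add (Nat.mul 6 a) (Nat.add (bif s then 3 else 0) (oc o)) =
      Nat.add (Nat.mul 6 b) (Nat.add (bif t then 3 else 0) (oc p))) : a = b ∧ s = t ∧ o = p := by
  change 6 * a + ((bif s then 3 else 0) + oc o) = 6 * b + ((bif t then 3 else 0) + oc p) at h
  rcases s with _ | _ <;> rcases t with _ | _ <;> rcases o with _ | _ | _ <;>
    rcases p with _ | _ | _ <;> simp only [oc, cond_true, cond_false] at h <;>
    first | exact ⟨by omega, rfl, rfl⟩ | (exfalso; omega)

/-- A packed instance. -/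
structure Q5 where
  c : ℕ
  r₁ : ℕ
  r₂ : ℕ
  own : ℕ
  out : ℕ

def okX (x : Inst) : Bool :=
  Nat.ble 1 x.a && (okP x.r₁ && (okP x.r₂ && (okP x.own && okP x.out)))

/-- `q` is the instance `x`. -/
def RQ (x : Inst) (q : Q5) : Prop :=
  okX x = true ∧ q.c = icode x ∧ q.r₁ = pk x.r₁ ∧ q.r₂ = pk x.r₂ ∧ q.own = pk x.own ∧
    q.out = pk x.out

noncomputable def stQ (x : Inst) (acc : List Q5) (k : List Q5 → Bool) : Bool :=
  an (okX x) (fc (icode x) fun c => fc (pk x.r₁) fun r₁ => fc (pk x.r₂) fun r₂ =>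
    fc (pk x.own) fun own => fc (pk x.out) fun out => k (⟨c, r₁, r₂, own, out⟩ :: acc))

theorem stQ_sound (x : Inst) (acc : List Q5) (k : List Q5 → Bool) (h : stQ x acc k = true) :
    ∃ acc', (∀ q ∈ acc', q ∈ acc ∨ RQ x q) ∧ k acc' = true := by
  unfold stQ at h
  rw [an_eq, fc_eq, fc_eq, fc_eq, fc_eq, fc_eq] at h
  refine ⟨_, fun q hq => ?_, h.2⟩
  rcases List.mem_cons.1 hq with rfl | hq
  · exact Or.inr ⟨h.1, rfl, rfl, rfl, rfl, rfl⟩
  · exact Or.inl hq

/-- The instances of a vertex with the codes `c` and (swapped) `d`. -/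
def RJ (c d : ℕ) (q : Q5) (p : Q5) : Prop :=
  (q.c = c ∧ p = q) ∨ (q.c = d ∧ p.c = 0 ∧ p.r₁ = q.r₂ ∧ p.r₂ = q.r₁ ∧ p.own = q.own ∧
    p.out = q.out)

noncomputable def stJ (c d : ℕ) (q : Q5) (acc : List Q5) (k : List Q5 → Bool) : Bool :=
  @Bool.rec (fun _ => Bool)
    (@Bool.rec (fun _ => Bool) (k acc) (k (⟨0, q.r₂, q.r₁, q.own, q.out⟩ :: acc)) (Nat.beq q.c d))
    (@Bool.rec (fun _ => Bool) (k (q :: acc))
      (k (⟨0, q.r₂, q.r₁, q.own, q.out⟩ :: q :: acc)) (Nat.beq q.c d)) (Nat.beq q.c c)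

theorem stJ_sound (c d : ℕ) (q : Q5) (acc : List Q5) (k : List Q5 → Bool)
    (h : stJ c d q acc k = true) :
    ∃ acc', (∀ p ∈ acc', p ∈ acc ∨ RJ c d q p) ∧ k acc' = true := by
  unfold stJ at h
  cases h1 : Nat.beq q.c c <;> cases h2 : Nat.beq q.c d <;> rw [h1, h2] at h <;> dsimp only at h
  · exact ⟨acc, fun p hp => Or.inl hp, h⟩
  · rw [Nat.beq_eq] at h2
    refine ⟨_, fun p hp => ?_, h⟩
    rcases List.mem_cons.1 hp with rfl | hp
    · exact Or.inr (Or.inr ⟨h2, rfl, rfl, rfl, rfl, rfl⟩)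
    · exact Or.inl hp
  · rw [Nat.beq_eq] at h1
    refine ⟨_, fun p hp => ?_, h⟩
    rcases List.mem_cons.1 hp with rfl | hp
    · exact Or.inr (Or.inl ⟨h1, rfl⟩)
    · exact Or.inl hp
  · rw [Nat.beq_eq] at h1 h2
    refine ⟨_, fun p hp => ?_, h⟩
    rcases List.mem_cons.1 hp with rfl | hp
    · exact Or.inr (Or.inr ⟨h2, rfl, rfl, rfl, rfl, rfl⟩)
    · rcases List.mem_cons.1 hp with rfl | hp
      · exact Or.inr (Or.inl ⟨h1, rfl⟩)
      · exact Or.inl hp

/-- The instances which can be applied with the neighbour region `rI`. -/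
noncomputable def stI (rI : ℕ) (q : Q5) (acc : List Q5) (k : List Q5 → Bool) : Bool :=
  sel (geB rI q.r₁) (k acc) (k (q :: acc))

theorem stI_aux (b : Bool) (q : Q5) (acc : List Q5) (k : List Q5 → Bool)
    (h : sel b (k acc) (k (q :: acc)) = true) :
    ∃ acc', (∀ p ∈ acc', p ∈ acc ∨ (p = q ∧ b = true)) ∧ k acc' = true := by
  cases b
  · exact ⟨acc, fun p hp => Or.inl hp, h⟩
  · refine ⟨q :: acc, fun p hp => ?_, h⟩
    rcases List.mem_cons.1 hp with hp | hp
    · exact Or.inr ⟨hp, rfl⟩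
    · exact Or.inl hp

theorem stI_sound (rI : ℕ) (q : Q5) (acc : List Q5) (k : List Q5 → Bool)
    (h : stI rI q acc k = true) :
    ∃ acc', (∀ p ∈ acc', p ∈ acc ∨ (p = q ∧ geB rI q.r₁ = true)) ∧ k acc' = true :=
  stI_aux (geB rI q.r₁) q acc k h

/-! ### The check -/

/-- One neighbour `I` of an end vertex `J`. -/
noncomputable def cF0 (A A' : ℕ) (jx : ℕ) (LJ : List Q5) (I : Vt) : Bool :=
  oR (fc (I.ix) fun ix => fc (ent A (Nat.add (Nat.mul 21 jx) ix)) fun own =>
    fc (ent A' (Nat.add (Nat.mul 21 jx) ix)) fun t =>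
    fc (ent A (Nat.add (Nat.mul 21 ix) jx)) fun rI =>
    oR (geB own t) (anyR (fun q => an (geB rI q.r₁) (an (geB own q.own) (ge2 own q.out t))) LJ))
    (!I.ok)

/-- One neighbour `I` of the vertex `J`, all neighbours `K` on the other side. -/
noncomputable def cF (A A' B : ℕ) (J : Vt) (s' : Bool) (jx jy : ℕ) (LJ : List Q5) (I : Vt) : Bool :=
  oR (!I.ok) (fc (I.ix) fun ix => fc (ent A (Nat.add (Nat.mul 21 jx) ix)) fun own =>
    fc (ent A' (Nat.add (Nat.mul 21 jx) ix)) fun t =>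
    fc (ent A (Nat.add (Nat.mul 21 ix) jx)) fun rI =>
    oR (geB own t) (foldC (stI rI) LJ [] fun LI =>
      allR (fun K => oR (fc (K.ix) fun kx =>
        fc (ent B (Nat.add (Nat.mul 21 jy) kx)) fun own' =>
        fc (ent B (Nat.add (Nat.mul 21 kx) jy)) fun rK =>
        oR (anyR (fun q => an (geB rK q.r₂) (an (ge2 own own' q.own) (ge3 own own' q.out t))) LI)
          (ge2 own own' t))
        (!(K.ok && adm J I K))) (types s')))

/-- The check at the vertex `J`. -/
noncomputable def cJ (A S A' S' : ℕ) (L : List Q5) (J : Vt) : Bool :=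
  oR (!J.ok) (match J.o with
    | none => foldC (stJ (vcode J) (Nat.mul 6 0)) L [] fun LJ => fc J.ix fun jx =>
      allR (cF0 (bif J.s then S else A) (bif J.s then S' else A') jx LJ) (types J.s)
    | some s' => fc (vcode J) fun c => fc (vcode J.sw) fun d => foldC (stJ c d) L [] fun LJ =>
      fc J.ix fun jx => fc J.sw.ix fun jy =>
      allR (cF (bif J.s then S else A) (bif J.s then S' else A') (bif s' then S else A) J s' jx jy
        LJ) (types J.s))

/-- **The fast check of one step.** -/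
noncomputable def covF (A S A' S' : ℕ) (L : List Inst) : Bool :=
  foldC stQ L [] fun L' => allR (cJ A S A' S' L') (types false ++ types true)

/-! ### Soundness -/

theorem mem_types_s {s : Bool} {K : Vt} (h : K ∈ types s) : K.s = s := by
  unfold types at h
  simp only [List.mem_flatMap, List.mem_cons, List.not_mem_nil, or_false] at h
  obtain ⟨a, -, h⟩ := h
  rcases h with rfl | rfl | rfl <;> rfl

theorem okX_and {x : Inst} (h : okX x = true) : 1 ≤ x.a ∧ okP x.r₁ = true ∧ okP x.r₂ = true ∧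
    okP x.own = true ∧ okP x.out = true := by
  unfold okX at h
  simp only [Bool.and_eq_true, Nat.ble_eq] at h
  exact ⟨h.1, h.2.1, h.2.2.1, h.2.2.2.1, h.2.2.2.2⟩

theorem sb_pk {u : ℕ} {r : Rg} (hu : Wf u) (hr : okP r = true) (h : geB u (pk r) = true) :
    Sb (rgP u) r = true := by
  have := geB_sound hu (wf_pk hr) h
  rwa [rgP_pk hr] at this

theorem sb2_pk {u v : ℕ} {r : Rg} (hu : Wf u) (hv : Wf v) (hr : okP r = true)
    (h : ge2 u v (pk r) = true) : Sb (capR (rgP u) (rgP v)) r = true := by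
  have := ge2_sound hu hv (wf_pk hr) h
  rwa [rgP_pk hr] at this

theorem sb2_pk' {u t : ℕ} {r : Rg} (hu : Wf u) (ht : Wf t) (hr : okP r = true)
    (h : ge2 u (pk r) t = true) : Sb (capR (rgP u) r) (rgP t) = true := by
  have := ge2_sound hu (wf_pk hr) ht h
  rwa [rgP_pk hr] at this

theorem sb3_pk {u v t : ℕ} {r : Rg} (hu : Wf u) (hv : Wf v) (ht : Wf t) (hr : okP r = true)
    (h : ge3 u v (pk r) t = true) : Sb (capR (capR (rgP u) (rgP v)) r) (rgP t) = true := by
  have := ge3_sound hu hv (wf_pk hr) ht h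
  rwa [rgP_pk hr] at this

theorem hit0_of {x : Inst} {J : Vt} {d : ℕ} {q p : Q5} {rI own t : ℕ} (hd : d = 0)
    (hI : Wf rI) (ho : Wf own) (ht : Wf t) (hx : RQ x q) (hp : RJ (vcode J) d q p)
    (hJ : J.o = none) (h1 : geB rI p.r₁ = true) (h2 : geB own p.own = true)
    (h3 : ge2 own p.out t = true) : hit0 x J (rgP rI) (rgP own) (rgP t) = true := by
  obtain ⟨hk, e1, e2, e3, e4, e5⟩ := hx
  obtain ⟨ha, k1, k2, k3, k4⟩ := okX_and hk
  rcases hp with ⟨hp, rfl⟩ | ⟨hp, -⟩
  · rw [e1] at hp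
    obtain ⟨c1, c2, c3⟩ := code_inj hp
    rw [e2] at h1
    rw [e4] at h2
    rw [e5] at h3
    unfold hit0
    simp only [Bool.and_eq_true, Nat.beq_eq, beq_iff_eq]
    exact ⟨c1, ⟨c2, by rw [c3, hJ], sb_pk hI k1 h1⟩, sb_pk ho k3 h2, sb2_pk' ho ht k4 h3⟩
  · exfalso
    rw [e1, hd] at hp
    have : 6 * x.a + ((bif x.s₁ then 3 else 0) + oc x.s₂) = 0 := hp
    omega

theorem hit_of {x : Inst} {J : Vt} {s' : Bool} {q p : Q5} {rI rK own own' t : ℕ}
    (hI : Wf rI) (hK : Wf rK) (ho : Wf own) (ho' : Wf own') (ht : Wf t) (hx : RQ x q)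
    (hp : RJ (vcode J) (vcode J.sw) q p)
    (hJ : J.o = some s') (h1 : geB rI p.r₁ = true) (h1' : geB rK p.r₂ = true)
    (h2 : ge2 own own' p.own = true) (h3 : ge3 own own' p.out t = true) :
    hit x J (rgP rI) (rgP rK) (capR (rgP own) (rgP own')) (rgP t) = true := by
  obtain ⟨hk, e1, e2, e3, e4, e5⟩ := hx
  obtain ⟨ha, k1, k2, k3, k4⟩ := okX_and hk
  unfold hit
  simp only [Bool.and_eq_true, Bool.or_eq_true, Nat.beq_eq, beq_iff_eq]
  rcases hp with ⟨hp, rfl⟩ | ⟨hp, -, f1, f2, f3, f4⟩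
  · rw [e1] at hp
    obtain ⟨c1, c2, c3⟩ := code_inj hp
    rw [e2] at h1
    rw [e3] at h1'
    rw [e4] at h2
    rw [e5] at h3
    exact ⟨c1, Or.inl ⟨c2, c3, sb_pk hI k1 h1, sb_pk hK k2 h1'⟩, sb2_pk ho ho' k3 h2,
      sb3_pk ho ho' ht k4 h3⟩
  · rw [e1] at hp
    obtain ⟨c1, c2, c3⟩ := code_inj hp
    rw [f1, e3] at h1
    rw [f2, e2] at h1'
    rw [f3, e4] at h2
    rw [f4, e5] at h3
    obtain ⟨a, s, o⟩ := J
    dsimp only at hJ
    subst hJ
    exact ⟨c1, Or.inr ⟨by rw [c2]; rfl, c3, sb_pk hK k1 h1', sb_pk hI k2 h1⟩, sb2_pk ho ho' k3 h2,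
      sb3_pk ho ho' ht k4 h3⟩

theorem cF0_sound {A S A' S' : ℕ} {L : List Inst} {d : ℕ} (hd : d = 0) {L' LJ : List Q5}
    (hL : ∀ q ∈ L', ∃ x ∈ L, RQ x q) {J I : Vt} (hJ : J.o = none) (hs : I.s = J.s)
    (hLJ : ∀ p ∈ LJ, ∃ q ∈ L', RJ (vcode J) d q p) (hI : I.ok = true)
    (h : cF0 (bif J.s then S else A) (bif J.s then S' else A') J.ix LJ I = true) :
    Sb (tabP A S J I) (tabP A' S' J I) = true ∨ ∃ x ∈ L, hit0 x J (tabP A S I J) (tabP A S J I)
      (tabP A' S' J I) = true := by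
  unfold cF0 at h
  rw [hI, oR_eq, fc_eq, fc_eq, fc_eq, fc_eq, oR_eq, anyR_iff] at h
  unfold tabP
  rw [hs]
  rcases h with (h | ⟨p, hp, h⟩) | h
  · exact Or.inl (geB_sound (wf_ent _ _) (wf_ent _ _) h)
  · rw [an_eq, an_eq] at h
    obtain ⟨h1, h2, h3⟩ := h
    obtain ⟨q, hq, hr⟩ := hLJ p hp
    obtain ⟨x, hx, hxq⟩ := hL q hq
    exact Or.inr ⟨x, hx, hit0_of hd (wf_ent _ _) (wf_ent _ _) (wf_ent _ _) hxq hr hJ h1 h2 h3⟩
  · exact absurd h (by simp)

theorem cF_sound {A S A' S' : ℕ} {L : List Inst} {L' LJ : List Q5}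
    (hL : ∀ q ∈ L', ∃ x ∈ L, RQ x q) {J I : Vt} {s' : Bool} (hJ : J.o = some s') (hs : I.s = J.s)
    (hLJ : ∀ p ∈ LJ, ∃ q ∈ L', RJ (vcode J) (vcode J.sw) q p) (hI : I.ok = true)
    (h : cF (bif J.s then S else A) (bif J.s then S' else A') (bif s' then S else A) J s' J.ix
      J.sw.ix LJ I = true) :
    Sb (tabP A S J I) (tabP A' S' J I) = true ∨ ∀ K ∈ types s', (K.ok && adm J I K) = true →
      Sb (capR (tabP A S J I) (tabP A S J.sw K)) (tabP A' S' J I) = true ∨
      ∃ x ∈ L, hit x J (tabP A S I J) (tabP A S K J.sw) (capR (tabP A S J I) (tabP A S J.sw K))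
        (tabP A' S' J I) = true := by
  have hsw : J.sw.s = s' := by
    obtain ⟨a, s, o⟩ := J
    dsimp only at hJ
    subst hJ
    rfl
  unfold cF at h
  rw [hI, oR_eq, fc_eq, fc_eq, fc_eq, fc_eq, oR_eq] at h
  unfold tabP
  rw [hs, hsw]
  rcases h with h | h | h
  · exact absurd h (by simp)
  · exact Or.inl (geB_sound (wf_ent _ _) (wf_ent _ _) h)
  · right
    intro K hK hKa
    rw [mem_types_s hK]
    obtain ⟨LI, h1, h2⟩ := foldC_sound (R := fun q p => p = q ∧ geB _ q.r₁ = true)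
      (fun q acc k hk => stI_sound _ q acc k hk) LJ [] _ h
    rw [allR_iff] at h2
    have h3 := h2 K hK
    rw [hKa, oR_eq, fc_eq, fc_eq, fc_eq, oR_eq, anyR_iff] at h3
    rcases h3 with (⟨p, hp, h3⟩ | h3) | h3
    · rw [an_eq, an_eq] at h3
      obtain ⟨g1, g2, g3⟩ := h3
      rcases h1 p hp with h1 | ⟨q, hq, rfl, h1⟩
      · exact absurd h1 (by simp)
      · obtain ⟨r, hr, hr'⟩ := hLJ p hq
        obtain ⟨x, hx, hxq⟩ := hL r hr
        exact Or.inr ⟨x, hx, hit_of (wf_ent _ _) (wf_ent _ _) (wf_ent _ _) (wf_ent _ _)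
          (wf_ent _ _) hxq hr' hJ h1 g1 g2 g3⟩
    · exact Or.inl (ge2_sound (wf_ent _ _) (wf_ent _ _) (wf_ent _ _) h3)
    · exact absurd h3 (by simp)

theorem mem_types2 {J : Vt} (hJ : J.ok = true) : J ∈ types false ++ types true := by
  have := mem_types hJ
  rw [List.mem_append]
  rcases h : J.s with _ | _
  · left; rw [h] at this; exact this
  · right; rw [h] at this; exact this

/-- **Soundness of the fast check.** -/
theorem covF_sound {A S A' S' : ℕ} {L : List Inst} (h : covF A S A' S' L = true) {J I : Vt}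
    (hJ : J.ok = true) (hI : I.ok = true) (hs : J.s = I.s) :
    covE (tabP A S) (tabP A' S') L J I = true := by
  unfold covF at h
  obtain ⟨L', h1, h2⟩ := foldC_sound (R := RQ) stQ_sound L [] _ h
  rw [allR_iff] at h2
  have h3 := h2 J (mem_types2 hJ)
  have hL : ∀ q ∈ L', ∃ x ∈ L, RQ x q := by
    intro q hq
    rcases h1 q hq with h4 | h4
    · exact absurd h4 (by simp)
    · exact h4
  have hIt : I ∈ types J.s := by rw [hs]; exact mem_types hI
  unfold cJ at h3
  unfold covE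
  rw [hJ, hI, Bool.and_true, Bool.not_true, Bool.false_or, Bool.or_eq_true]
  rw [hJ, oR_eq] at h3
  rcases h3 with h3 | h3
  · exact absurd h3 (by simp)
  obtain ⟨a, s, o⟩ := J
  rcases o with _ | s'
  · dsimp only at h3 ⊢
    obtain ⟨LJ, h4, h5⟩ := foldC_sound (R := RJ _ _) (stJ_sound _ _) L' [] _ h3
    rw [fc_eq, allR_iff] at h5
    have h6 := h5 I hIt
    have hLJ : ∀ p ∈ LJ, ∃ q ∈ L', RJ (vcode ⟨a, s, none⟩) (Nat.mul 6 0) q p := by
      intro p hp
      rcases h4 p hp with h7 | h7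
      · exact absurd h7 (by simp)
      · exact h7
    rw [List.any_eq_true]
    exact cF0_sound rfl hL rfl hs.symm hLJ hI h6
  · dsimp only at h3 ⊢
    rw [fc_eq, fc_eq] at h3
    obtain ⟨LJ, h4, h5⟩ := foldC_sound (R := RJ _ _) (stJ_sound _ _) L' [] _ h3
    rw [fc_eq, fc_eq, allR_iff] at h5
    have h6 := h5 I hIt
    have hLJ : ∀ p ∈ LJ, ∃ q ∈ L', RJ (vcode ⟨a, s, some s'⟩) (vcode (Vt.sw ⟨a, s, some s'⟩)) q p := by
      intro p hp
      rcases h4 p hp with h7 | h7
      · exact absurd h7 (by simp)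
      · exact h7
    rcases cF_sound hL rfl hs.symm hLJ hI h6 with h7 | h7
    · exact Or.inl h7
    · right
      rw [List.all_eq_true]
      intro K hK
      rw [Bool.or_eq_true]
      cases hKa : (K.ok && adm ⟨a, s, some s'⟩ I K)
      · exact Or.inl rfl
      · right
        rw [Bool.or_eq_true, List.any_eq_true]
        exact h7 K hK hKa

end Pool.Agent.S5.E
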