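import Pool.Agent.S5.E.T.Step

/-!
# Mixed chains, block E: the tables of boxes, packed regions

A region is packed into a number with the four digits `k0`, `2047 - k1`, `t0`, `2047 - t1` to the base
`4096`; all digits are `< 2048`.  `r` is contained in `r'` if all digits of `r` are at least those of
`r'`, and this is one comparison of numbers (`geB`).
-/

set_option autoImplicit false

namespace Pool.Agent.S5.E

open Pool.Agent.S5.E.B2

/-- All digits are `< 2048`. -/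
def Wf (u : ℕ) : Prop :=
  ∃ c0 c1 c2 c3 : ℕ, c0 < 2048 ∧ c1 < 2048 ∧ c2 < 2048 ∧ c3 < 2048 ∧
    u = c0 + 4096 * (c1 + 4096 * (c2 + 4096 * c3))

theorem tb0 {y Z : ℕ} (hy : y < 4096) : (y + 4096 * Z).testBit 11 = decide (2048 ≤ y) := by
  rw [Nat.testBit_eq_decide_div_mod_eq]
  congr 1
  apply propext
  constructor
  · intro h; omega
  · intro h; omega

theorem tbs {y Z : ℕ} (hy : y < 4096) (j : ℕ) : (y + 4096 * Z).testBit (12 + j) = Z.testBit j := by
  have e : (y + 4096 * Z) / 2 ^ 12 = Z := by omega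
  rw [Nat.add_comm 12 j, ← Nat.testBit_div_two_pow, e]

theorem wf_land (w : ℕ) : Wf (Nat.land w 140703120226303) := by
  have h1 : (Nat.land w 140703120226303).testBit 11 = false := by
    rw [show Nat.land w 140703120226303 = w &&& 140703120226303 from rfl, Nat.testBit_and]
    have : (140703120226303 : ℕ).testBit 11 = false := by decide +kernel
    rw [this, Bool.and_false]
  have h2 : (Nat.land w 140703120226303).testBit (12 + 11) = false := by
    rw [show Nat.land w 140703120226303 = w &&& 140703120226303 from rfl, Nat.testBit_and]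
    have : (140703120226303 : ℕ).testBit (12 + 11) = false := by decide +kernel
    rw [this, Bool.and_false]
  have h3 : (Nat.land w 140703120226303).testBit (12 + (12 + 11)) = false := by
    rw [show Nat.land w 140703120226303 = w &&& 140703120226303 from rfl, Nat.testBit_and]
    have : (140703120226303 : ℕ).testBit (12 + (12 + 11)) = false := by decide +kernel
    rw [this, Bool.and_false]
  have h4 : Nat.land w 140703120226303 ≤ 140703120226303 := Nat.and_le_right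
  generalize Nat.land w 140703120226303 = u at h1 h2 h3 h4
  obtain ⟨c0, r0, g0, e0⟩ : ∃ c r, c < 4096 ∧ u = c + 4096 * r :=
    ⟨u % 4096, u / 4096, Nat.mod_lt _ (by norm_num), (Nat.mod_add_div _ _).symm⟩
  obtain ⟨c1, r1, g1, e1⟩ : ∃ c r, c < 4096 ∧ r0 = c + 4096 * r :=
    ⟨r0 % 4096, r0 / 4096, Nat.mod_lt _ (by norm_num), (Nat.mod_add_div _ _).symm⟩
  obtain ⟨c2, r2, g2, e2⟩ : ∃ c r, c < 4096 ∧ r1 = c + 4096 * r :=
    ⟨r1 % 4096, r1 / 4096, Nat.mod_lt _ (by norm_num), (Nat.mod_add_div _ _).symm⟩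
  subst e2
  subst e1
  subst e0
  rw [tb0 g0, decide_eq_false_iff_not] at h1
  rw [tbs g0, tb0 g1, decide_eq_false_iff_not] at h2
  rw [tbs g0, tbs g1, tb0 g2, decide_eq_false_iff_not] at h3
  exact ⟨c0, c1, c2, r2, by omega, by omega, by omega, by omega, rfl⟩

/-- The region of a packed number. -/
def rgP (u : ℕ) : Rg :=
  ⟨Nat.mod u 4096, Nat.sub 2047 (Nat.mod (Nat.div u 4096) 4096), Nat.mod (Nat.div u 16777216) 4096,
    Nat.sub 2047 (Nat.mod (Nat.div u 68719476736) 4096), 0⟩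

/-- The packed number of a region. -/
def pk (r : Rg) : ℕ :=
  Nat.add (Nat.add r.k0 (Nat.mul 4096 (Nat.sub 2047 r.k1)))
    (Nat.add (Nat.mul 16777216 r.t0) (Nat.mul 68719476736 (Nat.sub 2047 r.t1)))

/-- The region can be packed. -/
def okP (r : Rg) : Bool :=
  Nat.ble r.k0 2047 && (Nat.ble r.k1 2047 && (Nat.ble r.t0 2047 && (Nat.ble r.t1 2047 &&
    Nat.beq r.m 0)))

theorem pk_eq (r : Rg) : pk r = r.k0 + 4096 * ((2047 - r.k1) + 4096 * (r.t0 + 4096 *
    (2047 - r.t1))) := by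
  show r.k0 + 4096 * (2047 - r.k1) + (16777216 * r.t0 + 68719476736 * (2047 - r.t1)) = _
  ring

theorem wf_pk {r : Rg} (h : okP r = true) : Wf (pk r) := by
  unfold okP at h
  simp only [Bool.and_eq_true, Nat.ble_eq, Nat.beq_eq] at h
  obtain ⟨h1, h2, h3, h4, h5⟩ := h
  exact ⟨r.k0, 2047 - r.k1, r.t0, 2047 - r.t1, by omega, by omega, by omega, by omega, pk_eq r⟩

theorem dig0 {y Z : ℕ} (hy : y < 4096) : (y + 4096 * Z) % 4096 = y := by omega
theorem digs {y Z : ℕ} (hy : y < 4096) : (y + 4096 * Z) / 4096 = Z := by omega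

/-- The digits. -/
theorem digits {c0 c1 c2 c3 : ℕ} (h0 : c0 < 4096) (h1 : c1 < 4096) (h2 : c2 < 4096)
    (h3 : c3 < 4096) :
    let u := c0 + 4096 * (c1 + 4096 * (c2 + 4096 * c3))
    u % 4096 = c0 ∧ u / 4096 % 4096 = c1 ∧ u / 16777216 % 4096 = c2 ∧
      u / 68719476736 % 4096 = c3 := by
  intro u
  have a1 : u / 4096 = c1 + 4096 * (c2 + 4096 * c3) := digs h0
  have a2 : u / 16777216 = c2 + 4096 * c3 := by
    rw [show (16777216 : ℕ) = 4096 * 4096 from rfl, ← Nat.div_div_eq_div_mul, a1, digs h1]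
  have a3 : u / 68719476736 = c3 := by
    rw [show (68719476736 : ℕ) = 16777216 * 4096 from rfl, ← Nat.div_div_eq_div_mul, a2, digs h2]
  refine ⟨dig0 h0, ?_, ?_, ?_⟩
  · rw [a1]; exact dig0 h1
  · rw [a2]; exact dig0 h2
  · rw [a3]; exact Nat.mod_eq_of_lt h3

theorem rgP_pk {r : Rg} (h : okP r = true) : rgP (pk r) = r := by
  unfold okP at h
  simp only [Bool.and_eq_true, Nat.ble_eq, Nat.beq_eq] at h
  obtain ⟨h1, h2, h3, h4, h5⟩ := h
  rw [pk_eq]
  obtain ⟨k0, k1, t0, t1, m⟩ := r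
  dsimp only at h1 h2 h3 h4 h5 ⊢
  subst h5
  obtain ⟨d0, d1, d2, d3⟩ := digits (c0 := k0) (c1 := 2047 - k1) (c2 := t0) (c3 := 2047 - t1)
    (by omega) (by omega) (by omega) (by omega)
  show (⟨_ % 4096, 2047 - _ / 4096 % 4096, _ / 16777216 % 4096, 2047 - _ / 68719476736 % 4096, 0⟩ :
    Rg) = _
  rw [d0, d1, d2, d3]
  congr 1 <;> omega

/-- The fields of a packed region. -/
def dg (u : ℕ) (i : ℕ) : ℕ :=
  match i with
  | 0 => u % 4096
  | 1 => u / 4096 % 4096
  | 2 => u / 16777216 % 4096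
  | _ => u / 68719476736 % 4096

/-- Containment of packed regions, digit by digit. -/
theorem rgP_sub {u u' : ℕ} (h : Wf u) (h' : Wf u') (i : ℕ)
    (hb : ((Nat.sub (Nat.add u 140771856484352) u').testBit (12 * i + 11)) = true) (hi : i < 4) :
    dg u' i ≤ dg u i := by
  obtain ⟨c0, c1, c2, c3, g0, g1, g2, g3, e⟩ := h
  obtain ⟨d0, d1, d2, d3, f0, f1, f2, f3, e'⟩ := h'
  have eX : Nat.sub (Nat.add u 140771856484352) u' = u + 140771856484352 - u' := rfl
  obtain ⟨y0, hy0⟩ : ∃ y, y + d0 = c0 + 2048 := ⟨c0 + 2048 - d0, by omega⟩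
  obtain ⟨y1, hy1⟩ : ∃ y, y + d1 = c1 + 2048 := ⟨c1 + 2048 - d1, by omega⟩
  obtain ⟨y2, hy2⟩ : ∃ y, y + d2 = c2 + 2048 := ⟨c2 + 2048 - d2, by omega⟩
  obtain ⟨y3, hy3⟩ : ∃ y, y + d3 = c3 + 2048 := ⟨c3 + 2048 - d3, by omega⟩
  have hX : u + 140771856484352 - u' = y0 + 4096 * (y1 + 4096 * (y2 + 4096 * (y3 + 4096 * 0))) := by
    have e1 : u + 140771856484352 = (y0 + 4096 * (y1 + 4096 * (y2 + 4096 * (y3 + 4096 * 0)))) + u' := by
      rw [e, e']
      have : (140771856484352 : ℕ) = 2048 + 4096 * (2048 + 4096 * (2048 + 4096 * 2048)) := rfl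
      rw [this]
      linear_combination hy0.symm + 4096 * hy1.symm + 16777216 * hy2.symm +
        68719476736 * hy3.symm
    rw [e1, Nat.add_sub_cancel]
  rw [eX, hX] at hb
  have l0 : y0 < 4096 := by omega
  have l1 : y1 < 4096 := by omega
  have l2 : y2 < 4096 := by omega
  have l3 : y3 < 4096 := by omega
  obtain ⟨p0, p1, p2, p3⟩ := digits (c0 := c0) (c1 := c1) (c2 := c2) (c3 := c3) (by omega)
    (by omega) (by omega) (by omega)
  obtain ⟨q0, q1, q2, q3⟩ := digits (c0 := d0) (c1 := d1) (c2 := d2) (c3 := d3) (by omega)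
    (by omega) (by omega) (by omega)
  rw [← e] at p0 p1 p2 p3
  rw [← e'] at q0 q1 q2 q3
  interval_cases i
  · rw [show 12 * 0 + 11 = 11 from rfl, tb0 l0, decide_eq_true_iff] at hb
    show u' % 4096 ≤ u % 4096
    rw [p0, q0]; omega
  · rw [show 12 * 1 + 11 = 12 + 11 from rfl, tbs l0, tb0 l1, decide_eq_true_iff] at hb
    show u' / 4096 % 4096 ≤ u / 4096 % 4096
    rw [p1, q1]; omega
  · rw [show 12 * 2 + 11 = 12 + (12 + 11) from rfl, tbs l0, tbs l1, tb0 l2,
      decide_eq_true_iff] at hb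
    show u' / 16777216 % 4096 ≤ u / 16777216 % 4096
    rw [p2, q2]; omega
  · rw [show 12 * 3 + 11 = 12 + (12 + (12 + 11)) from rfl, tbs l0, tbs l1, tbs l2, tb0 l3,
      decide_eq_true_iff] at hb
    show u' / 68719476736 % 4096 ≤ u / 68719476736 % 4096
    rw [p3, q3]; omega

/-- The guard bits. -/
theorem guard {X : ℕ} (h : Nat.beq (Nat.land X 140771856484352) 140771856484352 = true) (i : ℕ)
    (hi : i < 4) : X.testBit (12 * i + 11) = true := by
  rw [Nat.beq_eq, show Nat.land X 140771856484352 = X &&& 140771856484352 from rfl] at h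
  have h1 := congrArg (fun n => n.testBit (12 * i + 11)) h
  simp only [Nat.testBit_and] at h1
  have h2 : (140771856484352 : ℕ).testBit (12 * i + 11) = true := by
    interval_cases i <;> decide +kernel
  rw [h2, Bool.and_true] at h1
  exact h1

/-- `u` is contained in `u'`. -/
def geB (u u' : ℕ) : Bool :=
  Nat.beq (Nat.land (Nat.sub (Nat.add u 140771856484352) u') 140771856484352) 140771856484352

/-- The intersection of `u` and `v` is contained in `u'`. -/
def ge2 (u v u' : ℕ) : Bool :=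
  Nat.beq (Nat.land (Nat.lor (Nat.sub (Nat.add u 140771856484352) u')
    (Nat.sub (Nat.add v 140771856484352) u')) 140771856484352) 140771856484352

/-- The intersection of `u`, `v` and `w` is contained in `u'`. -/
def ge3 (u v w u' : ℕ) : Bool :=
  Nat.beq (Nat.land (Nat.lor (Nat.lor (Nat.sub (Nat.add u 140771856484352) u')
    (Nat.sub (Nat.add v 140771856484352) u')) (Nat.sub (Nat.add w 140771856484352) u'))
    140771856484352) 140771856484352

theorem rgP_fields (u : ℕ) : (rgP u).k0 = dg u 0 ∧ (rgP u).k1 = 2047 - dg u 1 ∧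
    (rgP u).t0 = dg u 2 ∧ (rgP u).t1 = 2047 - dg u 3 := ⟨rfl, rfl, rfl, rfl⟩

theorem Sb_iff {r r' : Rg} (h : r'.k0 ≤ r.k0 ∧ r.k1 ≤ r'.k1 ∧ r'.t0 ≤ r.t0 ∧ r.t1 ≤ r'.t1 ∧
    r'.m ≤ r.m) : Sb r r' = true := by
  unfold Sb
  simp only [Bool.and_eq_true, Nat.ble_eq]
  exact ⟨h.1, h.2.1, h.2.2.1, h.2.2.2.1, h.2.2.2.2⟩

theorem geB_sound {u u' : ℕ} (h : Wf u) (h' : Wf u') (hb : geB u u' = true) :
    Sb (rgP u) (rgP u') = true := by
  have d : ∀ i, i < 4 → dg u' i ≤ dg u i := fun i hi =>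
    rgP_sub h h' i (guard hb i hi) hi
  obtain ⟨a1, a2, a3, a4⟩ := rgP_fields u
  obtain ⟨b1, b2, b3, b4⟩ := rgP_fields u'
  have d0 := d 0 (by omega)
  have d1 := d 1 (by omega)
  have d2 := d 2 (by omega)
  have d3 := d 3 (by omega)
  apply Sb_iff
  rw [a1, a2, a3, a4, b1, b2, b3, b4]
  exact ⟨d0, Nat.sub_le_sub_left d1 _, d2, Nat.sub_le_sub_left d3 _, le_refl _⟩

theorem capR_fields (r r' : Rg) : (r.k0 ≤ (capR r r').k0 ∧ r'.k0 ≤ (capR r r').k0) ∧
    ((capR r r').k1 ≤ r.k1 ∧ (capR r r').k1 ≤ r'.k1) ∧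
    (r.t0 ≤ (capR r r').t0 ∧ r'.t0 ≤ (capR r r').t0) ∧
    ((capR r r').t1 ≤ r.t1 ∧ (capR r r').t1 ≤ r'.t1) ∧
    (r.m ≤ (capR r r').m ∧ r'.m ≤ (capR r r').m) := by
  have mx : ∀ x y : ℕ, x ≤ (bif Nat.ble x y then y else x) ∧ y ≤ (bif Nat.ble x y then y else x) := by
    intro x y
    cases h : Nat.ble x y
    · rw [cond_false]
      have : ¬ x ≤ y := fun h' => by rw [← Nat.ble_eq, h] at h'; exact absurd h' (by simp)
      omega
    · rw [cond_true]
      rw [Nat.ble_eq] at h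
      omega
  have mn : ∀ x y : ℕ, (bif Nat.ble x y then x else y) ≤ x ∧ (bif Nat.ble x y then x else y) ≤ y := by
    intro x y
    cases h : Nat.ble x y
    · rw [cond_false]
      have : ¬ x ≤ y := fun h' => by rw [← Nat.ble_eq, h] at h'; exact absurd h' (by simp)
      omega
    · rw [cond_true]
      rw [Nat.ble_eq] at h
      omega
  exact ⟨mx _ _, mn _ _, mx _ _, mn _ _, mx _ _⟩

theorem ge2_sound {u v u' : ℕ} (h : Wf u) (hv : Wf v) (h' : Wf u') (hb : ge2 u v u' = true) :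
    Sb (capR (rgP u) (rgP v)) (rgP u') = true := by
  have d : ∀ i, i < 4 → dg u' i ≤ dg u i ∨
      dg u' i ≤ dg v i := by
    intro i hi
    have h1 := guard hb i hi
    rw [show ∀ a b : ℕ, Nat.lor a b = a ||| b from fun _ _ => rfl, Nat.testBit_or,
      Bool.or_eq_true] at h1
    rcases h1 with h1 | h1
    · exact Or.inl (rgP_sub h h' i h1 hi)
    · exact Or.inr (rgP_sub hv h' i h1 hi)
  obtain ⟨a1, a2, a3, a4⟩ := rgP_fields u
  obtain ⟨c1, c2, c3, c4⟩ := rgP_fields v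
  obtain ⟨b1, b2, b3, b4⟩ := rgP_fields u'
  have d0 := d 0 (by omega)
  have d1 := d 1 (by omega)
  have d2 := d 2 (by omega)
  have d3 := d 3 (by omega)
  obtain ⟨⟨e1, e1'⟩, ⟨e2, e2'⟩, ⟨e3, e3'⟩, ⟨e4, e4'⟩, e5, -⟩ := capR_fields (rgP u) (rgP v)
  rw [a1] at e1; rw [c1] at e1'
  rw [a2] at e2; rw [c2] at e2'
  rw [a3] at e3; rw [c3] at e3'
  rw [a4] at e4; rw [c4] at e4'
  apply Sb_iff
  rw [b1, b2, b3, b4]
  refine ⟨?_, ?_, ?_, ?_, Nat.zero_le _⟩
  · rcases d0 with q | q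
    · exact q.trans e1
    · exact q.trans e1'
  · rcases d1 with q | q
    · exact e2.trans (Nat.sub_le_sub_left q _)
    · exact e2'.trans (Nat.sub_le_sub_left q _)
  · rcases d2 with q | q
    · exact q.trans e3
    · exact q.trans e3'
  · rcases d3 with q | q
    · exact e4.trans (Nat.sub_le_sub_left q _)
    · exact e4'.trans (Nat.sub_le_sub_left q _)

theorem ge3_sound {u v w u' : ℕ} (h : Wf u) (hv : Wf v) (hw : Wf w) (h' : Wf u')
    (hb : ge3 u v w u' = true) :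
    Sb (capR (capR (rgP u) (rgP v)) (rgP w)) (rgP u') = true := by
  have d : ∀ i, i < 4 → (dg u' i ≤ dg u i ∨
      dg u' i ≤ dg v i) ∨ dg u' i ≤ dg w i := by
    intro i hi
    have h1 := guard hb i hi
    rw [show ∀ a b : ℕ, Nat.lor a b = a ||| b from fun _ _ => rfl,
      show ∀ a b : ℕ, Nat.lor a b = a ||| b from fun _ _ => rfl, Nat.testBit_or, Nat.testBit_or,
      Bool.or_eq_true, Bool.or_eq_true] at h1
    rcases h1 with (h1 | h1) | h1
    · exact Or.inl (Or.inl (rgP_sub h h' i h1 hi))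
    · exact Or.inl (Or.inr (rgP_sub hv h' i h1 hi))
    · exact Or.inr (rgP_sub hw h' i h1 hi)
  obtain ⟨a1, a2, a3, a4⟩ := rgP_fields u
  obtain ⟨c1, c2, c3, c4⟩ := rgP_fields v
  obtain ⟨w1, w2, w3, w4⟩ := rgP_fields w
  obtain ⟨b1, b2, b3, b4⟩ := rgP_fields u'
  have d0 := d 0 (by omega)
  have d1 := d 1 (by omega)
  have d2 := d 2 (by omega)
  have d3 := d 3 (by omega)
  obtain ⟨⟨e1, e1'⟩, ⟨e2, e2'⟩, ⟨e3, e3'⟩, ⟨e4, e4'⟩, e5, -⟩ := capR_fields (rgP u) (rgP v)
  obtain ⟨⟨p1, p1'⟩, ⟨p2, p2'⟩, ⟨p3, p3'⟩, ⟨p4, p4'⟩, -, -⟩ :=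
    capR_fields (capR (rgP u) (rgP v)) (rgP w)
  rw [a1] at e1; rw [c1] at e1'; rw [w1] at p1'
  rw [a2] at e2; rw [c2] at e2'; rw [w2] at p2'
  rw [a3] at e3; rw [c3] at e3'; rw [w3] at p3'
  rw [a4] at e4; rw [c4] at e4'; rw [w4] at p4'
  apply Sb_iff
  rw [b1, b2, b3, b4]
  refine ⟨?_, ?_, ?_, ?_, Nat.zero_le _⟩
  · rcases d0 with (q | q) | q
    · exact q.trans (e1.trans p1)
    · exact q.trans (e1'.trans p1)
    · exact q.trans p1'
  · rcases d1 with (q | q) | q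
    · exact p2.trans (e2.trans (Nat.sub_le_sub_left q _))
    · exact p2.trans (e2'.trans (Nat.sub_le_sub_left q _))
    · exact p2'.trans (Nat.sub_le_sub_left q _)
  · rcases d2 with (q | q) | q
    · exact q.trans (e3.trans p3)
    · exact q.trans (e3'.trans p3)
    · exact q.trans p3'
  · rcases d3 with (q | q) | q
    · exact p4.trans (e4.trans (Nat.sub_le_sub_left q _))
    · exact p4.trans (e4'.trans (Nat.sub_le_sub_left q _))
    · exact p4'.trans (Nat.sub_le_sub_left q _)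

end Pool.Agent.S5.E
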