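import Pool.Agent.S5.E.T.PackT
import Pool.Agent.S5.E.T.Chain

/-!
# Mixed chains, block E: the regions of the vertices with two half twists, by both neighbours

`TabV V z`: a vertex `i` with two half twists, an `A` edge to `j` and an `S` edge to `k` is in the
region `V (type of j) (type of k)`; `TabA` is the same for the vertices with two `A` edges.
-/

set_option autoImplicit false

namespace Pool.Agent.S5.E

open Complex
open Pool.Agent.S5.E.B2

variable {ι : Type*}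

/-- The regions of the vertices of the type `J` (with two neighbours), by both neighbours. -/
def TabV (J : Vt) (V : Vt → Vt → Rg) (n : ι → ℕ) (nl nr : ι → Option (ι × Bool)) (z : ι → ℂ) :
    Prop :=
  ∀ i j k s' o₁ o₂, J.o = some s' → n i = J.a → At nl nr i (some (j, J.s)) (some (k, s')) →
    At nl nr j (some (i, J.s)) o₁ → At nl nr k (some (i, s')) o₂ →
    InR (V ⟨n j, J.s, kd o₁⟩ ⟨n k, s', kd o₂⟩) (cos (z i)).re (-(cos (z i)).im)

/-- The check. -/
def covV (T : Vt → Vt → Rg) (J : Vt) (V : Vt → Vt → Rg) (L : List Inst) : Bool :=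
  match J.o with
  | none => true
  | some s' => J.ok && (types J.s).all fun I => !I.ok || (types s').all fun K =>
      !(K.ok && adm J I K) || (Sb (capR (T J I) (T J.sw K)) (V I K) ||
          L.any fun x => hit x J (T I J) (T K J.sw) (capR (T J I) (T J.sw K)) (V I K))

/-- **The last step.** -/
theorem Tab.via {a : ι → ℝ} {n : ι → ℕ} {nl nr : ι → Option (ι × Bool)} {z : ι → ℂ}
    (h : Zr true a nl nr (gC a nl nr) 1 z) (hC : Ch a nl nr) (h3 : In3 a nl nr z)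
    (hn : ChT a n nl nr) {T : Vt → Vt → Rg} (hT : Tab T n nl nr z) {J : Vt} {V : Vt → Vt → Rg}
    {L : List Inst} (hL : ∀ x ∈ L, x.Ok) (hc : covV T J V L = true) : TabV J V n nl nr z := by
  intro i j k s' o₁ o₂ eo ea hi hj hk
  obtain ⟨Ja, s, Jo⟩ := J
  dsimp only at eo ea hi hj ⊢
  subst eo
  subst ea
  have hI := hn.v j i s o₁ hj
  have hK := hn.v k i s' o₂ hk
  have had := hn.d i j k s s' o₁ o₂ hi hj hk
  have hown := hT i j s (some (k, s')) o₁ hi hj
  have hown' := InR.capR hown (hT i k s' (some (j, s)) o₂ hi.sw hk)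
  have hrI := hT j i s o₁ (some (k, s')) hj hi
  have hrK := hT k i s' o₂ (some (j, s)) hk hi.sw
  unfold covV at hc
  simp only [Bool.and_eq_true] at hc
  obtain ⟨-, hc⟩ := hc
  rw [List.all_eq_true] at hc
  have h1 := hc ⟨n j, s, kd o₁⟩ (mem_types hI)
  rw [hI, Bool.not_true, Bool.false_or, List.all_eq_true] at h1
  have h4 := h1 ⟨n k, s', kd o₂⟩ (mem_types hK)
  rw [hK, had] at h4
  simp only [kd, Option.map_some, Vt.sw] at h4 hown' hrI hrK
  rw [Bool.and_true, Bool.not_true, Bool.false_or, Bool.or_eq_true, List.any_eq_true] at h4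
  rcases h4 with h4 | h4
  · exact hown'.sub h4
  obtain ⟨x, hx, hh⟩ := h4
  unfold hit at hh
  simp only [Bool.and_eq_true, Bool.or_eq_true, Nat.beq_eq, beq_iff_eq] at hh
  rcases hh with ⟨e1, ⟨e2, e3, e4, e5⟩ | ⟨e2, e3, e4, e5⟩, e7, e6⟩
  · have := h.app hC h3 (hL x hx) (i := i) (j := j) (o := some (k, s')) (by rw [e1]; exact hn.hA i)
      (by rw [e2]; exact hi) (by rw [e3]; rfl) (hown'.sub e7) (hrI.sub e4) (by
        intro j' s'' e
        rw [Option.some.injEq, Prod.mk.injEq] at e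
        rw [← e.1]
        exact hrK.sub e5)
    exact (InR.capR hown' this).sub e6
  · have es : x.s₁ = s' := by simpa using e2
    have := h.app hC h3 (hL x hx) (i := i) (j := k) (o := some (j, s)) (by rw [e1]; exact hn.hA i)
      (by rw [es]; exact hi.sw) (by rw [e3]; rfl) (hown'.sub e7) (hrK.sub e4) (by
        intro j' s'' e
        rw [Option.some.injEq, Prod.mk.injEq] at e
        rw [← e.1]
        exact hrI.sub e5)
    exact (InR.capR hown' this).sub e6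

variable {R : ℕ} {a : ℕ → ℕ} {S : ℕ → Bool}

/-- The regions by both neighbours in terms of the chain: `J` seen from the left edge. -/
theorem TabV.chainL {J : Vt} {V : Vt → Vt → Rg} {z : Fin (R + 1) → ℂ}
    (h : TabV J V (nF R a) (nlF R S) (nrF R S) z) {i : ℕ} (hi : 0 < i) (hR : i < R)
    (e : vL R a S i = J) :
    InR (V (vR a S (i - 1)) (vL R a S (i + 1))) (cos (z ⟨i, by omega⟩)).re
      (-(cos (z ⟨i, by omega⟩)).im) := by
  subst e
  have hne : ¬ (i = R) := by omega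
  have h0 : nlF R S ⟨i, by omega⟩ = some (⟨i - 1, by omega⟩, S (i - 1)) := by
    rw [nlF_iff]; exact ⟨by show i - 1 + 1 = i; omega, rfl⟩
  have h1 : nrF R S ⟨i, by omega⟩ = some (⟨i + 1, by omega⟩, S i) := by
    rw [nrF_iff]; exact ⟨rfl, rfl⟩
  have h2 : nrF R S ⟨i - 1, by omega⟩ = some (⟨i, by omega⟩, S (i - 1)) := by
    rw [nrF_iff]; exact ⟨by show i - 1 + 1 = i; omega, rfl⟩
  have h3 : nlF R S ⟨i + 1, by omega⟩ = some (⟨i, by omega⟩, S i) := by
    rw [nlF_iff]; exact ⟨rfl, rfl⟩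
  have b := h ⟨i, by omega⟩ ⟨i - 1, by omega⟩ ⟨i + 1, by omega⟩ (S i)
    (nlF R S ⟨i - 1, by omega⟩) (nrF R S ⟨i + 1, by omega⟩)
    (by unfold vL; dsimp only; rw [if_neg hne]) rfl (Or.inl ⟨h0, h1⟩) (Or.inr ⟨rfl, h2⟩)
    (Or.inl ⟨h3, rfl⟩)
  have e1 : (⟨nF R a ⟨i - 1, by omega⟩, (vL R a S i).s, kd (nlF R S ⟨i - 1, by omega⟩)⟩ : Vt) =
      vR a S (i - 1) := vR_eq (i := ⟨i - 1, by omega⟩)
  have e2 : (⟨nF R a ⟨i + 1, by omega⟩, S i, kd (nrF R S ⟨i + 1, by omega⟩)⟩ : Vt) =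
      vL R a S (i + 1) := vL_eq (i := ⟨i + 1, by omega⟩)
  rw [e1, e2] at b
  exact b

/-- The same, `J` seen from the right edge. -/
theorem TabV.chainR {J : Vt} {V : Vt → Vt → Rg} {z : Fin (R + 1) → ℂ}
    (h : TabV J V (nF R a) (nlF R S) (nrF R S) z) {i : ℕ} (hi : 0 < i) (hR : i < R)
    (e : vR a S i = J) :
    InR (V (vL R a S (i + 1)) (vR a S (i - 1))) (cos (z ⟨i, by omega⟩)).re
      (-(cos (z ⟨i, by omega⟩)).im) := by
  subst e
  have hne : ¬ (i = 0) := by omega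
  have h0 : nlF R S ⟨i, by omega⟩ = some (⟨i - 1, by omega⟩, S (i - 1)) := by
    rw [nlF_iff]; exact ⟨by show i - 1 + 1 = i; omega, rfl⟩
  have h1 : nrF R S ⟨i, by omega⟩ = some (⟨i + 1, by omega⟩, S i) := by
    rw [nrF_iff]; exact ⟨rfl, rfl⟩
  have h2 : nrF R S ⟨i - 1, by omega⟩ = some (⟨i, by omega⟩, S (i - 1)) := by
    rw [nrF_iff]; exact ⟨by show i - 1 + 1 = i; omega, rfl⟩
  have h3 : nlF R S ⟨i + 1, by omega⟩ = some (⟨i, by omega⟩, S i) := by
    rw [nlF_iff]; exact ⟨rfl, rfl⟩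
  have b := h ⟨i, by omega⟩ ⟨i + 1, by omega⟩ ⟨i - 1, by omega⟩ (S (i - 1))
    (nrF R S ⟨i + 1, by omega⟩) (nlF R S ⟨i - 1, by omega⟩)
    (by unfold vR; dsimp only; rw [if_neg hne]) rfl (Or.inr ⟨h0, h1⟩) (Or.inl ⟨h3, rfl⟩)
    (Or.inr ⟨rfl, h2⟩)
  have e1 : (⟨nF R a ⟨i - 1, by omega⟩, S (i - 1), kd (nlF R S ⟨i - 1, by omega⟩)⟩ : Vt) =
      vR a S (i - 1) := vR_eq (i := ⟨i - 1, by omega⟩)
  have e2 : (⟨nF R a ⟨i + 1, by omega⟩, (vR a S i).s, kd (nrF R S ⟨i + 1, by omega⟩)⟩ : Vt) =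
      vL R a S (i + 1) := vL_eq (i := ⟨i + 1, by omega⟩)
  rw [e1, e2] at b
  exact b

end Pool.Agent.S5.E
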