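import Pool.Agent.S5.E.T.StepE
import Pool.Agent.S5.E.T.Via

/-!
# Mixed chains, block E: the regions by both neighbours, a fast check
-/

set_option autoImplicit false

namespace Pool.Agent.S5.E

open Complex
open Pool.Agent.S5.E.B2

attribute [local irreducible] geB ge2 ge3 pk ent rgP

/-- The regions by both neighbours, packed into a number. -/
def vP (V : ℕ) (I K : Vt) : Rg := rgP (ent V (Nat.add (Nat.mul 21 I.ix) K.ix))

/-- One neighbour `I` of the vertex `J`, all neighbours `K` on the other side. -/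
noncomputable def cV (A B V : ℕ) (J : Vt) (s' : Bool) (jx jy : ℕ) (LJ : List Q5) (I : Vt) : Bool :=
  oR (!I.ok) (fc (I.ix) fun ix => fc (ent A (Nat.add (Nat.mul 21 jx) ix)) fun own =>
    fc (ent A (Nat.add (Nat.mul 21 ix) jx)) fun rI =>
    foldC (stI rI) LJ [] fun LI =>
      allR (fun K => oR (fc (K.ix) fun kx =>
        fc (ent V (Nat.add (Nat.mul 21 ix) kx)) fun t =>
        fc (ent B (Nat.add (Nat.mul 21 jy) kx)) fun own' =>
        fc (ent B (Nat.add (Nat.mul 21 kx) jy)) fun rK =>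
        oR (anyR (fun q => an (geB rK q.r₂) (an (ge2 own own' q.own) (ge3 own own' q.out t))) LI)
          (ge2 own own' t))
        (!(K.ok && adm J I K))) (types s'))

/-- The fast check. -/
noncomputable def covVF (A S V : ℕ) (J : Vt) (L : List Inst) : Bool :=
  foldC stQ L [] fun L' => match J.o with
    | none => true
    | some s' => an J.ok (fc (vcode J) fun c => fc (vcode J.sw) fun d =>
        foldC (stJ c d) L' [] fun LJ => fc J.ix fun jx => fc J.sw.ix fun jy =>
        allR (cV (bif J.s then S else A) (bif s' then S else A) V J s' jx jy LJ) (types J.s))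

theorem cV_sound {A S V : ℕ} {L : List Inst} {L' LJ : List Q5}
    (hL : ∀ q ∈ L', ∃ x ∈ L, RQ x q) {J I : Vt} {s' : Bool} (hJ : J.o = some s') (hs : I.s = J.s)
    (hLJ : ∀ p ∈ LJ, ∃ q ∈ L', RJ (vcode J) (vcode J.sw) q p) (hI : I.ok = true)
    (h : cV (bif J.s then S else A) (bif s' then S else A) V J s' J.ix J.sw.ix LJ I = true) :
    ∀ K ∈ types s', (K.ok && adm J I K) = true →
      Sb (capR (tabP A S J I) (tabP A S J.sw K)) (vP V I K) = true ∨
      ∃ x ∈ L, hit x J (tabP A S I J) (tabP A S K J.sw) (capR (tabP A S J I) (tabP A S J.sw K))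
        (vP V I K) = true := by
  have hsw : J.sw.s = s' := by
    obtain ⟨a, s, o⟩ := J
    dsimp only at hJ
    subst hJ
    rfl
  unfold cV at h
  rw [hI, oR_eq, fc_eq, fc_eq, fc_eq] at h
  unfold tabP vP
  rw [hs, hsw]
  rcases h with h | h
  · exact absurd h (by simp)
  · intro K hK hKa
    rw [mem_types_s hK]
    obtain ⟨LI, h1, h2⟩ := foldC_sound (R := fun q p => p = q ∧ geB _ q.r₁ = true)
      (fun q acc k hk => stI_sound _ q acc k hk) LJ [] _ h
    rw [allR_iff] at h2
    have h3 := h2 K hK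
    rw [hKa, oR_eq, fc_eq, fc_eq, fc_eq, fc_eq, oR_eq, anyR_iff] at h3
    rcases h3 with (⟨p, hp, h3⟩ | h3) | h3
    · rw [an_eq, an_eq] at h3
      obtain ⟨g1, g2, g3⟩ := h3
      rcases h1 p hp with h1 | ⟨q, hq, rfl, h1⟩
      · exact absurd h1 (by simp)
      · obtain ⟨r, hr, hr'⟩ := hLJ p hq
        obtain ⟨x, hx, hxq⟩ := hL r hr
        exact Or.inr ⟨x, hx, hit_of (wf_ent _ _) (wf_ent _ _) (wf_ent _ _) (wf_ent _ _)
          (wf_ent _ _) hxq hr' hJ h1 g1 g2 g3⟩
    · exact Or.inl (ge2_sound (wf_ent _ _) (wf_ent _ _) (wf_ent _ _) h3)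
    · exact absurd h3 (by simp)

theorem covVF_sound {A S V : ℕ} {J : Vt} {L : List Inst} (h : covVF A S V J L = true) :
    covV (tabP A S) J (vP V) L = true := by
  unfold covVF at h
  obtain ⟨L', h1, h3⟩ := foldC_sound (R := RQ) stQ_sound L [] _ h
  have hL : ∀ q ∈ L', ∃ x ∈ L, RQ x q := by
    intro q hq
    rcases h1 q hq with h4 | h4
    · exact absurd h4 (by simp)
    · exact h4
  obtain ⟨a, s, o⟩ := J
  unfold covV
  rcases o with _ | s'
  · rfl
  · dsimp only at h3 ⊢
    rw [an_eq, fc_eq, fc_eq] at h3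
    obtain ⟨h0, h3⟩ := h3
    obtain ⟨LJ, h4, h5⟩ := foldC_sound (R := RJ _ _) (stJ_sound _ _) L' [] _ h3
    rw [fc_eq, fc_eq, allR_iff] at h5
    rw [h0, Bool.true_and, List.all_eq_true]
    intro I hIt
    rw [Bool.or_eq_true]
    cases hIo : I.ok
    · exact Or.inl rfl
    right
    have h6 := h5 I hIt
    have hLJ : ∀ p ∈ LJ, ∃ q ∈ L', RJ (vcode ⟨a, s, some s'⟩) (vcode (Vt.sw ⟨a, s, some s'⟩)) q p := by
      intro p hp
      rcases h4 p hp with h7 | h7
      · exact absurd h7 (by simp)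
      · exact h7
    have h7 := cV_sound hL rfl (mem_types_s hIt) hLJ hIo h6
    rw [List.all_eq_true]
    intro K hK
    rw [Bool.or_eq_true]
    cases hKa : (K.ok && adm ⟨a, s, some s'⟩ I K)
    · exact Or.inl rfl
    · right
      rw [Bool.or_eq_true, List.any_eq_true]
      exact h7 K hK hKa

variable {ι : Type*}

/-- `V'` is weaker than `V`. -/
def convV (J : Vt) (V V' : Vt → Vt → Rg) : Bool :=
  match J.o with
  | none => true
  | some s' => (types J.s).all fun I => !I.ok || (types s').all fun K =>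
      !(K.ok && adm J I K) || Sb (V I K) (V' I K)

theorem TabV.conv {a : ι → ℝ} {n : ι → ℕ} {nl nr : ι → Option (ι × Bool)} {z : ι → ℂ}
    (hn : ChT a n nl nr) {J : Vt} {V V' : Vt → Vt → Rg} (hT : TabV J V n nl nr z)
    (hc : convV J V V' = true) : TabV J V' n nl nr z := by
  intro i j k s' o₁ o₂ eo ea hi hj hk
  obtain ⟨Ja, s, Jo⟩ := J
  dsimp only at eo ea hi hj ⊢
  subst eo
  subst ea
  have hI := hn.v j i s o₁ hj
  have hK := hn.v k i s' o₂ hk
  have had := hn.d i j k s s' o₁ o₂ hi hj hk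
  unfold convV at hc
  simp only [List.all_eq_true] at hc
  have h1 := hc ⟨n j, s, kd o₁⟩ (mem_types hI)
  rw [hI, Bool.not_true, Bool.false_or, List.all_eq_true] at h1
  have h4 := h1 ⟨n k, s', kd o₂⟩ (mem_types hK)
  rw [hK, had, Bool.and_true, Bool.not_true, Bool.false_or] at h4
  exact (hT i j k s' o₁ o₂ rfl rfl hi hj hk).sub h4

end Pool.Agent.S5.E
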