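import Pool.Agent.S5.E.T.CovV
import Pool.Agent.S5.E.T.W
import Pool.Agent.S5.E.T.DVA
import Pool.Agent.S5.E.T.DVS

/-!
# Mixed chains, block E: the regions by both neighbours, the checks
-/

set_option autoImplicit false

namespace Pool.Agent.S5.E

open Pool.Agent.S5.E.B2

set_option maxRecDepth 100000 in
theorem covVA : covVF wA9 wS9 wVA ⟨2, false, some false⟩ LVA = true := by decide +kernel

set_option maxRecDepth 100000 in
theorem covVS : covVF wA9 wS9 wVS ⟨2, false, some true⟩ LVS = true := by decide +kernel

end Pool.Agent.S5.E
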