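import Pool.Agent.S5.E.Defs
import Pool.Agent.S5.E.B2.Regs

/-!
# Mixed chains, block E: the tables of boxes, definitions

`Vt`: a vertex seen from one of its slots.  An instance `Inst` is the statement that a vertex with the
given number of half twists and the given kinds of slots whose neighbours are in the regions `r₁`,
`r₂` and which is itself in `own` is in the region `out` (`Inst.Ok`).  All regions are `k0 ≤ |κ| ≤ k1`, `t0 ≤ tan φ ≤ t1` for
`κ = |κ| exp (- i φ)`, in units of `1 / 1000`.
-/

set_option autoImplicit false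

namespace Pool.Agent.S5.E

open Real
open Pool.Agent.S5.E.B2

/-- A vertex seen from one of its slots: the number of the half twists (`8`: eight or more), the kind
of the slot (`true`: `S`), and the kind of the other slot (`none`: end of the chain). -/
structure Vt where
  a : ℕ
  s : Bool
  o : Option Bool
  deriving DecidableEq

/-- The same vertex seen from the other slot. -/
def Vt.sw (J : Vt) : Vt :=
  match J.o with
  | none => J
  | some t => ⟨J.a, t, some J.s⟩

/-- An instance. -/
structure Inst where
  a : ℕ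
  s₁ : Bool
  s₂ : Option Bool
  r₁ : Rg
  r₂ : Rg
  own : Rg
  out : Rg

/-- `8` stands for eight or more. -/
def HasA (n : ℕ) (a : ℝ) : Prop := if n = 8 then ∃ k : ℕ, 8 ≤ k ∧ a = k else a = n

/-- The sign of a slot (`1` for a missing one). -/
def sgO (s : Option Bool) : ℝ :=
  match s with
  | none => 1
  | some t => sg t

/-- The neighbour of a slot is in the region `r`; the slot is `b = ρ exp (± i φ)`. -/
def InP (s : Option Bool) (r : Rg) (ρ φ : ℝ) : Prop :=
  match s with
  | none => ρ = 0 ∧ φ = 0
  | some _ => 0 < ρ ∧ 0 < φ ∧ φ < π / 2 ∧ InR r (ρ * cos φ) (ρ * sin φ)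

/-- The statement of an instance with three or more half twists. -/
def Inst.Ok3 (x : Inst) : Prop :=
  ∀ a R I ρ₁ φ₁ p₁ r₁ ρ₂ φ₂ p₂ r₂ : ℝ,
    Vx a R I ρ₁ (sg x.s₁ * φ₁) p₁ r₁ ρ₂ (sgO x.s₂ * φ₂) p₂ r₂ → HasA x.a a →
    InP (some x.s₁) x.r₁ ρ₁ φ₁ → InP x.s₂ x.r₂ ρ₂ φ₂ →
    InR x.own (cos R * cosh I) (sin R * sinh I) →
    InR x.out (cos R * cosh I) (sin R * sinh I)

/-- The crude region of a vertex with two half twists. -/
def rOwn : Rg := ⟨490, 1100, 0, 1040, 0⟩

/-- The statement of an instance with two half twists and two slots (`s₁ = false`). -/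
def Inst.Ok2 (x : Inst) (s : Bool) : Prop :=
  Imp s x.r₁ x.r₂ (fun u v => InR x.own u v → InR x.out u v)

end Pool.Agent.S5.E
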