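import Pool.Agent.S5.E.T.CovV

/-!
# Mixed chains, block E: the regions of the end neighbours, by the neighbour on the other side

`TabW J W z`: if `i` is a vertex of the type `J` with the neighbours `j` and `k`, and `k` is an end of
the chain, then `k` is in the region `W (type of j) (type of k)`.
-/

set_option autoImplicit false

namespace Pool.Agent.S5.E

open Complex
open Pool.Agent.S5.E.B2

variable {ι : Type*}

/-- The regions of the end neighbours of the vertices of the type `J`, by the other neighbour. -/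
def TabW (J : Vt) (W : Vt → Vt → Rg) (n : ι → ℕ) (nl nr : ι → Option (ι × Bool)) (z : ι → ℂ) :
    Prop :=
  ∀ i j k s' o₁, J.o = some s' → n i = J.a → At nl nr i (some (j, J.s)) (some (k, s')) →
    At nl nr j (some (i, J.s)) o₁ → At nl nr k (some (i, s')) none →
    InR (W ⟨n j, J.s, kd o₁⟩ ⟨n k, s', none⟩) (cos (z k)).re (-(cos (z k)).im)

/-- The check. -/
def covW (T : Vt → Vt → Rg) (J : Vt) (V W : Vt → Vt → Rg) (L : List Inst) : Bool :=
  match J.o with
  | none => true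
  | some s' => J.ok && (types J.s).all fun I => !I.ok || (types s').all fun K =>
      !(K.ok && (K.o == none && adm J I K)) || (Sb (T K J.sw) (W I K) ||
          L.any fun x => hit0 x K (V I K) (T K J.sw) (W I K))

theorem TabV.sw {J : Vt} {V : Vt → Vt → Rg} {n : ι → ℕ} {nl nr : ι → Option (ι × Bool)} {z : ι → ℂ}
    (h : TabV J V n nl nr z) : TabV J.sw (fun I K => V K I) n nl nr z := by
  intro i j k s' o₁ o₂ eo ea hi hj hk
  obtain ⟨a, s, o⟩ := J
  cases o with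
  | none => simp [Vt.sw] at eo
  | some t =>
    simp only [Vt.sw] at eo ea hi hj ⊢
    obtain rfl : s = s' := by simpa using eo
    exact h i k j t o₂ o₁ rfl ea hi.sw hk hj

/-- **The regions of the end neighbours.** -/
theorem TabV.endW {a : ι → ℝ} {n : ι → ℕ} {nl nr : ι → Option (ι × Bool)} {z : ι → ℂ}
    (h : Zr true a nl nr (gC a nl nr) 1 z) (hC : Ch a nl nr) (h3 : In3 a nl nr z)
    (hn : ChT a n nl nr) {T : Vt → Vt → Rg} (hT : Tab T n nl nr z) {J : Vt} {V W : Vt → Vt → Rg}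
    (hV : TabV J V n nl nr z) {L : List Inst} (hL : ∀ x ∈ L, x.Ok) (hc : covW T J V W L = true) :
    TabW J W n nl nr z := by
  intro i j k s' o₁ eo ea hi hj hk
  obtain ⟨Ja, s, Jo⟩ := J
  dsimp only at eo ea hi hj ⊢
  subst eo
  subst ea
  have hI := hn.v j i s o₁ hj
  have hK := hn.v k i s' none hk
  have had := hn.d i j k s s' o₁ none hi hj hk
  have hown := hT k i s' none (some (j, s)) hk hi.sw
  have hrI := hV i j k s' o₁ none rfl rfl hi hj hk
  unfold covW at hc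
  simp only [Bool.and_eq_true] at hc
  obtain ⟨-, hc⟩ := hc
  rw [List.all_eq_true] at hc
  have h1 := hc ⟨n j, s, kd o₁⟩ (mem_types hI)
  rw [hI, Bool.not_true, Bool.false_or, List.all_eq_true] at h1
  have h4 := h1 ⟨n k, s', none⟩ (mem_types hK)
  simp only [kd, Option.map_none, Option.map_some] at hK had hown hrI h4
  rw [hK, had] at h4
  simp only [beq_self_eq_true, Bool.and_self, Bool.not_true, Bool.false_or, Bool.or_eq_true,
    List.any_eq_true, Vt.sw] at h4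
  rcases h4 with h4 | ⟨x, hx, hh⟩
  · exact hown.sub h4
  · unfold hit0 at hh
    simp only [Bool.and_eq_true, Nat.beq_eq, beq_iff_eq] at hh
    obtain ⟨e1, ⟨e2, e3, e4⟩, e7, e5⟩ := hh
    have := h.app hC h3 (hL x hx) (i := k) (j := i) (o := none) (by rw [e1]; exact hn.hA k)
      (by rw [e2]; exact hk) (by rw [e3]; rfl) (hown.sub e7) (hrI.sub e4)
      (by intro j' s' e; simp at e)
    exact (InR.capR hown this).sub e5

variable {R : ℕ} {a : ℕ → ℕ} {S : ℕ → Bool}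

/-- In terms of the chain: the end on the right; `J` is seen from the left edge. -/
theorem TabW.chainL {J : Vt} {W : Vt → Vt → Rg} {z : Fin (R + 1) → ℂ}
    (h : TabW J W (nF R a) (nlF R S) (nrF R S) z) {i : ℕ} (hi : 0 < i) (hR : i + 1 = R)
    (e : vL R a S i = J) :
    InR (W (vR a S (i - 1)) (vL R a S (i + 1))) (cos (z ⟨i + 1, by omega⟩)).re
      (-(cos (z ⟨i + 1, by omega⟩)).im) := by
  subst e
  have hne : ¬ (i = R) := by omega
  have h0 : nlF R S ⟨i, by omega⟩ = some (⟨i - 1, by omega⟩, S (i - 1)) := by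
    rw [nlF_iff]; exact ⟨by show i - 1 + 1 = i; omega, rfl⟩
  have h1 : nrF R S ⟨i, by omega⟩ = some (⟨i + 1, by omega⟩, S i) := by
    rw [nrF_iff]; exact ⟨rfl, rfl⟩
  have h2 : nrF R S ⟨i - 1, by omega⟩ = some (⟨i, by omega⟩, S (i - 1)) := by
    rw [nrF_iff]; exact ⟨by show i - 1 + 1 = i; omega, rfl⟩
  have h3 : nlF R S ⟨i + 1, by omega⟩ = some (⟨i, by omega⟩, S i) := by
    rw [nlF_iff]; exact ⟨rfl, rfl⟩
  have h5 : nrF R S ⟨i + 1, by omega⟩ = none := nrF_none.2 hR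
  have b := h ⟨i, by omega⟩ ⟨i - 1, by omega⟩ ⟨i + 1, by omega⟩ (S i)
    (nlF R S ⟨i - 1, by omega⟩)
    (by unfold vL; dsimp only; rw [if_neg hne]) rfl (Or.inl ⟨h0, h1⟩) (Or.inr ⟨rfl, h2⟩)
    (Or.inl ⟨h3, h5⟩)
  have e1 : (⟨nF R a ⟨i - 1, by omega⟩, (vL R a S i).s, kd (nlF R S ⟨i - 1, by omega⟩)⟩ : Vt) =
      vR a S (i - 1) := vR_eq (i := ⟨i - 1, by omega⟩)
  have e2 : (⟨nF R a ⟨i + 1, by omega⟩, S i, none⟩ : Vt) = vL R a S (i + 1) := by
    have := vL_eq (R := R) (a := a) (S := S) (i := ⟨i + 1, by omega⟩)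
    rw [h5] at this
    exact this
  rw [e1, e2] at b
  exact b

/-- The end on the left; `J` is seen from the right edge. -/
theorem TabW.chainR {J : Vt} {W : Vt → Vt → Rg} {z : Fin (R + 1) → ℂ}
    (h : TabW J W (nF R a) (nlF R S) (nrF R S) z) (hR : 1 < R) (e : vR a S 1 = J) :
    InR (W (vL R a S 2) (vR a S 0)) (cos (z ⟨0, by omega⟩)).re
      (-(cos (z ⟨0, by omega⟩)).im) := by
  subst e
  have h0 : nlF R S ⟨1, by omega⟩ = some (⟨0, by omega⟩, S 0) := by
    rw [nlF_iff]; exact ⟨rfl, rfl⟩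
  have h1 : nrF R S ⟨1, by omega⟩ = some (⟨2, by omega⟩, S 1) := by
    rw [nrF_iff]; exact ⟨rfl, rfl⟩
  have h2 : nrF R S ⟨0, by omega⟩ = some (⟨1, by omega⟩, S 0) := by
    rw [nrF_iff]; exact ⟨rfl, rfl⟩
  have h3 : nlF R S ⟨2, by omega⟩ = some (⟨1, by omega⟩, S 1) := by
    rw [nlF_iff]; exact ⟨rfl, rfl⟩
  have h5 : nlF R S ⟨0, by omega⟩ = none := nlF_none.2 rfl
  have b := h ⟨1, by omega⟩ ⟨2, by omega⟩ ⟨0, by omega⟩ (S 0) (nrF R S ⟨2, by omega⟩)
    rfl rfl (Or.inr ⟨h0, h1⟩) (Or.inl ⟨h3, rfl⟩) (Or.inr ⟨h5, h2⟩)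
  have e1 : (⟨nF R a ⟨2, by omega⟩, (vR a S 1).s, kd (nrF R S ⟨2, by omega⟩)⟩ : Vt) =
      vL R a S 2 := vL_eq (i := ⟨2, by omega⟩)
  have e2 : (⟨nF R a ⟨0, by omega⟩, S 0, none⟩ : Vt) = vR a S 0 := by
    have := vR_eq (R := R) (a := a) (S := S) (i := ⟨0, by omega⟩)
    rw [h5] at this
    exact this
  rw [e1, e2] at b
  exact b

end Pool.Agent.S5.E
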