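import Pool.Agent.S5.E.T.D1

/-!
# Mixed chains, block E: the tables of boxes, runs of the half round 1
-/

set_option autoImplicit false

namespace Pool.Agent.S5.E

open Pool.Agent.S5.E.B2

set_option maxRecDepth 100000 in
theorem L1S_ok : chkLP 60 true L1S = true := by decide +kernel

set_option maxRecDepth 100000 in
theorem L1A_ok : chkLP 60 false L1A = true := by decide +kernel

set_option maxRecDepth 100000 in
theorem L1E_ok : chkE L1E = true := by decide +kernel

theorem L1_ok : ∀ x ∈ L1, x.Ok := by
  intro x hx
  unfold L1 at hx
  rw [List.mem_append, List.mem_append] at hx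
  rcases hx with hx | hx | hx
  · exact chkLP_sound L1S_ok x hx
  · exact chkLP_sound L1A_ok x hx
  · exact chkE_sound L1E_ok x hx

end Pool.Agent.S5.E
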