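import Pool.Agent.S5.E.T.D2

/-!
# Mixed chains, block E: the tables of boxes, runs of the half round 2
-/

set_option autoImplicit false

namespace Pool.Agent.S5.E

open Pool.Agent.S5.E.B2

set_option maxRecDepth 100000 in
theorem L2S_ok : chkLP 60 true L2S = true := by decide +kernel

set_option maxRecDepth 100000 in
theorem L2A_ok : chkLP 60 false L2A = true := by decide +kernel

set_option maxRecDepth 100000 in
theorem L2E_ok : chkE L2E = true := by decide +kernel

theorem L2_ok : ∀ x ∈ L2, x.Ok := by
  intro x hx
  unfold L2 at hx
  rw [List.mem_append, List.mem_append] at hx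
  rcases hx with hx | hx | hx
  · exact chkLP_sound L2S_ok x hx
  · exact chkLP_sound L2A_ok x hx
  · exact chkE_sound L2E_ok x hx

end Pool.Agent.S5.E
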