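import Pool.Agent.S5.E.T.DVA

/-!
# Mixed chains, block E: the regions by both neighbours, runs for the kind `A`
-/

set_option autoImplicit false

namespace Pool.Agent.S5.E

open Pool.Agent.S5.E.B2

set_option maxRecDepth 100000 in
theorem LVAD_ok : chkLP 60 false LVAD = true := by decide +kernel

theorem LVA_ok : ∀ x ∈ LVA, x.Ok := chkLP_sound LVAD_ok

end Pool.Agent.S5.E
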