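import Pool.Agent.S5.E.T.TabF
import Pool.Agent.S5.E.T.Cv
import Pool.Agent.S5.E.T.RVA
import Pool.Agent.S5.E.T.RVS

/-!
# Mixed chains, block E: the regions by both neighbours, from the final table
-/

set_option autoImplicit false

namespace Pool.Agent.S5.E

open Complex
open Pool.Agent.S5.E.B2

set_option maxRecDepth 100000 in
theorem conv_fin : conv Tfin (tabP wA9 wS9) = true := by decide +kernel

set_option maxRecDepth 100000 in
theorem conv_fin' : conv (tabP wA9 wS9) Tfin = true := by decide +kernel

set_option maxRecDepth 100000 in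
theorem convV_S : convV ⟨2, false, some true⟩ (vP wVS) V9S = true := by decide +kernel

set_option maxRecDepth 100000 in
theorem convV_A : convV ⟨2, false, some false⟩ (vP wVA) V9A = true := by decide +kernel

variable {ι : Type*} {a : ι → ℝ} {n : ι → ℕ} {nl nr : ι → Option (ι × Bool)} {z : ι → ℂ}

/-- The table of the special vertices, by both neighbours. -/
theorem tabV_S (h : Zr true a nl nr (gC a nl nr) 1 z) (hC : Ch a nl nr) (h3 : In3 a nl nr z)
    (hn : ChT a n nl nr) (hT : Tab Tfin n nl nr z) :
    TabV ⟨2, false, some true⟩ V9S n nl nr z :=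
  ((hT.conv hn conv_fin).via h hC h3 hn LVS_ok (covVF_sound covVS)).conv hn convV_S

/-- The table of the vertices with two half twists and two `A` edges, by both neighbours. -/
theorem tabV_A (h : Zr true a nl nr (gC a nl nr) 1 z) (hC : Ch a nl nr) (h3 : In3 a nl nr z)
    (hn : ChT a n nl nr) (hT : Tab Tfin n nl nr z) :
    TabV ⟨2, false, some false⟩ V9A n nl nr z :=
  ((hT.conv hn conv_fin).via h hC h3 hn LVA_ok (covVF_sound covVA)).conv hn convV_A

end Pool.Agent.S5.E
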