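import Pool.Agent.S5.E.T.Ca
import Pool.Agent.S5.E.T.Cb
import Pool.Agent.S5.E.T.C0
import Pool.Agent.S5.E.T.C3
import Pool.Agent.S5.E.T.C6
import Pool.Agent.S5.E.T.R1
import Pool.Agent.S5.E.T.R2
import Pool.Agent.S5.E.T.R4
import Pool.Agent.S5.E.T.R5
import Pool.Agent.S5.E.T.R7
import Pool.Agent.S5.E.T.R8
import Pool.Agent.S5.E.T.Arg
import Pool.Agent.S5.E.T.VFin
import Pool.Agent.S5.E.X3.OL0
import Pool.Agent.S5.E.X3.OL3
import Pool.Agent.S5.E.X3.OL6
import Pool.Agent.S5.E.VX.NK0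
import Pool.Agent.S5.E.VX.NK3
import Pool.Agent.S5.E.Str3

/-!
# Mixed chains, block E: the final table
-/

set_option autoImplicit false

namespace Pool.Agent.S5.E

open Complex
open Pool.Agent.S5.E.B2

set_option maxRecDepth 100000 in
theorem conv0 : conv T0 (tabP wA0 wS0) = true := by decide +kernel

set_option maxRecDepth 100000 in
theorem argC_fin : argC Tfin = true := by decide +kernel

section gen

variable {ι : Type*} {a : ι → ℝ} {n : ι → ℕ} {nl nr : ι → Option (ι × Bool)} {z : ι → ℂ}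

/-- **The final table of regions.** -/
theorem Zr.tab_fin (h : Zr true a nl nr (gC a nl nr) 1 z) (hC : Ch a nl nr) (h3 : In3 a nl nr z)
    (hn : ChT a n nl nr) : Tab Tfin n nl nr z := by
  have t0 : Tab (tabP wA0 wS0) n nl nr z := (h.tab0 hC h3 hn).conv hn conv0
  have t1 := t0.stepP h hC h3 hn (L := X3.L0.I ++ VX.NL0) (fun x hx => by
    rcases List.mem_append.1 hx with hx | hx
    · exact X3.L0.ok x hx
    · exact VX.NL0_ok x hx) cov0
  have t2 := t1.stepP h hC h3 hn L1_ok cov1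
  have t3 := t2.stepP h hC h3 hn L2_ok cov2
  have t4 := t3.stepP h hC h3 hn (L := X3.L3.I ++ VX.NL3) (fun x hx => by
    rcases List.mem_append.1 hx with hx | hx
    · exact X3.L3.ok x hx
    · exact VX.NL3_ok x hx) cov3
  have t5 := t4.stepP h hC h3 hn L4_ok cov4
  have t6 := t5.stepP h hC h3 hn L5_ok cov5
  have t7 := t6.stepP h hC h3 hn X3.L6.ok cov6
  have t8 := t7.stepP h hC h3 hn L7_ok cov7
  have t9 := t8.stepP h hC h3 hn L8_ok cov8
  exact t9.conv hn conv_fin'

end gen

section chain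

variable {R : ℕ} {a : ℕ → ℕ} {S : ℕ → Bool}

/-- The final table for an admissible chain. -/
theorem tab_adm (h : AdmS R a S) (z : Fin (R + 1) → ℂ)
    (hz : Zr true (aF R a) (nlF R S) (nrF R S) (gC (aF R a) (nlF R S) (nrF R S)) 1 z) :
    Tab Tfin (nF R a) (nlF R S) (nrF R S) z := by
  have hC := ch_of_adm h.toAdm
  exact hz.tab_fin hC (hz.in3 hC fun _ hi => aF_cases hi) (chT_of_adm h)

/-- The arguments at the vertices with two half twists. -/
theorem arg_adm (h : AdmS R a S) (z : Fin (R + 1) → ℂ)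
    (hz : Zr true (aF R a) (nlF R S) (nrF R S) (gC (aF R a) (nlF R S) (nrF R S)) 1 z)
    (i : Fin (R + 1)) (hi : aF R a i = 2) : -(cos (z i)).im < (cos (z i)).re :=
  hz.arg_of (ch_of_adm h.toAdm) (chT_of_adm h) (tab_adm h z hz) argC_fin i hi

end chain

end Pool.Agent.S5.E
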