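import Pool.Agent.S5.E.T.ViaN
import Pool.Agent.S5.E.T.F4
import Pool.Agent.S5.E.T.Fin
import Pool.Agent.S5.E.X3.R4T_0

/-!
# Mixed chains, block E: the regions at some vertices with four half twists

The vertices with four half twists between `2AS`, `2AA`, `2A0` (`A` edge) and `2SA` (`S` edge), and
between two end vertices `2A0`: `M4 J me K` is the region of `me` between `J` and `K`, `N4 J me K` the
region of `J`. All other regions are those of the final table.
-/

set_option autoImplicit false

namespace Pool.Agent.S5.E

open Complex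
open Pool.Agent.S5.E.B2

/-- The region of `4AS` between `I` (through the `A` slot) and `K`. -/
def V4S (I K : Vt) : Rg :=
  bif Nat.beq I.a 2 && Nat.beq K.a 2 then
    match I.o with
    | some true => ⟨826, 862, 163, 207, 0⟩
    | some false => ⟨815, 863, 171, 226, 0⟩
    | none => ⟨797, 828, 157, 194, 0⟩
  else Tfin ⟨4, false, some true⟩ I

/-- The region of `I`. -/
def N4A (I K : Vt) : Rg :=
  bif Nat.beq I.a 2 && Nat.beq K.a 2 then
    match I.o with
    | some true => ⟨862, 950, 541, 680, 0⟩
    | some false => ⟨763, 943, 370, 579, 0⟩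
    | none => ⟨631, 644, 824, 856, 0⟩
  else Tfin I ⟨4, false, some true⟩

/-- The region of `K` (first argument). -/
def N4S (K I : Vt) : Rg :=
  bif Nat.beq I.a 2 && Nat.beq K.a 2 then
    match I.o with
    | some true => ⟨775, 936, 426, 683, 0⟩
    | some false => ⟨772, 937, 427, 690, 0⟩
    | none => ⟨768, 926, 426, 680, 0⟩
  else Tfin K ⟨4, true, some false⟩

/-- The region of `4AA` between `I` and `K`. -/
def V4A (I K : Vt) : Rg :=
  bif (Nat.beq I.a 2 && I.o == none) && (Nat.beq K.a 2 && K.o == none) then
    ⟨832, 840, 83, 92, 0⟩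
  else Tfin ⟨4, false, some false⟩ I

/-- The region of `I`. -/
def N4AA (I K : Vt) : Rg :=
  bif (Nat.beq I.a 2 && I.o == none) && (Nat.beq K.a 2 && K.o == none) then
    ⟨644, 649, 912, 921, 0⟩
  else Tfin I ⟨4, false, some false⟩

/-- The instances. -/
def LF4 : List Inst := F4 ++ X3.R4T.I0

theorem LF4_ok : ∀ x ∈ LF4, x.Ok := by
  have h : (X3.R4T.I0.all fun x => Nat.ble 3 x.a) = true := by decide +kernel
  intro x hx
  unfold LF4 at hx
  rw [List.mem_append] at hx
  rcases hx with hx | hx
  · exact F4_ok x hx
  · rw [List.all_eq_true] at h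
    have h4 := h x hx
    rw [Nat.ble_eq] at h4
    unfold Inst.Ok
    rw [if_neg (by omega)]
    exact ⟨h4, X3.R4T.ok0 x hx⟩

set_option maxRecDepth 100000 in
theorem cv4S : covV Tfin ⟨4, false, some true⟩ V4S LF4 = true := by decide +kernel

set_option maxRecDepth 100000 in
theorem cv4A : covV Tfin ⟨4, false, some false⟩ V4A LF4 = true := by decide +kernel

set_option maxRecDepth 100000 in
theorem cn4A : covNb Tfin ⟨4, false, some true⟩ V4S N4A LF4 = true := by decide +kernel

set_option maxRecDepth 100000 in
theorem cn4S : covNb Tfin ⟨4, true, some false⟩ (fun K I => V4S I K) N4S LF4 = true := by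
  decide +kernel

set_option maxRecDepth 100000 in
theorem cn4AA : covNb Tfin ⟨4, false, some false⟩ V4A N4AA LF4 = true := by decide +kernel

end Pool.Agent.S5.E
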