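import Pool.Agent.S5.E.T.N4

/-!
# Mixed chains, block E: the regions at some vertices with four half twists

`M4 J me K`: the region of the vertex `me` with four half twists between `J` and `K` (`me` seen from
`J`); `N4 J me K`: the region of `J`.
-/

set_option autoImplicit false

namespace Pool.Agent.S5.E

open Complex
open Pool.Agent.S5.E.B2

/-- The region of `me`. -/
def M4 (J me K : Vt) : Rg :=
  bif me.s then (bif me.o == some false then V4S K J else Tfin me J)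
  else (bif me.o == some true then V4S J K else V4A J K)

/-- The region of `J`. -/
def N4 (J me K : Vt) : Rg :=
  bif me.s then (bif me.o == some false then N4S J K else Tfin J me)
  else (bif me.o == some true then N4A J K else N4AA J K)

section gen

variable {ι : Type*} {a : ι → ℝ} {n : ι → ℕ} {nl nr : ι → Option (ι × Bool)} {z : ι → ℂ}

/-- The regions at the vertices with four half twists. -/
theorem Zr.tab4 (h : Zr true a nl nr (gC a nl nr) 1 z) (hC : Ch a nl nr)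
    (h3 : In3 a nl nr z) (hn : ChT a n nl nr) {i j k : ι} {s s' : Bool}
    {o₁ o₂ : Option (ι × Bool)} (hi : n i = 4) (hij : At nl nr i (some (j, s)) (some (k, s')))
    (hji : At nl nr j (some (i, s)) o₁) (hki : At nl nr k (some (i, s')) o₂) :
    InR (M4 ⟨n j, s, kd o₁⟩ ⟨4, s, some s'⟩ ⟨n k, s', kd o₂⟩) (cos (z i)).re (-(cos (z i)).im) ∧
      InR (N4 ⟨n j, s, kd o₁⟩ ⟨4, s, some s'⟩ ⟨n k, s', kd o₂⟩) (cos (z j)).re
        (-(cos (z j)).im) := by
  have hT := h.tab_fin hC h3 hn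
  have vS : TabV ⟨4, false, some true⟩ V4S n nl nr z := hT.via h hC h3 hn LF4_ok cv4S
  have vA : TabV ⟨4, false, some false⟩ V4A n nl nr z := hT.via h hC h3 hn LF4_ok cv4A
  have nA : TabN ⟨4, false, some true⟩ N4A n nl nr z := vS.nb h hC h3 hn hT LF4_ok cn4A
  have nAA : TabN ⟨4, false, some false⟩ N4AA n nl nr z := vA.nb h hC h3 hn hT LF4_ok cn4AA
  have vS' : TabV ⟨4, true, some false⟩ (fun K I => V4S I K) n nl nr z := by
    intro i j k s' o₁ o₂ eo ea hi hj hk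
    obtain rfl : false = s' := by simpa using eo
    exact vS i k j true o₂ o₁ rfl ea hi.sw hk hj
  have nS : TabN ⟨4, true, some false⟩ N4S n nl nr z := vS'.nb h hC h3 hn hT LF4_ok cn4S
  have t1 := hT i j s (some (k, s')) o₁ hij hji
  have t2 := hT j i s o₁ (some (k, s')) hji hij
  rw [hi] at t1 t2
  unfold M4 N4
  cases s <;> cases s'
  · exact ⟨vA i j k false o₁ o₂ rfl hi hij hji hki, nAA i j k false o₁ o₂ rfl hi hij hji hki⟩
  · exact ⟨vS i j k true o₁ o₂ rfl hi hij hji hki, nA i j k true o₁ o₂ rfl hi hij hji hki⟩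
  · exact ⟨vS' i j k false o₁ o₂ rfl hi hij hji hki, nS i j k false o₁ o₂ rfl hi hij hji hki⟩
  · exact ⟨t1, t2⟩

end gen

section chain

variable {R : ℕ} {a : ℕ → ℕ} {S : ℕ → Bool}

/-- In terms of the chain: `M4` at `i + 1`, `N4` at its two neighbours. -/
theorem tab4_adm (h : AdmS R a S) (z : Fin (R + 1) → ℂ)
    (hz : Zr true (aF R a) (nlF R S) (nrF R S) (gC (aF R a) (nlF R S) (nrF R S)) 1 z)
    {i : ℕ} (hi : i + 1 < R) (h4 : a (i + 1) = 4) :
    InR (M4 (vR a S i) (vL R a S (i + 1)) (vL R a S (i + 2))) (cos (z ⟨i + 1, by omega⟩)).re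
        (-(cos (z ⟨i + 1, by omega⟩)).im) ∧
      InR (N4 (vR a S i) (vL R a S (i + 1)) (vL R a S (i + 2))) (cos (z ⟨i, by omega⟩)).re
        (-(cos (z ⟨i, by omega⟩)).im) ∧
      InR (N4 (vL R a S (i + 2)) (vR a S (i + 1)) (vR a S i)) (cos (z ⟨i + 2, by omega⟩)).re
        (-(cos (z ⟨i + 2, by omega⟩)).im) := by
  have hC := ch_of_adm h.toAdm
  have h3 := hz.in3 hC fun _ hi => aF_cases hi
  have hn := chT_of_adm h
  have h0 : nlF R S ⟨i + 1, by omega⟩ = some (⟨i, by omega⟩, S i) := by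
    rw [nlF_iff]; exact ⟨rfl, rfl⟩
  have h1 : nrF R S ⟨i + 1, by omega⟩ = some (⟨i + 2, by omega⟩, S (i + 1)) := by
    rw [nrF_iff]; exact ⟨rfl, rfl⟩
  have h3' : nrF R S ⟨i, by omega⟩ = some (⟨i + 1, by omega⟩, S i) := by
    rw [nrF_iff]; exact ⟨rfl, rfl⟩
  have h4' : nlF R S ⟨i + 2, by omega⟩ = some (⟨i + 1, by omega⟩, S (i + 1)) := by
    rw [nlF_iff]; exact ⟨rfl, rfl⟩
  have hn4 : nF R a ⟨i + 1, by omega⟩ = 4 := by unfold nF; rw [h4]; rfl
  have e1 : (⟨nF R a ⟨i, by omega⟩, S i, kd (nlF R S ⟨i, by omega⟩)⟩ : Vt) = vR a S i :=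
    vR_eq (i := ⟨i, by omega⟩)
  have e2 : (⟨nF R a ⟨i + 2, by omega⟩, S (i + 1), kd (nrF R S ⟨i + 2, by omega⟩)⟩ : Vt) =
      vL R a S (i + 2) := vL_eq (i := ⟨i + 2, by omega⟩)
  have e3 : (⟨4, S i, some (S (i + 1))⟩ : Vt) = vL R a S (i + 1) := by
    have := vL_eq (R := R) (a := a) (S := S) (i := ⟨i + 1, by omega⟩)
    rw [h1, hn4] at this
    exact this
  have e4 : (⟨4, S (i + 1), some (S i)⟩ : Vt) = vR a S (i + 1) := by
    have := vR_eq (R := R) (a := a) (S := S) (i := ⟨i + 1, by omega⟩)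
    rw [h0, hn4] at this
    exact this
  have b1 := hz.tab4 hC h3 hn (i := ⟨i + 1, by omega⟩) (j := ⟨i, by omega⟩)
    (k := ⟨i + 2, by omega⟩) (s := S i) (s' := S (i + 1)) hn4 (Or.inl ⟨h0, h1⟩)
    (Or.inr ⟨rfl, h3'⟩) (Or.inl ⟨h4', rfl⟩)
  have b2 := hz.tab4 hC h3 hn (i := ⟨i + 1, by omega⟩) (j := ⟨i + 2, by omega⟩)
    (k := ⟨i, by omega⟩) (s := S (i + 1)) (s' := S i) hn4 (Or.inr ⟨h0, h1⟩)
    (Or.inl ⟨h4', rfl⟩) (Or.inr ⟨rfl, h3'⟩)
  rw [e1, e2, e3] at b1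
  rw [e1, e2, e4] at b2
  exact ⟨b1.1, b1.2, b2.2⟩

end chain

end Pool.Agent.S5.E
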