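import Pool.Agent.S5.E.T.DQb

/-!
# Mixed chains, block E: the special pairs, runs of the round 6
-/

set_option autoImplicit false

namespace Pool.Agent.S5.E

open Pool.Agent.S5.E.B2

set_option maxRecDepth 100000 in
theorem PQ6D_ok : chkLP 60 true PQ6D = true := by decide +kernel

theorem PQ6_ok : ∀ x ∈ PQ6, x.Ok := chkLP_sound PQ6D_ok

end Pool.Agent.S5.E
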