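import Pool.Agent.S5.E.T.QT
import Pool.Agent.S5.E.T.RQ0
import Pool.Agent.S5.E.T.RQ2
import Pool.Agent.S5.E.T.RQ3
import Pool.Agent.S5.E.T.RQ4
import Pool.Agent.S5.E.T.RQ5
import Pool.Agent.S5.E.T.RQ6
import Pool.Agent.S5.E.T.RQ8
import Pool.Agent.S5.E.T.Fin

/-!
# Mixed chains, block E: the special pairs
-/

set_option autoImplicit false

namespace Pool.Agent.S5.E

open Complex
open Pool.Agent.S5.E.B2

/-- The regions of the vertices of the special pairs, by the `S` neighbour. -/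
def QF : Vt → Rg := qP wq7

/-- The regions of the `S` neighbours of the vertices of the special pairs. -/
def UF : Vt → Rg := qP wu8

/-- The regions of the partners, by the `S` neighbour of the first vertex. -/
def ZF : Vt → Rg := qP wz

section gen

variable {ι : Type*} {a : ι → ℝ} {n : ι → ℕ} {nl nr : ι → Option (ι × Bool)} {z : ι → ℂ}

/-- **The special pairs.** -/
theorem Zr.tab_pair (h : Zr true a nl nr (gC a nl nr) 1 z) (hC : Ch a nl nr)
    (h3 : In3 a nl nr z) (hn : ChT a n nl nr) :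
    TabQ QF n nl nr z ∧ TabU UF n nl nr z ∧ TabZ ZF n nl nr z := by
  have hT := h.tab_fin hC h3 hn
  have hq0 : TabQ q0 n nl nr z := (tabV_S h hC h3 hn hT).tabQ
  have hu0 : TabU u0 n nl nr z := hT.tabU
  have hq1 : TabQ (qP wq1) n nl nr z := hq0.step h hC h3 hn hu0 PQ0_ok cQ0
  have hu1 : TabU (qP wu1) n nl nr z := TabU.step h hC h3 hn hT hq1 hu0 (L := []) (by simp) cU0
  have hu2 : TabU (qP wu2) n nl nr z := TabU.step h hC h3 hn hT hq1 hu1 PU1_ok cU1
  have hq3 : TabQ (qP wq3) n nl nr z := hq1.step h hC h3 hn hu2 PQ2_ok cQ2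
  have hu3 : TabU (qP wu3) n nl nr z := TabU.step h hC h3 hn hT hq3 hu2 (L := []) (by simp) cU2
  have hq4 : TabQ (qP wq4) n nl nr z := hq3.step h hC h3 hn hu3 PQ3_ok cQ3
  have hu4 : TabU (qP wu4) n nl nr z := TabU.step h hC h3 hn hT hq4 hu3 (L := []) (by simp) cU3
  have hq5 : TabQ (qP wq5) n nl nr z := hq4.step h hC h3 hn hu4 PQ4_ok cQ4
  have hu5 : TabU (qP wu5) n nl nr z := TabU.step h hC h3 hn hT hq5 hu4 (L := []) (by simp) cU4
  have hq6 : TabQ (qP wq6) n nl nr z := hq5.step h hC h3 hn hu5 PQ5_ok cQ5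
  have hu6 : TabU (qP wu6) n nl nr z := TabU.step h hC h3 hn hT hq6 hu5 (L := []) (by simp) cU5
  have hq7 : TabQ (qP wq7) n nl nr z := hq6.step h hC h3 hn hu6 PQ6_ok cQ6
  have hu7 : TabU (qP wu7) n nl nr z := TabU.step h hC h3 hn hT hq7 hu6 (L := []) (by simp) cU6
  have hu8 : TabU (qP wu8) n nl nr z := TabU.step h hC h3 hn hT hq7 hu7 PU7_ok cU7
  exact ⟨hq7, hu8, hq7.tabZ h hC h3 hn hu8 PQ8_ok cZ⟩

end gen

end Pool.Agent.S5.E
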