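import Pool.Agent.S5.E.T.EndV

/-!
# Mixed chains, block E: the special pairs

A special pair: vertices `i` and `j` with two half twists, an `A` edge between them and an `S` edge at
each of them.  `TabQ Q z`: `i` is in the region `Q (type of its S neighbour)`; `TabU U z`: the `S`
neighbour `k` of `i` is in the region `U (type of k)`; `TabZ Z z`: `j` is in the region
`Z (type of the S neighbour of i)`.
-/

set_option autoImplicit false

namespace Pool.Agent.S5.E

open Complex
open Pool.Agent.S5.E.B2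

variable {ι : Type*}

/-- `i` and `j` are a special pair, `k` and `k'` are their `S` neighbours. -/
structure Pr (n : ι → ℕ) (nl nr : ι → Option (ι × Bool)) (i j k k' : ι)
    (o₂ : Option (ι × Bool)) : Prop where
  hi : n i = 2
  hj : n j = 2
  ai : At nl nr i (some (j, false)) (some (k, true))
  aj : At nl nr j (some (i, false)) (some (k', true))
  ak : At nl nr k (some (i, true)) o₂

def TabQ (Q : Vt → Rg) (n : ι → ℕ) (nl nr : ι → Option (ι × Bool)) (z : ι → ℂ) : Prop :=
  ∀ i j k k' o₂, Pr n nl nr i j k k' o₂ →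
    InR (Q ⟨n k, true, kd o₂⟩) (cos (z i)).re (-(cos (z i)).im)

def TabU (U : Vt → Rg) (n : ι → ℕ) (nl nr : ι → Option (ι × Bool)) (z : ι → ℂ) : Prop :=
  ∀ i j k k' o₂, Pr n nl nr i j k k' o₂ →
    InR (U ⟨n k, true, kd o₂⟩) (cos (z k)).re (-(cos (z k)).im)

def TabZ (Z : Vt → Rg) (n : ι → ℕ) (nl nr : ι → Option (ι × Bool)) (z : ι → ℂ) : Prop :=
  ∀ i j k k' o₂, Pr n nl nr i j k k' o₂ →
    InR (Z ⟨n k, true, kd o₂⟩) (cos (z j)).re (-(cos (z j)).im)

theorem Pr.symm {n : ι → ℕ} {nl nr : ι → Option (ι × Bool)} {i j k k' : ι}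
    {o₂ : Option (ι × Bool)} (h : Pr n nl nr i j k k' o₂) {o : Option (ι × Bool)}
    (hk : At nl nr k' (some (j, true)) o) : Pr n nl nr j i k' k o :=
  ⟨h.hj, h.hi, h.aj, h.ai, hk⟩

theorem at_nb {a : ι → ℝ} {nl nr : ι → Option (ι × Bool)} (hC : Ch a nl nr) {i j : ι} {s : Bool}
    {o : Option (ι × Bool)} (h : At nl nr i (some (j, s)) o) :
    ∃ o', At nl nr j (some (i, s)) o' := by
  have h1 : nl i = some (j, s) ∨ nr i = some (j, s) := by
    rcases h with ⟨h2, -⟩ | ⟨-, h2⟩
    · exact Or.inl h2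
    · exact Or.inr h2
  rcases hC.N.symm i j s h1 with h2 | h2
  · exact ⟨_, Or.inl ⟨h2, rfl⟩⟩
  · exact ⟨_, Or.inr ⟨rfl, h2⟩⟩

/-- The other neighbour of the partner. -/
theorem Pr.nb {a : ι → ℝ} {n : ι → ℕ} {nl nr : ι → Option (ι × Bool)} (hC : Ch a nl nr)
    {i j k k' : ι} {o₂ : Option (ι × Bool)} (h : Pr n nl nr i j k k' o₂) :
    ∃ o, At nl nr k' (some (j, true)) o := at_nb hC h.aj.sw

/-- Start. -/
theorem TabV.tabQ {n : ι → ℕ} {nl nr : ι → Option (ι × Bool)} {z : ι → ℂ} {V : Vt → Vt → Rg}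
    (h : TabV ⟨2, false, some true⟩ V n nl nr z) :
    TabQ (fun K => V ⟨2, false, some true⟩ K) n nl nr z := by
  intro i j k k' o₂ hp
  have := h i j k true (some (k', true)) o₂ rfl hp.hi hp.ai hp.aj hp.ak
  rw [hp.hj] at this
  exact this

theorem Tab.tabU {n : ι → ℕ} {nl nr : ι → Option (ι × Bool)} {z : ι → ℂ} {T : Vt → Vt → Rg}
    (h : Tab T n nl nr z) : TabU (fun K => T K ⟨2, true, some false⟩) n nl nr z := by
  intro i j k k' o₂ hp
  have := h k i true o₂ (some (j, false)) hp.ak hp.ai.sw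
  rw [hp.hi] at this
  exact this

/-- An instance with two half twists, one `A` and one `S` slot. -/
def hitQ (x : Inst) (rI rK own out : Rg) : Bool :=
  Nat.beq x.a 2 && ((x.s₁ == false && (x.s₂ == some true && (Sb rI x.r₁ && Sb rK x.r₂))) &&
    (Sb own x.own && Sb (capR own x.out) out))

/-- The check of a step for `Q`. -/
def covQ (Q U Q' : Vt → Rg) (L : List Inst) : Bool :=
  (types true).all fun K => !K.ok || (Sb (Q K) (Q' K) || (types true).all fun K' =>
    !K'.ok || L.any fun x => hitQ x (Q K') (U K) (Q K) (Q' K))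

theorem hitQ_app {a : ι → ℝ} {n : ι → ℕ} {nl nr : ι → Option (ι × Bool)} {z : ι → ℂ}
    (h : Zr true a nl nr (gC a nl nr) 1 z) (hC : Ch a nl nr) (h3 : In3 a nl nr z)
    (hn : ChT a n nl nr) {i j k k' : ι} {o₂ : Option (ι × Bool)} (hp : Pr n nl nr i j k k' o₂)
    {x : Inst} (hx : x.Ok) {rI rK own out : Rg} (hh : hitQ x rI rK own out = true)
    (hI : InR rI (cos (z j)).re (-(cos (z j)).im)) (hK : InR rK (cos (z k)).re (-(cos (z k)).im))
    (ho : InR own (cos (z i)).re (-(cos (z i)).im)) : InR out (cos (z i)).re (-(cos (z i)).im) := by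
  unfold hitQ at hh
  simp only [Bool.and_eq_true, Nat.beq_eq, beq_iff_eq] at hh
  obtain ⟨e1, ⟨e2, e3, e4, e5⟩, e7, e6⟩ := hh
  have := h.app hC h3 hx (i := i) (j := j) (o := some (k, true))
    (by rw [e1, ← hp.hi]; exact hn.hA i) (by rw [e2]; exact hp.ai) (by rw [e3]; rfl)
    (ho.sub e7) (hI.sub e4) (by
      intro j' s'' e
      rw [Option.some.injEq, Prod.mk.injEq] at e
      rw [← e.1]
      exact hK.sub e5)
  exact (InR.capR ho this).sub e6

/-- **One step for `Q`.** -/
theorem TabQ.step {a : ι → ℝ} {n : ι → ℕ} {nl nr : ι → Option (ι × Bool)} {z : ι → ℂ}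
    (h : Zr true a nl nr (gC a nl nr) 1 z) (hC : Ch a nl nr) (h3 : In3 a nl nr z)
    (hn : ChT a n nl nr) {Q U Q' : Vt → Rg} (hQ : TabQ Q n nl nr z) (hU : TabU U n nl nr z)
    {L : List Inst} (hL : ∀ x ∈ L, x.Ok) (hc : covQ Q U Q' L = true) : TabQ Q' n nl nr z := by
  intro i j k k' o₂ hp
  obtain ⟨o, hk'⟩ := hp.nb hC
  have hp' := hp.symm hk'
  have ho := hQ i j k k' o₂ hp
  have hK := hn.v k i true o₂ hp.ak
  have hK' := hn.v k' j true o hk'
  unfold covQ at hc
  rw [List.all_eq_true] at hc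
  have h1 := hc _ (mem_types hK)
  rw [hK, Bool.not_true, Bool.false_or, Bool.or_eq_true] at h1
  rcases h1 with h1 | h1
  · exact ho.sub h1
  rw [List.all_eq_true] at h1
  have h2 := h1 _ (mem_types hK')
  rw [hK', Bool.not_true, Bool.false_or, List.any_eq_true] at h2
  obtain ⟨x, hx, hh⟩ := h2
  exact hitQ_app h hC h3 hn hp (hL x hx) hh (hQ j i k' k o hp') (hU i j k k' o₂ hp) ho

/-- The check for `Z`. -/
def covZ (Q U Z : Vt → Rg) (L : List Inst) : Bool :=
  (types true).all fun K => !K.ok || (types true).all fun K' =>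
    !K'.ok || (Sb (Q K') (Z K) || L.any fun x => hitQ x (Q K) (U K') (Q K') (Z K))

/-- **The partner.** -/
theorem TabQ.tabZ {a : ι → ℝ} {n : ι → ℕ} {nl nr : ι → Option (ι × Bool)} {z : ι → ℂ}
    (h : Zr true a nl nr (gC a nl nr) 1 z) (hC : Ch a nl nr) (h3 : In3 a nl nr z)
    (hn : ChT a n nl nr) {Q U Z : Vt → Rg} (hQ : TabQ Q n nl nr z) (hU : TabU U n nl nr z)
    {L : List Inst} (hL : ∀ x ∈ L, x.Ok) (hc : covZ Q U Z L = true) : TabZ Z n nl nr z := by
  intro i j k k' o₂ hp
  obtain ⟨o, hk'⟩ := hp.nb hC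
  have hp' := hp.symm hk'
  have ho := hQ i j k k' o₂ hp
  have ho' := hQ j i k' k o hp'
  have hK := hn.v k i true o₂ hp.ak
  have hK' := hn.v k' j true o hk'
  unfold covZ at hc
  rw [List.all_eq_true] at hc
  have h1 := hc _ (mem_types hK)
  rw [hK, Bool.not_true, Bool.false_or, List.all_eq_true] at h1
  have h2 := h1 _ (mem_types hK')
  rw [hK', Bool.not_true, Bool.false_or, Bool.or_eq_true, List.any_eq_true] at h2
  rcases h2 with h2 | ⟨x, hx, hh⟩
  · exact ho'.sub h2
  exact hitQ_app h hC h3 hn hp' (hL x hx) hh ho (hU j i k' k o hp') ho'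

/-- The check of a step for `U`. -/
def covU (T : Vt → Vt → Rg) (Q U U' : Vt → Rg) (L : List Inst) : Bool :=
  (types true).all fun K => !K.ok || (Sb (U K) (U' K) ||
    bif Nat.beq K.a 2 then Sb (Q ⟨2, true, some false⟩) (U' K) else
    match K.o with
    | none => L.any fun x => hit0 x K (Q K) (U K) (U' K)
    | some t => (types t).all fun M => !(M.ok && adm K ⟨2, true, some false⟩ M) ||
        L.any fun x => hit x K (Q K) (T M K.sw) (U K) (U' K))

/-- **One step for `U`.** -/
theorem TabU.step {a : ι → ℝ} {n : ι → ℕ} {nl nr : ι → Option (ι × Bool)} {z : ι → ℂ}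
    (h : Zr true a nl nr (gC a nl nr) 1 z) (hC : Ch a nl nr) (h3 : In3 a nl nr z)
    (hn : ChT a n nl nr) {T : Vt → Vt → Rg} (hT : Tab T n nl nr z) {Q U U' : Vt → Rg}
    (hQ : TabQ Q n nl nr z) (hU : TabU U n nl nr z) {L : List Inst} (hL : ∀ x ∈ L, x.Ok)
    (hc : covU T Q U U' L = true) : TabU U' n nl nr z := by
  intro i j k k' o₂ hp
  have ho := hU i j k k' o₂ hp
  have hi := hQ i j k k' o₂ hp
  have hK := hn.v k i true o₂ hp.ak
  have hI := hn.v i k true (some (j, false)) hp.ai.sw
  unfold covU at hc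
  rw [List.all_eq_true] at hc
  have h1 := hc _ (mem_types hK)
  rw [hK, Bool.not_true, Bool.false_or, Bool.or_eq_true] at h1
  rcases h1 with h1 | h1
  · exact ho.sub h1
  cases h2 : Nat.beq (n k) 2
  · rw [h2, cond_false] at h1
    cases o₂ with
    | none =>
      simp only [kd, Option.map_none, List.any_eq_true] at h1 hi ho ⊢
      obtain ⟨x, hx, hh⟩ := h1
      unfold hit0 at hh
      simp only [Bool.and_eq_true, Nat.beq_eq, beq_iff_eq] at hh
      obtain ⟨e1, ⟨e2, e3, e4⟩, e7, e5⟩ := hh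
      have := h.app hC h3 (hL x hx) (i := k) (j := i) (o := none) (by rw [e1]; exact hn.hA k)
        (by rw [e2]; exact hp.ak) (by rw [e3]; rfl) (ho.sub e7) (hi.sub e4)
        (by intro j' s' e; simp at e)
      exact (InR.capR ho this).sub e5
    | some mt =>
      obtain ⟨m, t⟩ := mt
      obtain ⟨o', hm⟩ := at_nb hC hp.ak.sw
      have hM := hn.v m k t o' hm
      have had := hn.d k i m true t (some (j, false)) o' hp.ak hp.ai.sw hm
      have hrM := hT m k t o' (some (i, true)) hm hp.ak.sw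
      simp only [kd, Option.map_some, List.all_eq_true] at h1 hi ho had hrM ⊢
      rw [hp.hi] at had
      have h4 := h1 ⟨n m, t, Option.map Prod.snd o'⟩ (by
        have := mem_types hM
        simpa only [kd] using this)
      have hM' : Vt.ok ⟨n m, t, Option.map Prod.snd o'⟩ = true := by simpa only [kd] using hM
      rw [hM', had, Bool.and_true, Bool.not_true, Bool.false_or, List.any_eq_true] at h4
      obtain ⟨x, hx, hh⟩ := h4
      unfold hit at hh
      simp only [Bool.and_eq_true, Bool.or_eq_true, Nat.beq_eq, beq_iff_eq, Vt.sw] at hh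
      rcases hh with ⟨e1, ⟨e2, e3, e4, e5⟩ | ⟨e2, e3, e4, e5⟩, e7, e6⟩
      · have := h.app hC h3 (hL x hx) (i := k) (j := i) (o := some (m, t))
          (by rw [e1]; exact hn.hA k)
          (by rw [e2]; exact hp.ak) (by rw [e3]; rfl) (ho.sub e7) (hi.sub e4) (by
            intro j' s'' e
            rw [Option.some.injEq, Prod.mk.injEq] at e
            rw [← e.1]
            exact hrM.sub e5)
        exact (InR.capR ho this).sub e6
      · have es : x.s₁ = t := by simpa using e2
        have := h.app hC h3 (hL x hx) (i := k) (j := m) (o := some (i, true))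
          (by rw [e1]; exact hn.hA k)
          (by rw [es]; exact hp.ak.sw) (by rw [e3]; rfl) (ho.sub e7) (hrM.sub e4) (by
            intro j' s'' e
            rw [Option.some.injEq, Prod.mk.injEq] at e
            rw [← e.1]
            exact hi.sub e5)
        exact (InR.capR ho this).sub e6
  · have h2' : n k = 2 := by rwa [Nat.beq_eq] at h2
    rw [h2, cond_true] at h1
    -- `k` is one of a pair
    have hko : ∃ m, o₂ = some (m, false) := by
      unfold Vt.ok at hK
      rcases o₂ with _ | ⟨m, t⟩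
      · simp [h2', kd] at hK
      · cases t
        · exact ⟨m, rfl⟩
        · simp [h2', kd] at hK
    obtain ⟨m, rfl⟩ := hko
    obtain ⟨o', hm⟩ := at_nb hC hp.ak.sw
    have had := hn.d k i m true false (some (j, false)) o' hp.ak hp.ai.sw hm
    have hm2 : n m = 2 ∧ ∃ m', o' = some (m', true) := by
      unfold adm admS at had
      rcases o' with _ | ⟨m', t⟩
      · simp [h2', hp.hi, kd, Vt.e] at had
      · cases t
        · simp [h2', hp.hi, kd, Vt.e] at had
        · refine ⟨?_, m', rfl⟩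
          by_contra hne
          simp [h2', hp.hi, kd, Vt.e, hne] at had
    obtain ⟨hm2, m', rfl⟩ := hm2
    have hp2 : Pr n nl nr k m i m' (some (j, false)) :=
      ⟨h2', hm2, hp.ak.sw, hm, hp.ai.sw⟩
    have := hQ k m i m' _ hp2
    simp only [kd, Option.map_some, hp.hi] at this
    exact this.sub h1

end Pool.Agent.S5.E
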