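import Pool.Agent.S5.E.T.Qs

/-!
# Mixed chains, block E: two special pairs joined by an `S` edge

`TabR A B z`: `i` and `j` are a special pair, the `S` neighbour of `i` has two half twists, and `K` is
the type of the `S` neighbour of `j`; then `i` is in the region `A K` and `j` is in the region `B K`.
-/

set_option autoImplicit false

namespace Pool.Agent.S5.E

open Complex
open Pool.Agent.S5.E.B2

variable {ι : Type*}

def TabR (A B : Vt → Rg) (n : ι → ℕ) (nl nr : ι → Option (ι × Bool)) (z : ι → ℂ) : Prop :=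
  ∀ i j k k' o₂ o', Pr n nl nr i j k k' o₂ → At nl nr k' (some (j, true)) o' → n k = 2 →
    InR (A ⟨n k', true, kd o'⟩) (cos (z i)).re (-(cos (z i)).im) ∧
      InR (B ⟨n k', true, kd o'⟩) (cos (z j)).re (-(cos (z j)).im)

/-- The region of the `S` neighbour `k` with two half twists. -/
def TabG (G : Rg) (n : ι → ℕ) (nl nr : ι → Option (ι × Bool)) (z : ι → ℂ) : Prop :=
  ∀ i j k k' o₂, Pr n nl nr i j k k' o₂ → n k = 2 → InR G (cos (z k)).re (-(cos (z k)).im)

/-- An `S` neighbour with two half twists is one of a pair, too. -/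
theorem Pr.next {a : ι → ℝ} {n : ι → ℕ} {nl nr : ι → Option (ι × Bool)} (hC : Ch a nl nr)
    (hn : ChT a n nl nr) {i j k k' : ι} {o₂ : Option (ι × Bool)} (hp : Pr n nl nr i j k k' o₂)
    (h2' : n k = 2) : ∃ m m', Pr n nl nr k m i m' (some (j, false)) := by
  have hK := hn.v k i true o₂ hp.ak
  have hko : ∃ m, o₂ = some (m, false) := by
    unfold Vt.ok at hK
    rcases o₂ with _ | ⟨m, t⟩
    · simp [h2', kd] at hK
    · cases t
      · exact ⟨m, rfl⟩
      · simp [h2', kd] at hK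
  obtain ⟨m, rfl⟩ := hko
  obtain ⟨o', hm⟩ := at_nb hC hp.ak.sw
  have had := hn.d k i m true false (some (j, false)) o' hp.ak hp.ai.sw hm
  have hm2 : n m = 2 ∧ ∃ m', o' = some (m', true) := by
    unfold adm admS at had
    rcases o' with _ | ⟨m', t⟩
    · simp [h2', hp.hi, kd, Vt.e] at had
    · cases t
      · simp [h2', hp.hi, kd, Vt.e] at had
      · refine ⟨?_, m', rfl⟩
        by_contra hne
        simp [h2', hp.hi, kd, Vt.e, hne] at had
  obtain ⟨hm2, m', rfl⟩ := hm2
  exact ⟨m, m', h2', hm2, hp.ak.sw, hm, hp.ai.sw⟩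

/-- Start. -/
theorem TabQ.tabR {a : ι → ℝ} {n : ι → ℕ} {nl nr : ι → Option (ι × Bool)} {z : ι → ℂ}
    (hC : Ch a nl nr) (hn : ChT a n nl nr) {Q : Vt → Rg} (hQ : TabQ Q n nl nr z) :
    TabR (fun _ => Q ⟨2, true, some false⟩) Q n nl nr z := by
  intro i j k k' o₂ o' hp hk' h2
  obtain ⟨m, m', hp2⟩ := hp.next hC hn h2
  refine ⟨?_, hQ j i k' k o' (hp.symm hk')⟩
  have hK := hn.v k i true o₂ hp.ak
  have := hQ i j k k' o₂ hp
  have e : kd o₂ = some false := by
    unfold Vt.ok at hK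
    rcases o₂ with _ | ⟨m, t⟩
    · simp [h2, kd] at hK
    · cases t
      · rfl
      · simp [h2, kd] at hK
  rw [h2, e] at this
  exact this

/-- The region of the `S` neighbour. -/
def covG (A : Vt → Rg) (G : Rg) : Bool := (types true).all fun K => !K.ok || Sb (A K) G

theorem TabR.tabG {a : ι → ℝ} {n : ι → ℕ} {nl nr : ι → Option (ι × Bool)} {z : ι → ℂ}
    (hC : Ch a nl nr) (hn : ChT a n nl nr) {A B : Vt → Rg} (hR : TabR A B n nl nr z) {G : Rg}
    (hc : covG A G = true) : TabG G n nl nr z := by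
  intro i j k k' o₂ hp h2
  obtain ⟨m, m', hp2⟩ := hp.next hC hn h2
  obtain ⟨o, hm'⟩ := hp2.nb hC
  have h1 := (hR k m i m' _ o hp2 hm' hp.hi).1
  have hK := hn.v m' m true o hm'
  unfold covG at hc
  rw [List.all_eq_true] at hc
  have h3 := hc _ (mem_types hK)
  rw [hK, Bool.not_true, Bool.false_or] at h3
  exact h1.sub h3

/-- The check of a step. -/
def covR (U A B : Vt → Rg) (G : Rg) (A' B' : Vt → Rg) (L : List Inst) : Bool :=
  (types true).all fun K => !K.ok ||
    ((Sb (A K) (A' K) || L.any fun x => hitQ x (B K) G (A K) (A' K)) &&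
      (Sb (B K) (B' K) || L.any fun x =>
        hitQ x (A K) (bif Nat.beq K.a 2 then G else U K) (B K) (B' K)))

/-- **One step.** -/
theorem TabR.step {a : ι → ℝ} {n : ι → ℕ} {nl nr : ι → Option (ι × Bool)} {z : ι → ℂ}
    (h : Zr true a nl nr (gC a nl nr) 1 z) (hC : Ch a nl nr) (h3 : In3 a nl nr z)
    (hn : ChT a n nl nr) {U A B A' B' : Vt → Rg} {G : Rg} (hU : TabU U n nl nr z)
    (hR : TabR A B n nl nr z) (hg : covG A G = true) {L : List Inst} (hL : ∀ x ∈ L, x.Ok)
    (hc : covR U A B G A' B' L = true) : TabR A' B' n nl nr z := by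
  have hG := hR.tabG hC hn hg
  intro i j k k' o₂ o' hp hk' h2
  have hp' := hp.symm hk'
  obtain ⟨hi, hj⟩ := hR i j k k' o₂ o' hp hk' h2
  have hK := hn.v k' j true o' hk'
  unfold covR at hc
  rw [List.all_eq_true] at hc
  have h1 := hc _ (mem_types hK)
  rw [hK, Bool.not_true, Bool.false_or, Bool.and_eq_true, Bool.or_eq_true, Bool.or_eq_true,
    List.any_eq_true, List.any_eq_true] at h1
  obtain ⟨c1, c2⟩ := h1
  constructor
  · rcases c1 with c1 | ⟨x, hx, hh⟩
    · exact hi.sub c1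
    · exact hitQ_app h hC h3 hn hp (hL x hx) hh hj (hG i j k k' o₂ hp h2) hi
  · rcases c2 with c2 | ⟨x, hx, hh⟩
    · exact hj.sub c2
    · refine hitQ_app h hC h3 hn hp' (hL x hx) hh hi ?_ hj
      cases hb : Nat.beq (n k') 2
      · exact hU j i k' k o' hp'
      · rw [Nat.beq_eq] at hb
        exact hG j i k' k o' hp' hb

/-- The region of `j`. -/
theorem TabR.tabH {a : ι → ℝ} {n : ι → ℕ} {nl nr : ι → Option (ι × Bool)} {z : ι → ℂ}
    (hC : Ch a nl nr) (hn : ChT a n nl nr) {A B : Vt → Rg} (hR : TabR A B n nl nr z) {G : Rg}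
    (hc : covG B G = true) {i j k k' : ι} {o₂ : Option (ι × Bool)} (hp : Pr n nl nr i j k k' o₂)
    (h2 : n k = 2) : InR G (cos (z j)).re (-(cos (z j)).im) := by
  obtain ⟨o, hk'⟩ := hp.nb hC
  have h1 := (hR i j k k' o₂ o hp hk' h2).2
  have hK := hn.v k' j true o hk'
  unfold covG at hc
  rw [List.all_eq_true] at hc
  have h3 := hc _ (mem_types hK)
  rw [hK, Bool.not_true, Bool.false_or] at h3
  exact h1.sub h3

end Pool.Agent.S5.E
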