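import Pool.Agent.S5.E.T.Step
import Pool.Agent.S5.ListS

/-!
# Mixed chains, block E: the tables of boxes, the start
-/

set_option autoImplicit false

namespace Pool.Agent.S5.E

open Complex
open Pool.Agent.S5.E.B2

section chain

variable {R : ℕ} {a : ℕ → ℕ} {S : ℕ → Bool}

/-- The number of the half twists, `8` for eight or more. -/
def nF (R : ℕ) (a : ℕ → ℕ) (i : Fin (R + 1)) : ℕ := min (a i) 8

theorem kd_nlF {i : Fin (R + 1)} (h : (i : ℕ) ≠ 0) : kd (nlF R S i) = some (S ((i : ℕ) - 1)) := by
  unfold nlF
  rw [if_neg h]
  rfl

theorem kd_nrF {i : Fin (R + 1)} (h : (i : ℕ) ≠ R) : kd (nrF R S i) = some (S i) := by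
  unfold nrF
  rw [dif_neg h]
  rfl

theorem HasA_min (n : ℕ) : HasA (min n 8) (n : ℝ) := by
  unfold HasA
  split_ifs with h
  · have : 8 ≤ n := by omega
    exact ⟨n, this, rfl⟩
  · have : min n 8 = n := by omega
    rw [this]

theorem e_eq {i : Fin (R + 1)} {s : Bool} {o : Option (Fin (R + 1) × Bool)} (n : ℕ) :
    (⟨n, s, kd o⟩ : Vt).e = if kd o = some true then 1 else 0 := by
  unfold Vt.e
  dsimp only
  by_cases h : kd o = some true
  · rw [h]; rfl
  · rw [if_neg h]
    have : (kd o == some true) = false := by simpa using h
    rw [this]; rfl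

theorem chT_of_adm (h : AdmS R a S) : ChT (aF R a) (nF R a) (nlF R S) (nrF R S) := by
  have hR := h.hR
  have a2 : ∀ i : Fin (R + 1), 2 ≤ nF R a i ∧ nF R a i ≤ 8 := fun i => by
    have := h.ha i (by omega)
    unfold nF
    omega
  have hv : ∀ (i j : Fin (R + 1)) s o, At (nlF R S) (nrF R S) i (some (j, s)) o → a i = 2 →
      s = true → kd o = some false := by
    intro i j s o hi h2 hs
    subst hs
    rcases hi with ⟨h3, h4⟩ | ⟨h3, h4⟩
    · rw [nlF_iff] at h3
      obtain ⟨h3, h5⟩ := h3
      subst h4
      by_cases hi : (i : ℕ) = R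
      · have := h.hlst j (by omega) h5.symm
        rw [h3] at this
        omega
      · rw [kd_nrF hi]
        rcases hS : S i with _ | _
        · rfl
        · have := h.hmid j (by omega) h5.symm (by rw [h3]; exact hS)
          rw [h3] at this
          omega
    · rw [nrF_iff] at h4
      obtain ⟨h4, h5⟩ := h4
      subst h3
      by_cases hi : (i : ℕ) = 0
      · rw [hi] at h5 h2
        have := h.hfst h5.symm
        omega
      · rw [kd_nlF hi]
        have e : (i : ℕ) - 1 + 1 = i := by omega
        rcases hS : S ((i : ℕ) - 1) with _ | _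
        · rfl
        · have hj := j.isLt
          have := h.hmid ((i : ℕ) - 1) (by omega) hS (by rw [e]; exact h5.symm)
          rw [e] at this
          omega
  -- the kind of the outer slot of the left and the right neighbour
  have outL : ∀ (i j : Fin (R + 1)) s o, (j : ℕ) + 1 = i → At (nlF R S) (nrF R S) j (some (i, s)) o →
      (if kd o = some true then 1 else 0) = eL S j := by
    intro i j s o hji hj
    rcases hj with ⟨g1, g2⟩ | ⟨g1, g2⟩
    · rw [nlF_iff] at g1
      omega
    · rw [← g1]
      unfold eL
      by_cases h0 : (j : ℕ) = 0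
      · have : kd (nlF R S j) = none := by rw [nlF_none.2 h0]; rfl
        rw [this, if_neg (by simp), if_neg (by omega)]
      · rw [kd_nlF h0]
        by_cases hs : S ((j : ℕ) - 1) = true
        · rw [if_pos (by rw [hs]), if_pos ⟨by omega, hs⟩]
        · rw [if_neg (by simpa using hs), if_neg (fun h' => hs h'.2)]
  have outR : ∀ (i j : Fin (R + 1)) s o, (i : ℕ) + 1 = j → At (nlF R S) (nrF R S) j (some (i, s)) o →
      (if kd o = some true then 1 else 0) = eR R S j := by
    intro i j s o hji hj
    have hjR := j.isLt
    rcases hj with ⟨g1, g2⟩ | ⟨g1, g2⟩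
    · rw [← g2]
      unfold eR
      by_cases h0 : (j : ℕ) = R
      · have : kd (nrF R S j) = none := by rw [nrF_none.2 h0]; rfl
        rw [this, if_neg (by simp), if_neg (by omega)]
      · rw [kd_nrF h0]
        by_cases hs : S j = true
        · rw [if_pos (by rw [hs]), if_pos ⟨by omega, hs⟩]
        · rw [if_neg (by simpa using hs), if_neg (fun h' => hs h'.2)]
    · rw [nrF_iff] at g2
      omega
  refine ⟨fun i => HasA_min (a i), ?_, ?_⟩
  · intro i j s o hi
    obtain ⟨b1, b2⟩ := a2 i
    unfold Vt.ok
    simp only [Bool.and_eq_true, Nat.ble_eq, Bool.not_eq_true']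
    refine ⟨b1, b2, ?_⟩
    by_cases h2 : nF R a i = 2
    · have h2' : a i = 2 := by unfold nF at h2; omega
      cases s
      · simp
      · rw [hv i j true o hi h2' rfl]
        simp
    · have : Nat.beq (nF R a i) 2 = false := by
        rw [← Bool.not_eq_true, Nat.beq_eq]
        exact h2
      rw [this]
      rfl
  · intro i j k s s' o₁ o₂ hi hj hk
    by_cases h2 : nF R a i = 2
    swap
    · have h2b : Nat.beq (nF R a i) 2 = false := by
        rw [← Bool.not_eq_true, Nat.beq_eq]
        exact h2
      unfold adm
      dsimp only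
      rw [h2b, cond_false, Bool.not_eq_true']
      by_contra hc
      rw [Bool.not_eq_false] at hc
      simp only [Bool.and_eq_true, Nat.beq_eq, beq_iff_eq, Option.some.injEq] at hc
      obtain ⟨q1, q2, q3, q4, q5⟩ := hc
      subst q2
      subst q3
      have q1' : a i = 3 := by unfold nF at q1; omega
      have q4' : a j = 2 := by unfold nF at q4; omega
      have q5' : a k = 2 := by unfold nF at q5; omega
      rcases hi with ⟨h3, h4⟩ | ⟨h3, h4⟩
      · rw [nlF_iff] at h3
        rw [nrF_iff] at h4
        have := k.isLt
        have e := h.s3l j (by omega) h3.2.symm (by rw [h3.1]; exact h4.2.symm) (by rw [h3.1]; exact q1')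
        exact e q4'
      · rw [nlF_iff] at h3
        rw [nrF_iff] at h4
        have := j.isLt
        have e := h.s3l k (by omega) h3.2.symm (by rw [h3.1]; exact h4.2.symm) (by rw [h3.1]; exact q1')
        exact e q5'
    have h2' : a i = 2 := by unfold nF at h2; omega
    -- the special case, `j` on the `A` side, `k` on the `S` side
    have key : ∀ (j k : Fin (R + 1)) o₁ o₂, At (nlF R S) (nrF R S) i (some (j, false)) (some (k, true)) →
        At (nlF R S) (nrF R S) j (some (i, false)) o₁ → At (nlF R S) (nrF R S) k (some (i, true)) o₂ →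
        admS ⟨nF R a j, false, kd o₁⟩ ⟨nF R a k, true, kd o₂⟩ = true := by
      clear hi hj hk
      intro j k o₁ o₂ hi hj hk
      unfold admS
      rw [Bool.and_eq_true]
      refine ⟨?_, ?_⟩
      swap
      · -- next to an end vertex with three half twists
        rw [Bool.or_eq_true]
        by_cases hK : nF R a k = 3 ∧ kd o₂ = none
        swap
        · left
          rw [Bool.not_eq_true']
          by_contra hc
          rw [Bool.not_eq_false] at hc
          simp only [Bool.and_eq_true, Nat.beq_eq, beq_iff_eq] at hc
          exact hK hc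
        right
        obtain ⟨k3, ko⟩ := hK
        have k3' : a k = 3 := by unfold nF at k3; omega
        simp only [Bool.and_eq_true, Nat.beq_eq, Bool.not_eq_true', beq_eq_false_iff_ne]
        rcases hi with ⟨h3, h4⟩ | ⟨h3, h4⟩
        · -- `j = i - 1`, `k = i + 1`
          rw [nlF_iff] at h3
          rw [nrF_iff] at h4
          obtain ⟨h3, h5⟩ := h3
          obtain ⟨h4, h6⟩ := h4
          have hk' := k.isLt
          have hkR : (k : ℕ) = R := by
            rcases hk with ⟨g1, g2⟩ | ⟨g1, g2⟩
            · by_contra hne
              rw [← g2, kd_nrF hne] at ko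
              exact absurd ko (by simp)
            · rw [nrF_iff] at g2
              omega
          obtain ⟨q1, q2, q3⟩ := h.e3r i (by omega) h6.symm (by rw [← hkR]; exact k3') h2'
          have ej : (i : ℕ) - 1 = j := by omega
          have ej' : (i : ℕ) - 2 = (j : ℕ) - 1 := by omega
          rw [ej] at q2
          rw [ej'] at q3
          refine ⟨by unfold nF; rw [q2]; rfl, ?_⟩
          rcases hj with ⟨g1, g2⟩ | ⟨g1, g2⟩
          · rw [nlF_iff] at g1
            omega
          · rw [← g1, kd_nlF (by omega), q3]
            simp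
        · rw [nlF_iff] at h3
          rw [nrF_iff] at h4
          obtain ⟨h3, h5⟩ := h3
          obtain ⟨h4, h6⟩ := h4
          have hj' := j.isLt
          have hk0 : (k : ℕ) = 0 := by
            rcases hk with ⟨g1, g2⟩ | ⟨g1, g2⟩
            · rw [nlF_iff] at g1
              omega
            · by_contra hne
              rw [← g1, kd_nlF hne] at ko
              exact absurd ko (by simp)
          rw [hk0] at h5 k3'
          have hi1 : (i : ℕ) = 1 := by omega
          rw [hi1] at h2' h4
          have hnj : kd o₁ = kd (nrF R S j) := by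
            rcases hj with ⟨g1, g2⟩ | ⟨g1, g2⟩
            · rw [g2]
            · rw [nrF_iff] at g2
              omega
          have hj2 : (j : ℕ) = 2 := by omega
          rcases h.e3l h5.symm k3' h2' with q | ⟨q1, q2, q3⟩
          · have hjR : (j : ℕ) = R := by omega
            have q2 := h.spl 0 (by omega) h2' h5.symm
            have a2' : a 2 = 2 := by
              rcases q2 with ⟨q2, -⟩ | ⟨-, q3, q4⟩
              · omega
              · have e0 : eL S 0 = 0 := by unfold eL; simp
                have e2 : eR R S (0 + 2) = 0 := by unfold eR; rw [if_neg]; omega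
                rw [e0, e2] at q4
                rw [e2] at q3
                have : a (0 + 2) = a 2 := rfl
                omega
            refine ⟨by unfold nF; rw [hj2, a2']; rfl, ?_⟩
            rw [hnj, nrF_none.2 hjR]
            simp [kd]
          · refine ⟨by unfold nF; rw [hj2, q2]; rfl, ?_⟩
            rw [hnj, kd_nrF (by omega), hj2, q3]
            simp
      simp only [Bool.or_eq_true, Bool.and_eq_true, Nat.beq_eq, Nat.ble_eq, beq_iff_eq]
      rw [e_eq (i := j), e_eq (i := k)]
      rcases hi with ⟨h3, h4⟩ | ⟨h3, h4⟩
      · -- `j = i - 1`, `k = i + 1`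
        rw [nlF_iff] at h3
        rw [nrF_iff] at h4
        obtain ⟨h3, h5⟩ := h3
        obtain ⟨h4, h6⟩ := h4
        have hk' := k.isLt
        have q := h.spr j (by omega) (by rw [h3]; exact h2') (by rw [h3]; exact h6.symm)
        have e : (j : ℕ) + 2 = k := by omega
        rw [e] at q
        rw [outL i j _ _ h3 hj, outR i k _ _ h4 hk]
        rcases q with ⟨q1, q2, q3⟩ | ⟨q1, q2, q3⟩
        · left
          refine ⟨by unfold nF; rw [q2]; rfl, ?_⟩
          rcases hj with ⟨g1, g2⟩ | ⟨g1, g2⟩
          · rw [nlF_iff] at g1
            omega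
          · rw [← g1, kd_nlF (by omega), q3]
        · right
          have hb : eR R S k ≤ 1 := by unfold eR; split_ifs <;> omega
          have hb' : eL S j ≤ 1 := by unfold eL; split_ifs <;> omega
          unfold nF
          refine ⟨by omega, by omega, ?_⟩
          omega
      · rw [nlF_iff] at h3
        rw [nrF_iff] at h4
        obtain ⟨h3, h5⟩ := h3
        obtain ⟨h4, h6⟩ := h4
        have hj' := j.isLt
        have q := h.spl k (by omega) (by rw [h3]; exact h2') h5.symm
        have e : (k : ℕ) + 2 = j := by omega
        rw [e] at q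
        rw [outR i j _ _ h4 hj, outL i k _ _ h3 hk]
        rcases q with ⟨q1, q2, q3⟩ | ⟨q1, q2, q3⟩
        · left
          refine ⟨by unfold nF; rw [q2]; rfl, ?_⟩
          rcases hj with ⟨g1, g2⟩ | ⟨g1, g2⟩
          · rw [← g2, kd_nrF (by omega), q3]
          · rw [nrF_iff] at g2
            omega
        · right
          have hb : eR R S j ≤ 1 := by unfold eR; split_ifs <;> omega
          have hb' : eL S k ≤ 1 := by unfold eL; split_ifs <;> omega
          unfold nF
          refine ⟨by omega, by omega, ?_⟩
          omega
    unfold adm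
    dsimp only
    have h2b : Nat.beq (nF R a i) 2 = true := by rw [Nat.beq_eq]; exact h2
    rw [h2b, cond_true]
    cases s
    · rw [cond_false]
      cases s'
      · rfl
      · rw [Bool.or_eq_true]
        exact Or.inr (key j k o₁ o₂ hi hj hk)
    · rw [cond_true]
      have e := hv i j true _ hi h2' rfl
      simp only [kd, Option.map_some, Option.some.injEq] at e
      subst e
      exact key k j o₂ o₁ hi.sw hk hj

end chain

end Pool.Agent.S5.E
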