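import Pool.Agent.S5.E.T.App

/-!
# Mixed chains, block E: the tables of boxes, one step

`Tab T z`: for all edges `i - j` the number `κ_i` is in the region `T (type of i) (type of j)`, both
vertices seen from the edge.  `Tab.step`: if all images under the vertex maps of the products of the
regions of `T` are in the regions of `T'` (`cov`, a finite check over a list of instances), then
`Tab T z` implies `Tab T' z`.
-/

set_option autoImplicit false

namespace Pool.Agent.S5.E

open Complex
open Pool.Agent.S5.E.B2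

/-- The possible types. -/
def Vt.ok (J : Vt) : Bool :=
  Nat.ble 2 J.a && (Nat.ble J.a 8 && !(Nat.beq J.a 2 && (J.s && !(J.o == some false))))

/-- `1` if the other edge is `S`. -/
def Vt.e (J : Vt) : ℕ := bif J.o == some true then 1 else 0

/-- Admissible neighbours of a special vertex: `I` through the `A` edge, `K` through the `S` edge. -/
def admS (I K : Vt) : Bool :=
  ((Nat.beq I.a 2 && I.o == some true) ||
    (Nat.ble (3 + K.e) K.a && (Nat.ble (2 + I.e) I.a &&
      (Nat.beq K.a 8 || Nat.ble (I.a + 1 + K.e) (K.a + I.e))))) &&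
  (!(Nat.beq K.a 3 && K.o == none) || (Nat.beq I.a 2 && !(I.o == some false)))

/-- Admissible neighbours `I`, `K` of the vertex `J` (seen from `I`). -/
def adm (J I K : Vt) : Bool :=
  bif Nat.beq J.a 2 then
    (bif J.s then admS K I else (!(J.o == some true) || admS I K))
  else !(Nat.beq J.a 3 && (J.s && (J.o == some true && (Nat.beq I.a 2 && Nat.beq K.a 2))))

variable {ι : Type*}

/-- The combinatorics. -/
structure ChT (a : ι → ℝ) (n : ι → ℕ) (nl nr : ι → Option (ι × Bool)) : Prop where
  hA : ∀ i, HasA (n i) (a i)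
  v : ∀ i j s o, At nl nr i (some (j, s)) o → Vt.ok ⟨n i, s, kd o⟩ = true
  d : ∀ i j k s s' o₁ o₂, At nl nr i (some (j, s)) (some (k, s')) → At nl nr j (some (i, s)) o₁ →
    At nl nr k (some (i, s')) o₂ → adm ⟨n i, s, some s'⟩ ⟨n j, s, kd o₁⟩ ⟨n k, s', kd o₂⟩ = true

/-- The regions of the table `T` are correct. -/
def Tab (T : Vt → Vt → Rg) (n : ι → ℕ) (nl nr : ι → Option (ι × Bool)) (z : ι → ℂ) : Prop :=
  ∀ i j s o o', At nl nr i (some (j, s)) o → At nl nr j (some (i, s)) o' →
    InR (T ⟨n i, s, kd o⟩ ⟨n j, s, kd o'⟩) (cos (z i)).re (-(cos (z i)).im)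

/-- All types with a slot of the kind `s`. -/
def types (s : Bool) : List Vt :=
  [2, 3, 4, 5, 6, 7, 8].flatMap fun a => [⟨a, s, some false⟩, ⟨a, s, some true⟩, ⟨a, s, none⟩]

theorem mem_types {J : Vt} (h : J.ok = true) : J ∈ types J.s := by
  obtain ⟨a, s, o⟩ := J
  unfold Vt.ok at h
  simp only [Bool.and_eq_true, Nat.ble_eq] at h
  obtain ⟨h1, h2, -⟩ := h
  dsimp only
  unfold types
  interval_cases a <;> rcases o with _ | _ | _ <;> simp

/-- Intersection of regions. -/
def capR (r r' : Rg) : Rg :=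
  ⟨bif Nat.ble r.k0 r'.k0 then r'.k0 else r.k0, bif Nat.ble r.k1 r'.k1 then r.k1 else r'.k1,
    bif Nat.ble r.t0 r'.t0 then r'.t0 else r.t0, bif Nat.ble r.t1 r'.t1 then r.t1 else r'.t1,
    bif Nat.ble r.m r'.m then r'.m else r.m⟩

theorem InR.capR {r r' : Rg} {x y : ℝ} (h : InR r x y) (h' : InR r' x y) :
    InR (E.capR r r') x y := by
  unfold E.capR
  refine ⟨h.x0, h.y0, ?_, ?_, ?_, ?_, ?_⟩
  · dsimp only
    cases Nat.ble r.k0 r'.k0
    · exact h.lo
    · exact h'.lo
  · dsimp only
    cases Nat.ble r.k1 r'.k1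
    · exact h'.hi
    · exact h.hi
  · dsimp only
    cases Nat.ble r.t0 r'.t0
    · exact h.a0
    · exact h'.a0
  · dsimp only
    cases Nat.ble r.t1 r'.t1
    · exact h'.a1
    · exact h.a1
  · dsimp only
    cases Nat.ble r.m r'.m
    · exact h.m0
    · exact h'.m0

/-- An instance covers a vertex (`own`: its old region, `out`: its new one). -/
def hit (x : Inst) (J : Vt) (rI rK own out : Rg) : Bool :=
  Nat.beq x.a J.a &&
    (((x.s₁ == J.s && (x.s₂ == J.o && (Sb rI x.r₁ && Sb rK x.r₂))) ||
      (some x.s₁ == J.o && (x.s₂ == some J.s && (Sb rK x.r₁ && Sb rI x.r₂)))) &&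
    (Sb own x.own && Sb (capR own x.out) out))

def hit0 (x : Inst) (J : Vt) (rI own out : Rg) : Bool :=
  Nat.beq x.a J.a && ((x.s₁ == J.s && (x.s₂ == none && Sb rI x.r₁)) &&
    (Sb own x.own && Sb (capR own x.out) out))

/-- The check of one edge. -/
def covE (T T' : Vt → Vt → Rg) (L : List Inst) (J I : Vt) : Bool :=
  !(J.ok && I.ok) || (Sb (T J I) (T' J I) ||
    match J.o with
    | none => L.any fun x => hit0 x J (T I J) (T J I) (T' J I)
    | some s' => (types s').all fun K => !(K.ok && adm J I K) ||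
        (Sb (capR (T J I) (T J.sw K)) (T' J I) ||
          L.any fun x => hit x J (T I J) (T K J.sw) (capR (T J I) (T J.sw K)) (T' J I)))

/-- The instance belongs to the vertex. -/
def fits (J : Vt) (x : Inst) : Bool :=
  Nat.beq x.a J.a && ((x.s₁ == J.s && x.s₂ == J.o) || (some x.s₁ == J.o && x.s₂ == some J.s))

/-- The check of all edges. -/
def covJ (T T' : Vt → Vt → Rg) (L : List Inst) (J : Vt) : Bool :=
  (types J.s).all fun I => covE T T' L J I

def cov (T T' : Vt → Vt → Rg) (L : List Inst) : Bool :=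
  (types false ++ types true).all fun J => covJ T T' (L.filter (fits J)) J

theorem covE_of {T T' : Vt → Vt → Rg} {L : List Inst} (hc : cov T T' L = true) {J I : Vt}
    (hJ : J.ok = true) (hI : I.ok = true) (hs : J.s = I.s) :
    covE T T' (L.filter (fits J)) J I = true := by
  unfold cov at hc
  rw [List.all_eq_true] at hc
  have h1 := hc J (by
    have := mem_types hJ
    rw [List.mem_append]
    rcases h : J.s with _ | _
    · left; rw [h] at this; exact this
    · right; rw [h] at this; exact this)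
  unfold covJ at h1
  rw [List.all_eq_true] at h1
  exact h1 I (by rw [hs]; exact mem_types hI)

/-- **One step.** -/
theorem Tab.step {a : ι → ℝ} {n : ι → ℕ} {nl nr : ι → Option (ι × Bool)} {z : ι → ℂ}
    (h : Zr true a nl nr (gC a nl nr) 1 z) (hC : Ch a nl nr) (h3 : In3 a nl nr z)
    (hn : ChT a n nl nr) {T T' : Vt → Vt → Rg} (hT : Tab T n nl nr z) {L : List Inst}
    (hL : ∀ x ∈ L, x.Ok) (hc : cov T T' L = true) : Tab T' n nl nr z := by
  intro i j s o o' hi hj
  have hJ := hn.v i j s o hi
  have hI := hn.v j i s o' hj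
  have hcov := covE_of hc hJ hI rfl
  have hL' : ∀ x ∈ L.filter (fits ⟨n i, s, kd o⟩), x.Ok := fun x hx =>
    hL x (List.mem_of_mem_filter hx)
  generalize L.filter (fits ⟨n i, s, kd o⟩) = L' at hcov hL'
  unfold covE at hcov
  rw [hJ, hI, Bool.and_true, Bool.not_true, Bool.false_or, Bool.or_eq_true] at hcov
  have hown := hT i j s o o' hi hj
  rcases hcov with hcov | hcov
  · exact hown.sub hcov
  have hrI := hT j i s o' o hj hi
  cases o with
  | none =>
    simp only [kd, Option.map_none, List.any_eq_true] at hcov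
    obtain ⟨x, hx, hh⟩ := hcov
    unfold hit0 at hh
    simp only [Bool.and_eq_true, Nat.beq_eq, beq_iff_eq] at hh
    obtain ⟨e1, ⟨e2, e3, e4⟩, e7, e5⟩ := hh
    have := h.app hC h3 (hL' x hx) (i := i) (j := j) (o := none) (by rw [e1]; exact hn.hA i)
      (by rw [e2]; exact hi) (by rw [e3]; rfl) (hown.sub e7) (hrI.sub e4)
      (by intro j' s' e; simp at e)
    exact (InR.capR hown this).sub e5
  | some ks =>
    obtain ⟨k, s'⟩ := ks
    have hk : ∃ o'', At nl nr k (some (i, s')) o'' := by
      have h1 : nl i = some (k, s') ∨ nr i = some (k, s') := by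
        rcases hi with ⟨-, h2⟩ | ⟨h2, -⟩
        · exact Or.inr h2
        · exact Or.inl h2
      rcases hC.N.symm i k s' h1 with h2 | h2
      · exact ⟨_, Or.inl ⟨h2, rfl⟩⟩
      · exact ⟨_, Or.inr ⟨rfl, h2⟩⟩
    obtain ⟨o'', hk⟩ := hk
    have hK := hn.v k i s' o'' hk
    have had := hn.d i j k s s' o' o'' hi hj hk
    have hrK := hT k i s' o'' (some (j, s)) hk hi.sw
    have hown' := InR.capR hown (hT i k s' (some (j, s)) o'' hi.sw hk)
    simp only [kd, Option.map_some, List.all_eq_true] at hcov
    have h4 := hcov ⟨n k, s', kd o''⟩ (mem_types hK)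
    rw [hK] at h4
    simp only [kd, Option.map_some] at h4 had hrI hrK hown'
    rw [had, Bool.and_true, Bool.not_true, Bool.false_or, Bool.or_eq_true, List.any_eq_true] at h4
    rcases h4 with h4 | h4
    · exact hown'.sub h4
    obtain ⟨x, hx, hh⟩ := h4
    unfold hit at hh
    simp only [Bool.and_eq_true, Bool.or_eq_true, Nat.beq_eq, beq_iff_eq, Vt.sw] at hh
    rcases hh with ⟨e1, ⟨e2, e3, e4, e5⟩ | ⟨e2, e3, e4, e5⟩, e7, e6⟩
    · have := h.app hC h3 (hL' x hx) (i := i) (j := j) (o := some (k, s')) (by rw [e1]; exact hn.hA i)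
        (by rw [e2]; exact hi) (by rw [e3]; rfl) (hown'.sub e7) (hrI.sub e4) (by
          intro j' s'' e
          rw [Option.some.injEq, Prod.mk.injEq] at e
          rw [← e.1]
          exact hrK.sub e5)
      exact (InR.capR hown' this).sub e6
    · have es : x.s₁ = s' := by simpa using e2
      have := h.app hC h3 (hL' x hx) (i := i) (j := k) (o := some (j, s)) (by rw [e1]; exact hn.hA i)
        (by rw [es]; exact hi.sw) (by rw [e3]; rfl) (hown'.sub e7) (hrK.sub e4) (by
          intro j' s'' e
          rw [Option.some.injEq, Prod.mk.injEq] at e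
          rw [← e.1]
          exact hrI.sub e5)
      exact (InR.capR hown' this).sub e6

end Pool.Agent.S5.E
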