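import Pool.Agent.S5.E.T.Cov
import Pool.Agent.S5.E.T.Start

/-!
# Mixed chains, block E: the tables of boxes, one step with packed tables
-/

set_option autoImplicit false

namespace Pool.Agent.S5.E

open Complex
open Pool.Agent.S5.E.B2

variable {ι : Type*}

/-- **One step**, with the checks of the edges. -/
theorem Tab.stepE {a : ι → ℝ} {n : ι → ℕ} {nl nr : ι → Option (ι × Bool)} {z : ι → ℂ}
    (h : Zr true a nl nr (gC a nl nr) 1 z) (hC : Ch a nl nr) (h3 : In3 a nl nr z)
    (hn : ChT a n nl nr) {T T' : Vt → Vt → Rg} (hT : Tab T n nl nr z) {L : List Inst}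
    (hL : ∀ x ∈ L, x.Ok) (hc : ∀ J I, J.ok = true → I.ok = true → J.s = I.s → covE T T' L J I = true) :
    Tab T' n nl nr z := by
  intro i j s o o' hi hj
  have hJ := hn.v i j s o hi
  have hI := hn.v j i s o' hj
  have hcov := hc _ _ hJ hI rfl
  unfold covE at hcov
  rw [hJ, hI, Bool.and_true, Bool.not_true, Bool.false_or, Bool.or_eq_true] at hcov
  have hown := hT i j s o o' hi hj
  rcases hcov with hcov | hcov
  · exact hown.sub hcov
  have hrI := hT j i s o' o hj hi
  cases o with
  | none =>
    simp only [kd, Option.map_none, List.any_eq_true] at hcov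
    obtain ⟨x, hx, hh⟩ := hcov
    unfold hit0 at hh
    simp only [Bool.and_eq_true, Nat.beq_eq, beq_iff_eq] at hh
    obtain ⟨e1, ⟨e2, e3, e4⟩, e7, e5⟩ := hh
    have := h.app hC h3 (hL x hx) (i := i) (j := j) (o := none) (by rw [e1]; exact hn.hA i)
      (by rw [e2]; exact hi) (by rw [e3]; rfl) (hown.sub e7) (hrI.sub e4)
      (by intro j' s' e; simp at e)
    exact (InR.capR hown this).sub e5
  | some ks =>
    obtain ⟨k, s'⟩ := ks
    have hk : ∃ o'', At nl nr k (some (i, s')) o'' := by
      have h1 : nl i = some (k, s') ∨ nr i = some (k, s') := by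
        rcases hi with ⟨-, h2⟩ | ⟨h2, -⟩
        · exact Or.inr h2
        · exact Or.inl h2
      rcases hC.N.symm i k s' h1 with h2 | h2
      · exact ⟨_, Or.inl ⟨h2, rfl⟩⟩
      · exact ⟨_, Or.inr ⟨rfl, h2⟩⟩
    obtain ⟨o'', hk⟩ := hk
    have hK := hn.v k i s' o'' hk
    have had := hn.d i j k s s' o' o'' hi hj hk
    have hrK := hT k i s' o'' (some (j, s)) hk hi.sw
    have hown' := InR.capR hown (hT i k s' (some (j, s)) o'' hi.sw hk)
    simp only [kd, Option.map_some, List.all_eq_true] at hcov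
    have h4 := hcov ⟨n k, s', kd o''⟩ (mem_types hK)
    rw [hK] at h4
    simp only [kd, Option.map_some] at h4 had hrI hrK hown'
    rw [had, Bool.and_true, Bool.not_true, Bool.false_or, Bool.or_eq_true, List.any_eq_true] at h4
    rcases h4 with h4 | h4
    · exact hown'.sub h4
    obtain ⟨x, hx, hh⟩ := h4
    unfold hit at hh
    simp only [Bool.and_eq_true, Bool.or_eq_true, Nat.beq_eq, beq_iff_eq, Vt.sw] at hh
    rcases hh with ⟨e1, ⟨e2, e3, e4, e5⟩ | ⟨e2, e3, e4, e5⟩, e7, e6⟩
    · have := h.app hC h3 (hL x hx) (i := i) (j := j) (o := some (k, s')) (by rw [e1]; exact hn.hA i)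
        (by rw [e2]; exact hi) (by rw [e3]; rfl) (hown'.sub e7) (hrI.sub e4) (by
          intro j' s'' e
          rw [Option.some.injEq, Prod.mk.injEq] at e
          rw [← e.1]
          exact hrK.sub e5)
      exact (InR.capR hown' this).sub e6
    · have es : x.s₁ = s' := by simpa using e2
      have := h.app hC h3 (hL x hx) (i := i) (j := k) (o := some (j, s)) (by rw [e1]; exact hn.hA i)
        (by rw [es]; exact hi.sw) (by rw [e3]; rfl) (hown'.sub e7) (hrK.sub e4) (by
          intro j' s'' e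
          rw [Option.some.injEq, Prod.mk.injEq] at e
          rw [← e.1]
          exact hrI.sub e5)
      exact (InR.capR hown' this).sub e6


/-- One step with packed tables. -/
theorem Tab.stepP {a : ι → ℝ} {n : ι → ℕ} {nl nr : ι → Option (ι × Bool)} {z : ι → ℂ}
    (h : Zr true a nl nr (gC a nl nr) 1 z) (hC : Ch a nl nr) (h3 : In3 a nl nr z)
    (hn : ChT a n nl nr) {A S A' S' : ℕ} (hT : Tab (tabP A S) n nl nr z) {L : List Inst}
    (hL : ∀ x ∈ L, x.Ok) (hc : covF A S A' S' L = true) : Tab (tabP A' S') n nl nr z :=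
  Tab.stepE h hC h3 hn hT hL fun _ _ hJ hI hs => covF_sound hc hJ hI hs

/-- The table `T'` is weaker than `T`. -/
def conv (T T' : Vt → Vt → Rg) : Bool :=
  [false, true].all fun s => (types s).all fun J => !J.ok || (types s).all fun I =>
    !I.ok || Sb (T J I) (T' J I)

theorem Tab.conv {a : ι → ℝ} {n : ι → ℕ} {nl nr : ι → Option (ι × Bool)} {z : ι → ℂ}
    (hn : ChT a n nl nr) {T T' : Vt → Vt → Rg} (hT : Tab T n nl nr z)
    (hc : E.conv T T' = true) : Tab T' n nl nr z := by
  intro i j s o o' hi hj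
  have hJ := hn.v i j s o hi
  have hI := hn.v j i s o' hj
  unfold E.conv at hc
  rw [List.all_eq_true] at hc
  have h1 := hc s (by cases s <;> simp)
  rw [List.all_eq_true] at h1
  have h2 := h1 _ (mem_types hJ)
  rw [hJ, Bool.not_true, Bool.false_or, List.all_eq_true] at h2
  have h3 := h2 _ (mem_types hI)
  rw [hI, Bool.not_true, Bool.false_or] at h3
  exact (hT i j s o o' hi hj).sub h3

end Pool.Agent.S5.E
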