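import Pool.Agent.S5.E.T.Start

/-!
# Mixed chains, block E: the tables of boxes, the first table
-/

set_option autoImplicit false

namespace Pool.Agent.S5.E

open Complex
open Pool.Agent.S5.E.B2
open Pool.Agent.S3.E (al ph tt k2 s2)

/-- The first table. -/
def T0 (J I : Vt) : Rg :=
  bif Nat.beq J.a 2 then
    bif J.s then ⟨660, 1080, 340, 1035, 0⟩
    else match J.o with
      | some false => ⟨690, 1050, 200, 760, 0⟩
      | some true =>
        bif Nat.beq I.a 2 then
          match I.o with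
          | none => ⟨660, 1020, 370, 930, 0⟩
          | some true => ⟨700, 1020, 365, 760, 0⟩
          | some false => ⟨690, 1060, 340, 900, 0⟩
        else ⟨670, 1080, 400, 1035, 0⟩
      | none =>
        bif Nat.beq I.a 2 then
          match I.o with
          | none => ⟨494, 742, 414, 1000, 0⟩
          | some true => ⟨574, 715, 435, 697, 0⟩
          | some false => ⟨587, 725, 496, 820, 0⟩
        else ⟨543, 708, 553, 1000, 0⟩
  else bif J.s && !(J.o == some false) then ⟨530, 1000, 0, 777, 0⟩ else ⟨590, 1000, 0, 627, 0⟩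

namespace Zr

variable {ι : Type*} {a : ι → ℝ} {n : ι → ℕ} {nl nr : ι → Option (ι × Bool)} {z : ι → ℂ}

/-- An end vertex with two half twists, without information about the neighbour. -/
theorem end_crude (h : Zr true a nl nr (gC a nl nr) 1 z) {i j : ι} (hi : a i = 2)
    (he : IsE nl nr i j) : InR ⟨490, 1100, 0, 1000, 0⟩ (cos (z i)).re (-(cos (z i)).im) := by
  have hT := (h.K.1.2 i).2
  obtain ⟨-, e2⟩ := h.k_end hi he
  have hbe : 0 ≤ be true 1 z (some (j, false)) := by
    rw [h.be_A]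
    exact mul_nonneg (h.ex_mem false).1 (h.phpos j).le
  have hph : ph (z i).re (z i).im ≤ Real.pi / 4 := by rw [e2]; linarith
  have h0 := (h.phpos i).le
  have hsc : Real.sin (ph (z i).re (z i).im) ≤ Real.cos (ph (z i).re (z i).im) := by
    rw [← Real.cos_pi_div_two_sub]
    apply Real.cos_le_cos_of_nonneg_of_le_pi h0 <;> linarith [Real.pi_pos]
  have hk := h.norm_pos i
  refine ⟨(h.re_pos i).le, (h.v0 i).le, ?_, ?_, ?_, ?_, ?_⟩
  · rw [h.norm_sq_cos]
    norm_num
    have := hT.1
    nlinarith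
  · rw [h.norm_sq_cos]
    norm_num
    have := hT.2.1
    nlinarith
  · have := (h.v0 i).le
    norm_num
    linarith
  · rw [h.cos_re, h.cos_im]
    norm_num
    exact mul_le_mul_of_nonneg_left hsc hk.le
  · have := mul_nonneg (h.re_pos i).le (h.v0 i).le
    norm_num
    linarith

theorem At.eE {i j : ι} {s : Bool} {o : Option (ι × Bool)} (h : At nl nr i (some (j, s)) o) {k : ι}
    (he : IsE nl nr i k) : j = k ∧ s = false ∧ o = none := by
  rcases h with ⟨h1, h2⟩ | ⟨h1, h2⟩ <;> rcases he with ⟨h3, h4⟩ | ⟨h3, h4⟩ <;> simp_all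

theorem At.eT {i j : ι} {s : Bool} {o : Option (ι × Bool)} (h : At nl nr i (some (j, s)) o) {k l : ι}
    (he : IsT nl nr i k l) : s = false ∧ kd o = some false := by
  obtain ⟨h3, h4⟩ := he
  rcases h with ⟨h1, h2⟩ | ⟨h1, h2⟩ <;> simp_all [kd]

theorem At.eS {i j : ι} {s : Bool} {o : Option (ι × Bool)} (h : At nl nr i (some (j, s)) o) {k l : ι}
    (he : Sp nl nr i k l) :
    (s = false ∧ j = k ∧ kd o = some true) ∨ (s = true ∧ j = l ∧ kd o = some false) := by
  rcases he with ⟨h3, h4⟩ | ⟨h3, h4⟩ <;> rcases h with ⟨h1, h2⟩ | ⟨h1, h2⟩ <;>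
    cases s <;> simp_all [kd]

theorem sp_of_P (hC : Ch a nl nr) {j : ι} (hj : cls a nl nr j = rP) :
    a j = 2 ∧ ∃ k l, Sp nl nr j k l := by
  rcases hC.a2 j with h2 | h2
  · refine ⟨h2, ?_⟩
    rcases hC.ty h2 with ⟨j', k', h1, c⟩ | ⟨j', l', h1, hj', hl', c⟩ | ⟨j', l', h1, hj', he, hl', c⟩ |
      ⟨j', l', h1, hj', hl', c⟩ | ⟨j', l', h1, hj', hl', c⟩ | ⟨j', h1⟩
    · rw [hj] at c; exact absurd (congrArg Rg.k0 c) (by decide)
    · exact ⟨_, _, h1⟩
    · exact ⟨_, _, h1⟩
    · exact ⟨_, _, h1⟩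
    · exact ⟨_, _, h1⟩
    · rw [cls_E h1] at hj; exact absurd (congrArg Rg.k0 hj) (by decide)
  · rw [cls_3 h2] at hj; exact absurd (congrArg Rg.k0 hj) (by decide)

theorem t_of_T (hC : Ch a nl nr) {j : ι} (hj : cls a nl nr j = rT) :
    a j = 2 ∧ ∃ k l, IsT nl nr j k l := by
  rcases hC.a2 j with h2 | h2
  · refine ⟨h2, ?_⟩
    rcases hC.ty h2 with ⟨j', k', h1, c⟩ | ⟨j', l', h1, hj', hl', c⟩ | ⟨j', l', h1, hj', he, hl', c⟩ |
      ⟨j', l', h1, hj', hl', c⟩ | ⟨j', l', h1, hj', hl', c⟩ | ⟨j', h1⟩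
    · exact ⟨_, _, h1⟩
    · rw [hj] at c; exact absurd (congrArg Rg.k0 c) (by decide)
    · rw [hj] at c; exact absurd (congrArg Rg.k0 c) (by decide)
    · rw [hj] at c; exact absurd (congrArg Rg.k0 c) (by decide)
    · rw [hj] at c; exact absurd (congrArg Rg.t0 c) (by decide)
    · rw [cls_E h1] at hj; exact absurd (congrArg Rg.k0 hj) (by decide)
  · rw [cls_3 h2] at hj; exact absurd (congrArg Rg.k0 hj) (by decide)

theorem tab0 (h : Zr true a nl nr (gC a nl nr) 1 z) (hC : Ch a nl nr) (h3 : In3 a nl nr z)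
    (hn : ChT a n nl nr) : Tab T0 n nl nr z := by
  intro i j s o o' hi hj
  have hA := hn.hA i
  have hB := hn.hA j
  have two : ∀ x, a x = 2 → n x = 2 := by
    intro x hx
    have := hn.hA x
    unfold HasA at this
    split_ifs at this with h6
    · obtain ⟨k, hk, hk'⟩ := this
      have : (8 : ℝ) ≤ k := by exact_mod_cast hk
      linarith
    · rw [hx] at this; exact_mod_cast this.symm
  have nt : ∀ x, 3 ≤ a x → Nat.beq (n x) 2 = false := by
    intro x hx
    rw [← Bool.not_eq_true, Nat.beq_eq]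
    intro h2
    have := hn.hA x
    unfold HasA at this
    rw [h2] at this
    norm_num at this
    linarith
  have hreg := h.reg i
  rcases hC.a2 i with h2 | h2
  · have hni := two i h2
    rcases hC.ty h2 with ⟨j', k', h1, c⟩ | ⟨j', l', h1, hj', hl', c⟩ | ⟨j', l', h1, hj', he, hl', c⟩ |
      ⟨j', l', h1, hj', hl', c⟩ | ⟨j', l', h1, hj', hl', c⟩ | ⟨j', h1⟩
    · rw [c] at hreg
      obtain ⟨rfl, e⟩ := At.eT hi h1
      rw [e, hni]
      exact hreg
    · rw [c] at hreg
      rcases At.eS hi h1 with ⟨rfl, rfl, e⟩ | ⟨rfl, rfl, e⟩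
      · rw [e, hni]
        unfold T0
        dsimp only
        rw [nt j hj']
        exact hreg
      · rw [hni]
        exact hreg.sub (r' := ⟨660, 1080, 340, 1035, 0⟩) (by decide)
    · rw [c] at hreg
      rcases At.eS hi h1 with ⟨rfl, rfl, e⟩ | ⟨rfl, rfl, e⟩
      · obtain ⟨-, -, e'⟩ := At.eE hj he
        rw [e, hni, two j hj', e']
        exact hreg
      · rw [hni]
        exact hreg.sub (r' := ⟨660, 1080, 340, 1035, 0⟩) (by decide)
    · rw [c] at hreg
      rcases At.eS hi h1 with ⟨rfl, rfl, e⟩ | ⟨rfl, rfl, e⟩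
      · obtain ⟨hj2, l'', hs⟩ := sp_of_P hC hj'
        rcases At.eS hj hs.choose_spec with ⟨-, -, e'⟩ | ⟨e', -, -⟩
        · rw [e, hni, two j hj2, e']
          exact hreg.sub (r' := ⟨700, 1020, 365, 760, 0⟩) (by decide)
        · exact absurd e' (by simp)
      · rw [hni]
        exact hreg.sub (r' := ⟨660, 1080, 340, 1035, 0⟩) (by decide)
    · rw [c] at hreg
      rcases At.eS hi h1 with ⟨rfl, rfl, e⟩ | ⟨rfl, rfl, e⟩
      · obtain ⟨hj2, l'', k'', hs⟩ := t_of_T hC hj'
        obtain ⟨-, e'⟩ := At.eT hj hs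
        rw [e, hni, two j hj2, e']
        exact hreg
      · rw [hni]
        exact hreg.sub (r' := ⟨660, 1080, 340, 1035, 0⟩) (by decide)
    · obtain ⟨rfl, rfl, rfl⟩ := At.eE hi h1
      have hcE := cls_E (a := a) h1
      rcases hC.a2 j with h5 | h5
      · have hnj := two j h5
        have hregj := h.reg j
        rcases hC.ty h5 with ⟨j', k', g1, c⟩ | ⟨j', l', g1, gj', gl', c⟩ |
          ⟨j', l', g1, gj', ge, gl', c⟩ | ⟨j', l', g1, gj', gl', c⟩ | ⟨j', l', g1, gj', gl', c⟩ |
          ⟨j', g1⟩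
        · rw [c] at hregj
          obtain ⟨-, e⟩ := At.eT hj g1
          rw [hni, hnj, e]
          exact h.slotE1 rfl h2 h1 (r' := ⟨587, 725, 496, 820, 0⟩) hregj (by decide)
        · rcases At.eS hj g1 with ⟨-, rfl, e⟩ | ⟨e, -, -⟩
          · linarith
          · exact absurd e (by simp)
        · rw [c] at hregj
          rcases At.eS hj g1 with ⟨-, rfl, e⟩ | ⟨e, -, -⟩
          · rw [hni, hnj, e]
            exact h.slotE1 rfl h2 h1 (r' := ⟨574, 715, 435, 697, 0⟩) hregj (by decide)
          · exact absurd e (by simp)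
        · rcases At.eS hj g1 with ⟨-, rfl, e⟩ | ⟨e, -, -⟩
          · rw [hcE] at gj'
            exact absurd (congrArg Rg.k0 gj') (by decide)
          · exact absurd e (by simp)
        · rcases At.eS hj g1 with ⟨-, rfl, e⟩ | ⟨e, -, -⟩
          · rw [hcE] at gj'
            exact absurd (congrArg Rg.k0 gj') (by decide)
          · exact absurd e (by simp)
        · obtain ⟨-, -, e⟩ := At.eE hj g1
          rw [hni, hnj, e]
          exact h.slotE1 rfl h2 h1 (r' := ⟨494, 742, 414, 1000, 0⟩) (h.end_crude h5 g1) (by decide)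
      · rw [hni]
        unfold T0
        dsimp only
        rw [nt j h5]
        have hr := h3.a3 j i h5 (by
          rcases hj with ⟨h6, -⟩ | ⟨-, h6⟩
          · exact Or.inl h6
          · exact Or.inr h6)
        exact h.slotE1 rfl h2 h1 (r' := ⟨543, 708, 553, 1000, 0⟩) hr (by decide)
  · have hr3 := h3.s3 i h2
    unfold T0
    dsimp only
    rw [nt i h2, cond_false]
    by_cases hb : (s && !(kd o == some false)) = true
    · rw [hb, cond_true]
      exact hr3
    · rw [Bool.not_eq_true] at hb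
      rw [hb, cond_false]
      cases s
      · refine h3.a3 i j h2 ?_
        rcases hi with ⟨h5, -⟩ | ⟨-, h5⟩
        · exact Or.inl h5
        · exact Or.inr h5
      · rw [Bool.true_and, Bool.not_eq_false', beq_iff_eq] at hb
        cases o with
        | none => simp [kd] at hb
        | some ks =>
          obtain ⟨k, s'⟩ := ks
          simp only [kd, Option.map_some, Option.some.injEq] at hb
          subst hb
          refine h3.a3 i k h2 ?_
          rcases hi with ⟨-, h5⟩ | ⟨h5, -⟩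
          · exact Or.inr h5
          · exact Or.inl h5

end Zr

end Pool.Agent.S5.E
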