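import Pool.Agent.S5.E.T.CovV

/-!
# Mixed chains, block E: the regions of the neighbours, by the neighbour on the other side

`TabN J W z`: if `i` is a vertex of the type `J` with the neighbours `j` (through the slot of `J`) and
`k`, then `j` is in the region `W (type of j) (type of k)`.
-/

set_option autoImplicit false

namespace Pool.Agent.S5.E

open Complex
open Pool.Agent.S5.E.B2

variable {ι : Type*}

/-- The regions of the first neighbours of the vertices of the type `J`, by both neighbours. -/
def TabN (J : Vt) (W : Vt → Vt → Rg) (n : ι → ℕ) (nl nr : ι → Option (ι × Bool)) (z : ι → ℂ) :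
    Prop :=
  ∀ i j k s' o₁ o₂, J.o = some s' → n i = J.a → At nl nr i (some (j, J.s)) (some (k, s')) →
    At nl nr j (some (i, J.s)) o₁ → At nl nr k (some (i, s')) o₂ →
    InR (W ⟨n j, J.s, kd o₁⟩ ⟨n k, s', kd o₂⟩) (cos (z j)).re (-(cos (z j)).im)

/-- The check. -/
def covNb (T : Vt → Vt → Rg) (J : Vt) (V W : Vt → Vt → Rg) (L : List Inst) : Bool :=
  match J.o with
  | none => true
  | some s' => (types J.s).all fun I => !I.ok || (types s').all fun K =>
      !(K.ok && adm J I K) || (Sb (T I J) (W I K) ||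
        match I.o with
        | none => L.any fun x => hit0 x I (V I K) (T I J) (W I K)
        | some t => (types t).all fun M => !(M.ok && adm I J M) ||
            L.any fun x => hit x I (V I K) (T M I.sw) (capR (T I J) (T I.sw M)) (W I K))

theorem nb_at {a : ι → ℝ} {nl nr : ι → Option (ι × Bool)} (hC : Ch a nl nr) {i j : ι} {s : Bool}
    {o : Option (ι × Bool)} (h : At nl nr i (some (j, s)) o) :
    ∃ o', At nl nr j (some (i, s)) o' := by
  have h1 : nl i = some (j, s) ∨ nr i = some (j, s) := by
    rcases h with ⟨h2, -⟩ | ⟨-, h2⟩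
    · exact Or.inl h2
    · exact Or.inr h2
  rcases hC.N.symm i j s h1 with h2 | h2
  · exact ⟨_, Or.inl ⟨h2, rfl⟩⟩
  · exact ⟨_, Or.inr ⟨rfl, h2⟩⟩

/-- **The regions of the neighbours.** -/
theorem TabV.nb {a : ι → ℝ} {n : ι → ℕ} {nl nr : ι → Option (ι × Bool)} {z : ι → ℂ}
    (h : Zr true a nl nr (gC a nl nr) 1 z) (hC : Ch a nl nr) (h3 : In3 a nl nr z)
    (hn : ChT a n nl nr) {T : Vt → Vt → Rg} (hT : Tab T n nl nr z) {J : Vt} {V W : Vt → Vt → Rg}
    (hV : TabV J V n nl nr z) {L : List Inst} (hL : ∀ x ∈ L, x.Ok) (hc : covNb T J V W L = true) :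
    TabN J W n nl nr z := by
  intro i j k s' o₁ o₂ eo ea hi hj hk
  obtain ⟨Ja, s, Jo⟩ := J
  dsimp only at eo ea hi hj ⊢
  subst eo
  subst ea
  have hI := hn.v j i s o₁ hj
  have hK := hn.v k i s' o₂ hk
  have had := hn.d i j k s s' o₁ o₂ hi hj hk
  have hown := hT j i s o₁ (some (k, s')) hj hi
  have hrI := hV i j k s' o₁ o₂ rfl rfl hi hj hk
  unfold covNb at hc
  dsimp only at hc
  rw [List.all_eq_true] at hc
  have h1 := hc ⟨n j, s, kd o₁⟩ (mem_types hI)
  rw [hI, Bool.not_true, Bool.false_or, List.all_eq_true] at h1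
  have h4 := h1 ⟨n k, s', kd o₂⟩ (mem_types hK)
  rw [hK, had, Bool.and_true, Bool.not_true, Bool.false_or, Bool.or_eq_true] at h4
  rcases h4 with h4 | h4
  · exact hown.sub h4
  cases o₁ with
  | none =>
    simp only [kd, Option.map_none, List.any_eq_true] at h4 hrI hown ⊢
    obtain ⟨x, hx, hh⟩ := h4
    unfold hit0 at hh
    simp only [Bool.and_eq_true, Nat.beq_eq, beq_iff_eq] at hh
    obtain ⟨e1, ⟨e2, e3, e4⟩, e7, e5⟩ := hh
    have := h.app hC h3 (hL x hx) (i := j) (j := i) (o := none) (by rw [e1]; exact hn.hA j)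
      (by rw [e2]; exact hj) (by rw [e3]; rfl) (hown.sub e7) (hrI.sub e4)
      (by intro j' s' e; simp at e)
    exact (InR.capR hown this).sub e5
  | some mt =>
    obtain ⟨m, t⟩ := mt
    obtain ⟨o', hm⟩ := nb_at hC hj.sw
    have hM := hn.v m j t o' hm
    have had' := hn.d j i m s t (some (k, s')) o' hj hi hm
    have hrM := hT m j t o' (some (i, s)) hm hj.sw
    have hown' := InR.capR hown (hT j m t (some (i, s)) o' hj.sw hm)
    simp only [kd, Option.map_some, List.all_eq_true] at h4 had' hrM hown' hrI ⊢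
    have h5 := h4 ⟨n m, t, Option.map Prod.snd o'⟩ (by
      have := mem_types hM
      simpa only [kd] using this)
    have hM' : Vt.ok ⟨n m, t, Option.map Prod.snd o'⟩ = true := by simpa only [kd] using hM
    rw [hM', had', Bool.and_true, Bool.not_true, Bool.false_or, List.any_eq_true] at h5
    obtain ⟨x, hx, hh⟩ := h5
    unfold hit at hh
    simp only [Bool.and_eq_true, Bool.or_eq_true, Nat.beq_eq, beq_iff_eq, Vt.sw] at hh
    rcases hh with ⟨e1, ⟨e2, e3, e4, e5⟩ | ⟨e2, e3, e4, e5⟩, e7, e6⟩
    · have := h.app hC h3 (hL x hx) (i := j) (j := i) (o := some (m, t))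
        (by rw [e1]; exact hn.hA j)
        (by rw [e2]; exact hj) (by rw [e3]; rfl) (hown'.sub e7) (hrI.sub e4) (by
          intro j' s'' e
          rw [Option.some.injEq, Prod.mk.injEq] at e
          rw [← e.1]
          exact hrM.sub e5)
      exact (InR.capR hown' this).sub e6
    · have es : x.s₁ = t := by simpa using e2
      have := h.app hC h3 (hL x hx) (i := j) (j := m) (o := some (i, s))
        (by rw [e1]; exact hn.hA j)
        (by rw [es]; exact hj.sw) (by rw [e3]; rfl) (hown'.sub e7) (hrM.sub e4) (by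
          intro j' s'' e
          rw [Option.some.injEq, Prod.mk.injEq] at e
          rw [← e.1]
          exact hrI.sub e5)
      exact (InR.capR hown' this).sub e6

end Pool.Agent.S5.E
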