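import Pool.Agent.S5.E.T.WFin
import Pool.Agent.S5.E.T.RF

/-!
# Mixed chains, block E: the regions of the neighbours of the vertices with two half twists

`W9 J me K`: the region of the neighbour `J` of the vertex `me` with two half twists and the other
neighbour `K`.
-/

set_option autoImplicit false

namespace Pool.Agent.S5.E

open Complex
open Pool.Agent.S5.E.B2

/-- A special vertex with two half twists, seen from its `A` edge. -/
def isP (K : Vt) : Bool := Nat.beq K.a 2 && K.o == some true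

/-- The regions of the neighbour `J` of `me`; `K` is the other neighbour. -/
def W9 (J me K : Vt) : Rg :=
  match J.o with
  | none => bif me.s then (bif isP K then capR (W9S K J) (UF J) else W9S K J)
      else bif me.o == some true then W9T K J else W9A K J
  | some _ => bif me.s then
        (bif isP K then (bif Nat.beq J.a 2 then UF2 else UF J) else Tfin J me)
      else bif me.o == some true && isP J then (bif Nat.beq K.a 2 then ZF2 else ZF K)
      else Tfin J me

section gen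

variable {ι : Type*} {a : ι → ℝ} {n : ι → ℕ} {nl nr : ι → Option (ι × Bool)} {z : ι → ℂ}

/-- The regions of the neighbours of the vertices with two half twists. -/
def TabW3 (W : Vt → Vt → Vt → Rg) (n : ι → ℕ) (nl nr : ι → Option (ι × Bool)) (z : ι → ℂ) : Prop :=
  ∀ i j k s s' o₁ o₂, n i = 2 → At nl nr i (some (j, s)) (some (k, s')) →
    At nl nr j (some (i, s)) o₁ → At nl nr k (some (i, s')) o₂ →
    InR (W ⟨n j, s, kd o₁⟩ ⟨2, s, some s'⟩ ⟨n k, s', kd o₂⟩) (cos (z j)).re (-(cos (z j)).im)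

theorem isP_iff {m : ℕ} {s : Bool} {o : Option (ι × Bool)} (h : isP ⟨m, s, kd o⟩ = true) :
    m = 2 ∧ ∃ k, o = some (k, true) := by
  unfold isP at h
  rw [Bool.and_eq_true] at h
  obtain ⟨h1, h2⟩ := h
  have h1' : m = 2 := Nat.eq_of_beq_eq_true h1
  refine ⟨h1', ?_⟩
  rcases o with _ | ⟨k, t⟩
  · simp [kd] at h2
  · cases t
    · simp [kd] at h2
    · exact ⟨k, rfl⟩

theorem Zr.tabW9 (h : Zr true a nl nr (gC a nl nr) 1 z) (hC : Ch a nl nr)
    (h3 : In3 a nl nr z) (hn : ChT a n nl nr) : TabW3 W9 n nl nr z := by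
  have hT := h.tab_fin hC h3 hn
  obtain ⟨hQ, hU, hZ⟩ := h.tab_pair hC h3 hn
  have hS := h.tabW_S hC h3 hn
  have hWT := h.tabW_T hC h3 hn
  have hA := h.tabW_A hC h3 hn
  intro i j k s s' o₁ o₂ hi hij hji hki
  have hI := hn.v i j s (some (k, s')) hij
  rw [hi] at hI
  have hTJ := hT j i s o₁ (some (k, s')) hji hij
  rw [hi] at hTJ
  simp only [kd, Option.map_some] at hTJ
  unfold W9
  cases s
  · -- `A` edge to `J`
    cases s'
    · rcases o₁ with _ | ⟨l, t⟩
      · simp only [kd, Option.map_none] at hTJ ⊢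
        have := hA i k j false o₂ rfl hi hij.sw hki hji
        simpa [kd] using this
      · simp only [kd, Option.map_some] at hTJ ⊢
        simpa using hTJ
    · rcases o₁ with _ | ⟨l, t⟩
      · simp only [kd, Option.map_none] at hTJ ⊢
        have := hWT i k j false o₂ rfl hi hij.sw hki hji
        simpa [kd] using this
      · simp only [kd, Option.map_some] at hTJ ⊢
        cases hp : isP ⟨n j, false, some t⟩
        · simpa using hTJ
        · obtain ⟨hj2, l', e⟩ := isP_iff (o := some (l, t)) hp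
          rw [Option.some.injEq, Prod.mk.injEq] at e
          obtain ⟨rfl, rfl⟩ := e
          have hp' : Pr n nl nr i j k l o₂ := ⟨hi, hj2, hij, hji, hki⟩
          cases hb : Nat.beq (n k) 2
          · have := hZ i j k l o₂ hp'
            simpa [kd] using this
          · have := (h.tab_two hC h3 hn hp' (Nat.eq_of_beq_eq_true hb)).2
            simpa [kd] using this
  · -- `S` edge to `J`
    cases s'
    · rcases o₁ with _ | ⟨l, t⟩
      · simp only [kd, Option.map_none] at hTJ ⊢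
        have h1 := hS i k j true o₂ rfl hi hij.sw hki hji
        simp only [kd] at h1
        cases hp : isP ⟨n k, false, Option.map Prod.snd o₂⟩
        · simpa using h1
        · obtain ⟨hk2, l', rfl⟩ := isP_iff (o := o₂) hp
          have h2 := hU i k j l' none ⟨hi, hk2, hij.sw, hki, hji⟩
          simp only [kd, Option.map_none] at h2
          exact InR.capR h1 h2
      · simp only [kd, Option.map_some] at hTJ ⊢
        cases hp : isP ⟨n k, false, Option.map Prod.snd o₂⟩
        · simpa using hTJ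
        · obtain ⟨hk2, l', rfl⟩ := isP_iff (o := o₂) hp
          have hp' : Pr n nl nr i k j l' (some (l, t)) := ⟨hi, hk2, hij.sw, hki, hji⟩
          cases hb : Nat.beq (n j) 2
          · have h2 := hU i k j l' (some (l, t)) hp'
            simpa [kd] using h2
          · have h2 := (h.tab_two hC h3 hn hp' (Nat.eq_of_beq_eq_true hb)).1
            simpa [kd] using h2
    · -- not possible
      exfalso
      unfold Vt.ok at hI
      simp [kd] at hI

end gen

section chain

variable {R : ℕ} {a : ℕ → ℕ} {S : ℕ → Bool}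

theorem tabW9_adm (h : AdmS R a S) (z : Fin (R + 1) → ℂ)
    (hz : Zr true (aF R a) (nlF R S) (nrF R S) (gC (aF R a) (nlF R S) (nrF R S)) 1 z) :
    TabW3 W9 (nF R a) (nlF R S) (nrF R S) z := by
  have hC := ch_of_adm h.toAdm
  exact hz.tabW9 hC (hz.in3 hC fun _ hi => aF_cases hi) (chT_of_adm h)

/-- In terms of the chain. -/
theorem TabW3.chain {W : Vt → Vt → Vt → Rg} {z : Fin (R + 1) → ℂ}
    (h : TabW3 W (nF R a) (nlF R S) (nrF R S) z) {i : ℕ} (hi : i + 1 < R) (h2 : a (i + 1) = 2) :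
    InR (W (vR a S i) (vL R a S (i + 1)) (vL R a S (i + 2))) (cos (z ⟨i, by omega⟩)).re
        (-(cos (z ⟨i, by omega⟩)).im) ∧
      InR (W (vL R a S (i + 2)) (vR a S (i + 1)) (vR a S i)) (cos (z ⟨i + 2, by omega⟩)).re
        (-(cos (z ⟨i + 2, by omega⟩)).im) := by
  have h0 : nlF R S ⟨i + 1, by omega⟩ = some (⟨i, by omega⟩, S i) := by
    rw [nlF_iff]; exact ⟨rfl, rfl⟩
  have h1 : nrF R S ⟨i + 1, by omega⟩ = some (⟨i + 2, by omega⟩, S (i + 1)) := by
    rw [nrF_iff]; exact ⟨rfl, rfl⟩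
  have h3 : nrF R S ⟨i, by omega⟩ = some (⟨i + 1, by omega⟩, S i) := by
    rw [nrF_iff]; exact ⟨rfl, rfl⟩
  have h4 : nlF R S ⟨i + 2, by omega⟩ = some (⟨i + 1, by omega⟩, S (i + 1)) := by
    rw [nlF_iff]; exact ⟨rfl, rfl⟩
  have hn2 : nF R a ⟨i + 1, by omega⟩ = 2 := by unfold nF; rw [h2]; rfl
  have e1 : (⟨nF R a ⟨i, by omega⟩, S i, kd (nlF R S ⟨i, by omega⟩)⟩ : Vt) = vR a S i :=
    vR_eq (i := ⟨i, by omega⟩)
  have e2 : (⟨nF R a ⟨i + 2, by omega⟩, S (i + 1), kd (nrF R S ⟨i + 2, by omega⟩)⟩ : Vt) =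
      vL R a S (i + 2) := vL_eq (i := ⟨i + 2, by omega⟩)
  have e3 : (⟨2, S i, some (S (i + 1))⟩ : Vt) = vL R a S (i + 1) := by
    have := vL_eq (R := R) (a := a) (S := S) (i := ⟨i + 1, by omega⟩)
    rw [h1, hn2] at this
    exact this
  have e4 : (⟨2, S (i + 1), some (S i)⟩ : Vt) = vR a S (i + 1) := by
    have := vR_eq (R := R) (a := a) (S := S) (i := ⟨i + 1, by omega⟩)
    rw [h0, hn2] at this
    exact this
  have b1 := h ⟨i + 1, by omega⟩ ⟨i, by omega⟩ ⟨i + 2, by omega⟩ (S i) (S (i + 1))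
    (nlF R S ⟨i, by omega⟩) (nrF R S ⟨i + 2, by omega⟩) hn2 (Or.inl ⟨h0, h1⟩) (Or.inr ⟨rfl, h3⟩)
    (Or.inl ⟨h4, rfl⟩)
  have b2 := h ⟨i + 1, by omega⟩ ⟨i + 2, by omega⟩ ⟨i, by omega⟩ (S (i + 1)) (S i)
    (nrF R S ⟨i + 2, by omega⟩) (nlF R S ⟨i, by omega⟩) hn2 (Or.inr ⟨h0, h1⟩) (Or.inl ⟨h4, rfl⟩)
    (Or.inr ⟨rfl, h3⟩)
  rw [e1, e2, e3] at b1
  rw [e1, e2, e4] at b2
  exact ⟨b1, b2⟩

end chain

end Pool.Agent.S5.E
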