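import Pool.Agent.S5.E.T.WEnd
import Pool.Agent.S5.E.T.Fin

/-!
# Mixed chains, block E: the regions of the end neighbours
-/

set_option autoImplicit false

namespace Pool.Agent.S5.E

open Complex
open Pool.Agent.S5.E.B2

section gen

variable {ι : Type*} {a : ι → ℝ} {n : ι → ℕ} {nl nr : ι → Option (ι × Bool)} {z : ι → ℂ}

/-- The `S` end neighbours of the special vertices, by the `A` neighbour. -/
theorem Zr.tabW_S (h : Zr true a nl nr (gC a nl nr) 1 z) (hC : Ch a nl nr) (h3 : In3 a nl nr z)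
    (hn : ChT a n nl nr) : TabW ⟨2, false, some true⟩ W9S n nl nr z :=
  (tabV_S h hC h3 hn (h.tab_fin hC h3 hn)).endW h hC h3 hn (h.tab_fin hC h3 hn) LW_ok covWS

/-- The `A` end neighbours of the special vertices, by the `S` neighbour. -/
theorem Zr.tabW_T (h : Zr true a nl nr (gC a nl nr) 1 z) (hC : Ch a nl nr) (h3 : In3 a nl nr z)
    (hn : ChT a n nl nr) : TabW ⟨2, true, some false⟩ W9T n nl nr z :=
  TabV.endW h hC h3 hn (h.tab_fin hC h3 hn) (V := fun I K => V9S K I)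
    (tabV_S h hC h3 hn (h.tab_fin hC h3 hn)).sw LW_ok covWT

/-- The end neighbours of the other vertices with two half twists, by the other neighbour. -/
theorem Zr.tabW_A (h : Zr true a nl nr (gC a nl nr) 1 z) (hC : Ch a nl nr) (h3 : In3 a nl nr z)
    (hn : ChT a n nl nr) : TabW ⟨2, false, some false⟩ W9A n nl nr z :=
  (tabV_A h hC h3 hn (h.tab_fin hC h3 hn)).endW h hC h3 hn (h.tab_fin hC h3 hn) LW_ok covWA

end gen

section chain

variable {R : ℕ} {a : ℕ → ℕ} {S : ℕ → Bool}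

theorem tabV_adm (h : AdmS R a S) (z : Fin (R + 1) → ℂ)
    (hz : Zr true (aF R a) (nlF R S) (nrF R S) (gC (aF R a) (nlF R S) (nrF R S)) 1 z) :
    TabV ⟨2, false, some true⟩ V9S (nF R a) (nlF R S) (nrF R S) z ∧
      TabV ⟨2, false, some false⟩ V9A (nF R a) (nlF R S) (nrF R S) z := by
  have hC := ch_of_adm h.toAdm
  have h3 := hz.in3 hC fun _ hi => aF_cases hi
  have hn := chT_of_adm h
  exact ⟨tabV_S hz hC h3 hn (hz.tab_fin hC h3 hn), tabV_A hz hC h3 hn (hz.tab_fin hC h3 hn)⟩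

theorem tabW_adm (h : AdmS R a S) (z : Fin (R + 1) → ℂ)
    (hz : Zr true (aF R a) (nlF R S) (nrF R S) (gC (aF R a) (nlF R S) (nrF R S)) 1 z) :
    TabW ⟨2, false, some true⟩ W9S (nF R a) (nlF R S) (nrF R S) z ∧
      TabW ⟨2, true, some false⟩ W9T (nF R a) (nlF R S) (nrF R S) z ∧
      TabW ⟨2, false, some false⟩ W9A (nF R a) (nlF R S) (nrF R S) z := by
  have hC := ch_of_adm h.toAdm
  have h3 := hz.in3 hC fun _ hi => aF_cases hi
  have hn := chT_of_adm h
  exact ⟨hz.tabW_S hC h3 hn, hz.tabW_T hC h3 hn, hz.tabW_A hC h3 hn⟩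

end chain

end Pool.Agent.S5.E
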