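import Pool.Agent.S5.E.T.N4F
import Pool.Agent.S5.E.T.QF

/-!
# Mixed chains, block E: the special vertices next to some vertices with four half twists

`XL I`: the regions of the special vertex `k` of a chain `j, i, k` with `a = 2, 4, 2`, an `A` edge
between `j` and `i` and an `S` edge between `i` and `k`; `I` is the type of `j`. There is one region
for each type of the `A` neighbour of `k`.
-/

set_option autoImplicit false

namespace Pool.Agent.S5.E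

open Complex
open Pool.Agent.S5.E.B2

def X4D : List D2P := [
  ⟨⟨595,651,504,607,0⟩,⟨826,862,163,207,0⟩,⟨766,847,521,706,0⟩,⟨776,816,570,636,0⟩,⟨23775,27975,8096,10242⟩⟩,
  ⟨⟨752,920,291,508,0⟩,⟨826,862,163,207,0⟩,⟨804,941,452,706,0⟩,⟨832,924,497,633,0⟩,⟨14254,23944,8096,10242⟩⟩,
  ⟨⟨699,729,200,240,0⟩,⟨826,862,163,207,0⟩,⟨820,908,570,706,0⟩,⟨853,882,637,682,0⟩,⟨9901,11833,8096,10242⟩⟩,
  ⟨⟨799,871,175,279,0⟩,⟨826,862,163,207,0⟩,⟨846,941,521,682,0⟩,⟨877,928,582,659,0⟩,⟨8684,13689,8096,10242⟩⟩,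
  ⟨⟨780,872,239,379,0⟩,⟨826,862,163,207,0⟩,⟨829,939,495,706,0⟩,⟨858,918,549,641,0⟩,⟨11784,18315,8096,10242⟩⟩,
  ⟨⟨824,877,141,209,0⟩,⟨826,862,163,207,0⟩,⟨862,941,538,689,0⟩,⟨894,935,604,665,0⟩,⟨7015,10339,8096,10242⟩⟩,
  ⟨⟨595,651,504,607,0⟩,⟨815,863,171,226,0⟩,⟨766,847,521,706,0⟩,⟨773,816,572,642,0⟩,⟨23775,27975,8488,11160⟩⟩,
  ⟨⟨752,920,291,508,0⟩,⟨815,863,171,226,0⟩,⟨804,941,452,706,0⟩,⟨830,925,499,639,0⟩,⟨14254,23944,8488,11160⟩⟩,
  ⟨⟨699,729,200,240,0⟩,⟨815,863,171,226,0⟩,⟨820,908,570,706,0⟩,⟨851,883,640,689,0⟩,⟨9901,11833,8488,11160⟩⟩,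
  ⟨⟨799,871,175,279,0⟩,⟨815,863,171,226,0⟩,⟨846,941,521,682,0⟩,⟨875,929,584,666,0⟩,⟨8684,13689,8488,11160⟩⟩,
  ⟨⟨780,872,239,379,0⟩,⟨815,863,171,226,0⟩,⟨829,939,495,706,0⟩,⟨856,920,551,648,0⟩,⟨11784,18315,8488,11160⟩⟩,
  ⟨⟨824,877,141,209,0⟩,⟨815,863,171,226,0⟩,⟨862,941,538,689,0⟩,⟨892,936,606,672,0⟩,⟨7015,10339,8488,11160⟩⟩,
  ⟨⟨595,651,504,607,0⟩,⟨797,828,157,194,0⟩,⟨766,847,521,706,0⟩,⟨769,808,567,631,0⟩,⟨23775,27975,7802,9611⟩⟩,
  ⟨⟨752,920,291,508,0⟩,⟨797,828,157,194,0⟩,⟨804,941,452,706,0⟩,⟨826,916,498,631,0⟩,⟨14254,23944,7802,9611⟩⟩,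
  ⟨⟨699,729,200,240,0⟩,⟨797,828,157,194,0⟩,⟨820,908,570,706,0⟩,⟨846,873,638,679,0⟩,⟨9901,11833,7802,9611⟩⟩,
  ⟨⟨799,871,175,279,0⟩,⟨797,828,157,194,0⟩,⟨846,941,521,682,0⟩,⟨870,919,583,658,0⟩,⟨8684,13689,7802,9611⟩⟩,
  ⟨⟨780,872,239,379,0⟩,⟨797,828,157,194,0⟩,⟨829,939,495,706,0⟩,⟨851,909,550,640,0⟩,⟨11784,18315,7802,9611⟩⟩,
  ⟨⟨824,877,141,209,0⟩,⟨797,828,157,194,0⟩,⟨862,941,538,689,0⟩,⟨887,925,607,664,0⟩,⟨7015,10339,7802,9611⟩⟩]

/-- The instances. -/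
def X4L : List Inst := X4D.map (D2P.I true)

set_option maxRecDepth 100000 in
theorem X4D_ok : chkLP 60 true X4D = true := by decide +kernel

theorem X4L_ok : ∀ x ∈ X4L, x.Ok := chkLP_sound X4D_ok

/-- The regions. -/
def XL (I : Vt) : List Rg :=
  match I.o with
  | some true => [⟨776,816,570,636,0⟩, ⟨832,924,497,633,0⟩, ⟨814,909,449,583,0⟩, ⟨853,882,637,682,0⟩, ⟨877,928,582,659,0⟩, ⟨858,918,549,641,0⟩, ⟨894,935,604,665,0⟩]
  | some false => [⟨773,816,572,642,0⟩, ⟨830,925,499,639,0⟩, ⟨814,909,449,583,0⟩, ⟨851,883,640,689,0⟩, ⟨875,929,584,666,0⟩, ⟨856,920,551,648,0⟩, ⟨892,936,606,672,0⟩]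
  | none => [⟨769,808,567,631,0⟩, ⟨826,916,498,631,0⟩, ⟨814,909,449,583,0⟩, ⟨846,873,638,679,0⟩, ⟨870,919,583,658,0⟩, ⟨851,909,550,640,0⟩, ⟨887,925,607,664,0⟩]

/-- The types of `i` and `k`. -/
def i4 : Vt := ⟨4, true, some false⟩

def k2 : Vt := ⟨2, false, some true⟩

/-- The check. -/
def covX (L : List Inst) : Bool :=
  [(⟨2, false, some true⟩ : Vt), ⟨2, false, some false⟩, ⟨2, false, none⟩].all fun I =>
    (types false).all fun M => !(M.ok && adm k2 M i4) || (XL I).any fun r =>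
      bif isP' M then Sb (QF i4) r else L.any fun x =>
        hitQ x (Tfin M k2) (V4S I ⟨2, true, some false⟩)
          (capR (Tfin k2 M) (Tfin ⟨2, true, some false⟩ i4)) r
where
  /-- A special vertex with two half twists, seen from its `A` edge. -/
  isP' (K : Vt) : Bool := Nat.beq K.a 2 && K.o == some true

set_option maxRecDepth 100000 in
theorem covX_ok : covX X4L = true := by decide +kernel

section gen

variable {ι : Type*} {a : ι → ℝ} {n : ι → ℕ} {nl nr : ι → Option (ι × Bool)} {z : ι → ℂ}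

/-- The regions of the special vertex. -/
theorem Zr.x4 (h : Zr true a nl nr (gC a nl nr) 1 z) (hC : Ch a nl nr)
    (h3 : In3 a nl nr z) (hn : ChT a n nl nr) {i j k : ι} {o₁ o₂ : Option (ι × Bool)}
    (hi : n i = 4) (hj2 : n j = 2) (hk2 : n k = 2) (hij : At nl nr i (some (j, false)) (some (k, true)))
    (hji : At nl nr j (some (i, false)) o₁) (hki : At nl nr k (some (i, true)) o₂) :
    ∃ r ∈ XL ⟨2, false, kd o₁⟩, InR r (cos (z k)).re (-(cos (z k)).im) := by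
  have hT := h.tab_fin hC h3 hn
  have vS : TabV ⟨4, false, some true⟩ V4S n nl nr z := hT.via h hC h3 hn LF4_ok cv4S
  -- the other neighbour of `k`
  have hK := hn.v k i true o₂ hki
  have hko : ∃ m, o₂ = some (m, false) := by
    unfold Vt.ok at hK
    rcases o₂ with _ | ⟨m, t⟩
    · simp [hk2, kd] at hK
    · cases t
      · exact ⟨m, rfl⟩
      · simp [hk2, kd] at hK
  obtain ⟨m, rfl⟩ := hko
  obtain ⟨o₃, hm⟩ := at_nb hC hki.sw
  have hM := hn.v m k false o₃ hm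
  have had := hn.d k m i false true o₃ (some (j, false)) hki.sw hm hij.sw
  have h4 := vS i j k true o₁ (some (m, false)) rfl hi hij hji hki
  have t1 := hT k m false (some (i, true)) o₃ hki.sw hm
  have t2 := hT k i true (some (m, false)) (some (j, false)) hki hij.sw
  have t3 := hT m k false o₃ (some (i, true)) hm hki.sw
  rw [hi, hk2] at had
  rw [hj2, hk2] at h4
  rw [hk2] at t1
  rw [hk2, hi] at t2
  rw [hk2] at t3
  have hc := covX_ok
  unfold covX at hc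
  rw [List.all_eq_true] at hc
  have c1 := hc ⟨2, false, kd o₁⟩ (by
    rcases o₁ with _ | ⟨l, t⟩
    · simp [kd]
    · cases t <;> simp [kd])
  rw [List.all_eq_true] at c1
  have c2 := c1 _ (mem_types hM)
  have had' : adm k2 ⟨n m, false, kd o₃⟩ i4 = true := had
  rw [hM, had', Bool.and_true, Bool.not_true, Bool.false_or, List.any_eq_true] at c2
  obtain ⟨r, hr, c3⟩ := c2
  refine ⟨r, hr, ?_⟩
  cases hp : covX.isP' ⟨n m, false, kd o₃⟩
  · rw [hp, cond_false, List.any_eq_true] at c3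
    obtain ⟨x, hx, hh⟩ := c3
    unfold hitQ at hh
    simp only [Bool.and_eq_true, Nat.beq_eq, beq_iff_eq] at hh
    obtain ⟨e1, ⟨e2, e3, e4, e5⟩, e7, e6⟩ := hh
    have ho := InR.capR t1 t2
    have := h.app hC h3 (X4L_ok x hx) (i := k) (j := m) (o := some (i, true))
      (by rw [e1, ← hk2]; exact hn.hA k) (by rw [e2]; exact hki.sw) (by rw [e3]; rfl)
      (ho.sub e7) (t3.sub e4) (by
        intro j' s'' e
        rw [Option.some.injEq, Prod.mk.injEq] at e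
        rw [← e.1]
        exact h4.sub e5)
    exact (InR.capR ho this).sub e6
  · rw [hp, cond_true] at c3
    have hp2 : n m = 2 ∧ ∃ m', o₃ = some (m', true) := by
      unfold covX.isP' at hp
      rw [Bool.and_eq_true] at hp
      obtain ⟨g1, g2⟩ := hp
      refine ⟨Nat.eq_of_beq_eq_true g1, ?_⟩
      rcases o₃ with _ | ⟨m', t⟩
      · simp [kd] at g2
      · cases t
        · simp [kd] at g2
        · exact ⟨m', rfl⟩
    obtain ⟨hm2, m', rfl⟩ := hp2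
    have hQ := (h.tab_pair hC h3 hn).1 k m i m' (some (j, false)) ⟨hk2, hm2, hki.sw, hm, hij.sw⟩
    rw [hi] at hQ
    exact hQ.sub c3

end gen

section chain

variable {R : ℕ} {a : ℕ → ℕ} {S : ℕ → Bool}

theorem x4_adm_r (h : AdmS R a S) (z : Fin (R + 1) → ℂ)
    (hz : Zr true (aF R a) (nlF R S) (nrF R S) (gC (aF R a) (nlF R S) (nrF R S)) 1 z)
    {i : ℕ} (hi : i + 1 < R) (h4 : a (i + 1) = 4) (hs : S i = false) (hs' : S (i + 1) = true)
    (h2 : a i = 2) (h2' : a (i + 2) = 2) :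
    ∃ r ∈ XL (vR a S i), InR r (cos (z ⟨i + 2, by omega⟩)).re (-(cos (z ⟨i + 2, by omega⟩)).im) := by
  have hC := ch_of_adm h.toAdm
  have h3 := hz.in3 hC fun _ hi => aF_cases hi
  have hn := chT_of_adm h
  have h0 : nlF R S ⟨i + 1, by omega⟩ = some (⟨i, by omega⟩, false) := by
    rw [nlF_iff]; exact ⟨rfl, hs.symm⟩
  have h1 : nrF R S ⟨i + 1, by omega⟩ = some (⟨i + 2, by omega⟩, true) := by
    rw [nrF_iff]; exact ⟨rfl, hs'.symm⟩
  have h3' : nrF R S ⟨i, by omega⟩ = some (⟨i + 1, by omega⟩, false) := by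
    rw [nrF_iff]; exact ⟨rfl, hs.symm⟩
  have h4' : nlF R S ⟨i + 2, by omega⟩ = some (⟨i + 1, by omega⟩, true) := by
    rw [nlF_iff]; exact ⟨rfl, hs'.symm⟩
  have hn4 : nF R a ⟨i + 1, by omega⟩ = 4 := by unfold nF; rw [h4]; rfl
  have hn2 : nF R a ⟨i, by omega⟩ = 2 := by unfold nF; rw [h2]; rfl
  have hn2' : nF R a ⟨i + 2, by omega⟩ = 2 := by unfold nF; rw [h2']; rfl
  have e1 : (⟨2, false, kd (nlF R S ⟨i, by omega⟩)⟩ : Vt) = vR a S i := by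
    have := vR_eq (R := R) (a := a) (S := S) (i := ⟨i, by omega⟩)
    rw [hn2, hs] at this
    exact this
  have b := hz.x4 hC h3 hn (i := ⟨i + 1, by omega⟩) (j := ⟨i, by omega⟩)
    (k := ⟨i + 2, by omega⟩) hn4 hn2 hn2' (Or.inl ⟨h0, h1⟩) (Or.inr ⟨rfl, h3'⟩)
    (Or.inl ⟨h4', rfl⟩)
  rw [e1] at b
  exact b

theorem x4_adm_l (h : AdmS R a S) (z : Fin (R + 1) → ℂ)
    (hz : Zr true (aF R a) (nlF R S) (nrF R S) (gC (aF R a) (nlF R S) (nrF R S)) 1 z)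
    {i : ℕ} (hi : i + 1 < R) (h4 : a (i + 1) = 4) (hs : S (i + 1) = false) (hs' : S i = true)
    (h2 : a (i + 2) = 2) (h2' : a i = 2) :
    ∃ r ∈ XL (vL R a S (i + 2)), InR r (cos (z ⟨i, by omega⟩)).re
      (-(cos (z ⟨i, by omega⟩)).im) := by
  have hC := ch_of_adm h.toAdm
  have h3 := hz.in3 hC fun _ hi => aF_cases hi
  have hn := chT_of_adm h
  have h0 : nlF R S ⟨i + 1, by omega⟩ = some (⟨i, by omega⟩, true) := by
    rw [nlF_iff]; exact ⟨rfl, hs'.symm⟩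
  have h1 : nrF R S ⟨i + 1, by omega⟩ = some (⟨i + 2, by omega⟩, false) := by
    rw [nrF_iff]; exact ⟨rfl, hs.symm⟩
  have h3' : nrF R S ⟨i, by omega⟩ = some (⟨i + 1, by omega⟩, true) := by
    rw [nrF_iff]; exact ⟨rfl, hs'.symm⟩
  have h4' : nlF R S ⟨i + 2, by omega⟩ = some (⟨i + 1, by omega⟩, false) := by
    rw [nlF_iff]; exact ⟨rfl, hs.symm⟩
  have hn4 : nF R a ⟨i + 1, by omega⟩ = 4 := by unfold nF; rw [h4]; rfl
  have hn2 : nF R a ⟨i + 2, by omega⟩ = 2 := by unfold nF; rw [h2]; rfl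
  have hn2' : nF R a ⟨i, by omega⟩ = 2 := by unfold nF; rw [h2']; rfl
  have e1 : (⟨2, false, kd (nrF R S ⟨i + 2, by omega⟩)⟩ : Vt) = vL R a S (i + 2) := by
    have := vL_eq (R := R) (a := a) (S := S) (i := ⟨i + 2, by omega⟩)
    rw [hn2] at this
    rw [← this]
    show _ = (⟨2, S (i + 2 - 1), _⟩ : Vt)
    rw [show i + 2 - 1 = i + 1 from rfl, hs]
  have b := hz.x4 hC h3 hn (i := ⟨i + 1, by omega⟩) (j := ⟨i + 2, by omega⟩)
    (k := ⟨i, by omega⟩) hn4 hn2 hn2' (Or.inr ⟨h0, h1⟩) (Or.inl ⟨h4', rfl⟩)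
    (Or.inr ⟨rfl, h3'⟩)
  rw [e1] at b
  exact b

end chain

end Pool.Agent.S5.E
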